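import Pool.Agent.H327R4.Pure.Stubs3

/-!
# From uniformly McDuff to approximately central dimension drop algebras: statements
-/

set_option autoImplicit false

namespace Pool.Agent.H327R4.SI

open Filter Topology Pool.Agent.H327R4.Pure

universe u

/-- the closed right ideal generated by `a` -/
def RI {B : Type u} [CStarAlgebra B] (a : B) : Set B := closure (Set.range fun t : B => a * t)

/-- on the right ideal of `a` the element `y` acts like the scalar `l`, up to `ε` -/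
def Ex {B : Type u} [CStarAlgebra B] (ε : ℝ) (a y : B) (l : ℂ) : Prop :=
  ∀ x ∈ RI a, ‖star x * y * x - l • (star x * x)‖ ≤ ε * ‖x‖ ^ 2

/-- `y` almost does not connect the right ideals of `a` and `b` -/
def Dc {B : Type u} [CStarAlgebra B] (ε : ℝ) (a b y : B) : Prop :=
  ∀ x ∈ RI a, ∀ z ∈ RI b, ‖star x * y * z‖ ≤ ε * ‖x‖ * ‖z‖

/-- a state -/
def IsSt {B : Type u} [CStarAlgebra B] (Ψ : B →ₗ[ℂ] ℂ) : Prop :=
  Ψ 1 = 1 ∧ ∀ x : B, 0 ≤ (Ψ (star x * x)).re ∧ (Ψ (star x * x)).im = 0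

/-- completely positive maps from a C*-algebra to `M_N(ℂ)` -/
def CPto {A : Type u} [CStarAlgebra A] {N : ℕ} (ρ : A →ₗ[ℂ] Matrix (Fin N) (Fin N) ℂ) : Prop :=
  ∀ x : Fin N → A, 0 ≤ (∑ p, ∑ q, ρ (star (x p) * x q) p q).re ∧
    (∑ p, ∑ q, ρ (star (x p) * x q) p q).im = 0

/-- completely positive maps from `M_N(ℂ)` to a C*-algebra -/
def CPfrom {A : Type u} [CStarAlgebra A] [PartialOrder A] {N : ℕ}
    (σ : Matrix (Fin N) (Fin N) ℂ →ₗ[ℂ] A) : Prop :=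
  ∀ (k : ℕ) (x : Fin k → Matrix (Fin N) (Fin N) ℂ) (b : Fin k → A),
    0 ≤ ∑ i, ∑ j, star (b i) * σ (star (x i) * x j) * b j

section props

variable (A : Type u) [CStarAlgebra A] [PartialOrder A] [StarOrderedRing A]

/-- the completely positive approximation property: nuclearity -/
def CPAP : Prop := ∀ (m : ℕ) (a : Fin m → A) (ε : ℝ), 0 < ε →
  ∃ (N : ℕ) (ρ : A →ₗ[ℂ] Matrix (Fin N) (Fin N) ℂ) (σ : Matrix (Fin N) (Fin N) ℂ →ₗ[ℂ] A),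
    CPto ρ ∧ CPfrom σ ∧ ∀ j, ‖σ (ρ (a j)) - a j‖ ≤ ε

/-- the same with a Kraus decomposition of the second map -/
def CPF : Prop := ∀ (m : ℕ) (a : Fin m → A) (ε : ℝ), 0 < ε →
  ∃ (N L : ℕ) (ρ : A →ₗ[ℂ] Matrix (Fin N) (Fin N) ℂ) (c : Fin L → Fin N → A), CPto ρ ∧
    ∀ j, ‖∑ l, ∑ p, ∑ q, ρ (a j) p q • (star (c l p) * c l q) - a j‖ ≤ ε

/-- uniformly McDuff, in the 2-norm -/
def UM : Prop := ∀ (m : ℕ) (a : Fin m → A) (ε : ℝ), 0 < ε →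
  ∃ v : A, ‖v‖ ≤ 1 ∧ ∀ T : TS A,
    (∀ j, (T.1.f (star (v * a j - a j * v) * (v * a j - a j * v))).re ≤ ε) ∧
    (T.1.f (star (v * v) * (v * v))).re ≤ ε ∧
    (T.1.f ((1 - star v * v - v * star v) * (1 - star v * v - v * star v))).re ≤ ε

/-- approximately central `2 × 2` matrix units in the operator norm, with a leftover `e` which is
uniformly small in trace -/
def MCN : Prop := ∀ (m : ℕ) (a : Fin m → A) (K : ℕ) (ε : ℝ), 0 < ε →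
  ∃ c₁ c₂ e : A, 0 ≤ c₁ ∧ c₁ ≤ 1 ∧ ‖c₂‖ ≤ 1 ∧ 0 ≤ e ∧ e ≤ 1 ∧ ‖c₁ * star c₂‖ ≤ ε ∧
    ‖c₂ * star c₂ - c₁ * c₁‖ ≤ ε ∧ ‖c₁ * c₁ + star c₂ * c₂ + e - 1‖ ≤ ε ∧
    (∀ j, ‖c₁ * a j - a j * c₁‖ ≤ ε ∧ ‖c₂ * a j - a j * c₂‖ ≤ ε ∧ ‖e * a j - a j * e‖ ≤ ε) ∧
    ∀ T : TS A, (T.1.f e).re ≤ ε ∧ 1 / 4 ≤ (T.1.f (c₁ ^ K)).re

/-- property (SI), in local form, with several orthogonal copies -/
def SIP : Prop := ∀ (m : ℕ) (a : Fin m → A) (R : ℕ) (ε : ℝ), 0 < ε →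
  ∃ (k : ℕ) (y : Fin k → A) (K : ℕ) (δ : ℝ), 0 < δ ∧
    ∀ e f : A, 0 ≤ e → e ≤ 1 → 0 ≤ f → f ≤ 1 →
      (∀ j, ‖e * y j - y j * e‖ ≤ δ ∧ ‖f * y j - y j * f‖ ≤ δ) →
      1 / 4 ≤ ‖f ^ K‖ → (∀ T : TS A, (R : ℝ) * (T.1.f e).re ≤ δ ∧ 1 / 4 ≤ (T.1.f (f ^ K)).re) →
      ∃ s : Fin R → A, (∀ i i', ‖star (s i) * s i' - if i = i' then e else 0‖ ≤ ε) ∧
        (∀ i, ‖f * s i - s i‖ ≤ ε) ∧ ∀ i j, ‖s i * a j - a j * s i‖ ≤ ε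

/-- approximately central elements satisfying (up to `ε`, in operator norm) the Rørdam-Winter
relations of the dimension drop algebra `Z_{2,3}` -/
def ZST : Prop := ∀ (m : ℕ) (a : Fin m → A) (ε : ℝ), 0 < ε →
  ∃ c₁ c₂ s : A, 0 ≤ c₁ ∧ ‖c₁ * star c₂‖ ≤ ε ∧ ‖c₂ * star c₂ - c₁ * c₁‖ ≤ ε ∧
    ‖c₁ * c₁ + star c₂ * c₂ + star s * s - 1‖ ≤ ε ∧ ‖c₁ * s - s‖ ≤ ε ∧
    ∀ j, ‖c₁ * a j - a j * c₁‖ ≤ ε ∧ ‖c₂ * a j - a j * c₂‖ ≤ ε ∧ ‖s * a j - a j * s‖ ≤ ε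

end props

/-- basic facts on right ideals -/
def StRIB : Prop := ∀ (B : Type u) [CStarAlgebra B] [PartialOrder B] [StarOrderedRing B],
  (∀ a : B, a ∈ RI a) ∧ (∀ a x t : B, x ∈ RI a → x * t ∈ RI a) ∧
  (∀ a x y : B, x ∈ RI a → y ∈ RI a → x + y ∈ RI a) ∧
  (∀ (a x : B) (c : ℂ), x ∈ RI a → c • x ∈ RI a) ∧
  (∀ a b : B, b ∈ RI a → RI b ⊆ RI a) ∧
  (∀ (a : B) (f : ℝ → ℝ), 0 ≤ a → Continuous f → f 0 = 0 → cfcₙ f a ∈ RI a) ∧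
  (∀ (a x : B) (ε : ℝ), 0 ≤ a → 0 < ε → x ∈ RI (cut ε a) → phi ε a * x = x) ∧
  (∀ (a x : B) (M : ℝ), 0 ≤ a → x * star x ≤ M • a → x ∈ RI a) ∧
  (∀ a : B, a ≠ 0 → ∀ b : B, b ∈ RI a → b ≠ 0 → RI b ⊆ RI a)

/-- excision of one self-adjoint element, with the maximal value -/
def StX1 : Prop := ∀ (B : Type u) [CStarAlgebra B] [PartialOrder B] [StarOrderedRing B]
  (a y : B) (ε : ℝ), 0 ≤ a → a ≠ 0 → IsSelfAdjoint y → 0 < ε →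
    ∃ (a' : B) (l : ℝ), 0 ≤ a' ∧ a' ≠ 0 ∧ a' ∈ RI a ∧ Ex ε a' y l ∧
      ∀ x ∈ RI a, star x * y * x ≤ l • (star x * x)

/-- excision of several elements, the first value being maximal -/
def StX2 : Prop := ∀ (B : Type u) [CStarAlgebra B] [PartialOrder B] [StarOrderedRing B]
  (a y : B) (k : ℕ) (z : Fin k → B) (ε : ℝ), 0 ≤ a → a ≠ 0 → IsSelfAdjoint y → 0 < ε →
    ∃ (a' : B) (l : ℝ) (μ : Fin k → ℂ), 0 ≤ a' ∧ a' ≠ 0 ∧ a' ∈ RI a ∧ Ex ε a' y l ∧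
      (∀ i, Ex ε a' (z i) (μ i)) ∧ ∀ x ∈ RI a, star x * y * x ≤ l • (star x * x)

/-- every state is approximated by convex combinations of excised values -/
def StX3 : Prop := ∀ (B : Type u) [CStarAlgebra B] [PartialOrder B] [StarOrderedRing B]
  [Nontrivial B] (Ψ : B →ₗ[ℂ] ℂ) (k : ℕ) (y : Fin k → B) (ε : ℝ), IsSt Ψ → 0 < ε →
    ∃ (n : ℕ) (w : Fin n → ℝ) (ω : Fin n → Fin k → ℂ), (∀ m, 0 ≤ w m) ∧ ∑ m, w m = 1 ∧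
      (∀ (m : Fin n) (ε' : ℝ), 0 < ε' → ∃ a : B, 0 ≤ a ∧ a ≠ 0 ∧ ∀ i, Ex ε' a (y i) (ω m i)) ∧
      ∀ i, ‖∑ m, (w m : ℂ) * ω m i - Ψ (y i)‖ ≤ ε

/-- many orthogonal elements -/
def StORT : Prop := ∀ (B : Type u) [CStarAlgebra B] [PartialOrder B] [StarOrderedRing B],
  SimpleC B → ¬ FiniteDimensional ℂ B → ∀ (b : B) (R : ℕ), 0 ≤ b → b ≠ 0 →
    ∃ c : Fin R → B, (∀ i, 0 ≤ c i ∧ ‖c i‖ = 1 ∧ c i ∈ RI b) ∧ ∀ i j, i ≠ j → c i * c j = 0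

/-- decoupling of two right ideals -/
def StX4 : Prop := ∀ (B : Type u) [CStarAlgebra B] [PartialOrder B] [StarOrderedRing B],
  SimpleC B → ¬ FiniteDimensional ℂ B → ∀ (a b : B) (k : ℕ) (y : Fin k → B) (ε : ℝ),
    0 ≤ a → a ≠ 0 → 0 ≤ b → b ≠ 0 → 0 < ε →
    ∃ a' b' : B, 0 ≤ a' ∧ a' ≠ 0 ∧ a' ∈ RI a ∧ 0 ≤ b' ∧ b' ≠ 0 ∧ b' ∈ RI b ∧
      ∀ i, Dc ε a' b' (y i)

/-- decoupling of several right ideals -/
def StX5 : Prop := ∀ (B : Type u) [CStarAlgebra B] [PartialOrder B] [StarOrderedRing B],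
  SimpleC B → ¬ FiniteDimensional ℂ B → ∀ (n k : ℕ) (a : Fin n → B) (y : Fin k → B) (ε : ℝ),
    (∀ m, 0 ≤ a m ∧ a m ≠ 0) → 0 < ε →
    ∃ a' : Fin n → B, (∀ m, 0 ≤ a' m ∧ a' m ≠ 0 ∧ a' m ∈ RI (a m)) ∧
      ∀ m m', m ≠ m' → ∀ i, Dc ε (a' m) (a' m') (y i)

/-- a common source -/
def StX6 : Prop := ∀ (B : Type u) [CStarAlgebra B] [PartialOrder B] [StarOrderedRing B],
  SimpleC B → ∀ (n : ℕ) (a : Fin n → B), (∀ m, 0 ≤ a m ∧ a m ≠ 0) →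
    ∃ (g : B) (x : Fin n → B), 0 ≤ g ∧ ‖g‖ = 1 ∧ ∀ m, x m ∈ RI (a m) ∧ star (x m) * x m = g

/-- excision of an arbitrary state -/
def StX7 : Prop := ∀ (B : Type u) [CStarAlgebra B] [PartialOrder B] [StarOrderedRing B],
  SimpleC B → ¬ FiniteDimensional ℂ B → ∀ (Ψ : B →ₗ[ℂ] ℂ) (k : ℕ) (y : Fin k → B) (ε : ℝ),
    IsSt Ψ → 0 < ε → ∃ H g : B, 0 ≤ g ∧ ‖g‖ = 1 ∧ ∀ i, ‖star H * y i * H - Ψ (y i) • g‖ ≤ ε

/-- matrix algebras over a simple infinite-dimensional algebra -/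
def StX8 : Prop := ∀ (A : Type u) [CStarAlgebra A] [PartialOrder A] [StarOrderedRing A],
  SimpleC A → ¬ FiniteDimensional ℂ A → ∀ N : ℕ, 1 ≤ N →
    SimpleC (MM N A) ∧ ¬ FiniteDimensional ℂ (MM N A)

/-- excision of completely positive maps -/
def StGL : Prop := ∀ (A : Type u) [CStarAlgebra A] [PartialOrder A] [StarOrderedRing A],
  SimpleC A → ¬ FiniteDimensional ℂ A →
    ∀ (N : ℕ) (ρ : A →ₗ[ℂ] Matrix (Fin N) (Fin N) ℂ) (k : ℕ) (y : Fin k → A) (ε : ℝ),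
    CPto ρ → 0 < ε → ∃ (D : Fin N → A) (g : A), 0 ≤ g ∧ ‖g‖ = 1 ∧
      ∀ i p q, ‖star (D p) * y i * D q - ρ (y i) p q • g‖ ≤ ε

/-- explicit quasicentral elements -/
def StQC : Prop := ∀ (r p : ℕ) (ε : ℝ), 0 < ε → ∃ δ : ℝ, 0 < δ ∧
  ∀ (A : Type u) [CStarAlgebra A] [PartialOrder A] [StarOrderedRing A]
    (x : Fin r → A) (z : Fin p → A), (∀ i, ‖x i‖ ≤ 1) → (∀ j, ‖z j‖ ≤ 1) →
    (∀ (T : TS A) (j : Fin p), (T.1.f (z j * star (z j))).re ≤ δ) →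
    ∃ e : A, 0 ≤ e ∧ e ≤ 1 ∧ (∀ i, ‖e * x i - x i * e‖ ≤ ε) ∧
      (∀ j, ‖z j - e * z j‖ ≤ ε ∧ ‖z j - z j * e‖ ≤ ε) ∧ ∀ T : TS A, (T.1.f e).re ≤ ε

/-- commutators with continuous functions -/
def StFCOM : Prop := ∀ (f : ℝ → ℝ) (η : ℝ), ContinuousOn f (Set.Icc 0 1) → 0 < η →
  ∃ δ : ℝ, 0 < δ ∧ ∀ (A : Type u) [CStarAlgebra A] [PartialOrder A] [StarOrderedRing A]
    (x y : A), 0 ≤ x → x ≤ 1 → ‖y‖ ≤ 1 → ‖x * y - y * x‖ ≤ δ →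
      ‖cfc f x * y - y * cfc f x‖ ≤ η

/-- rows in a right ideal from strict comparison -/
def StROWS : Prop := ∀ (A : Type u) [CStarAlgebra A] [PartialOrder A] [StarOrderedRing A],
  SC A → ∀ (L : ℕ) (e b : A) (ε : ℝ), 0 ≤ e → 0 ≤ b → b ≠ 0 → 0 < ε →
    (∀ T : TS A, (L : ℝ) * rk T.1 e < rk T.1 b) →
    ∃ w : Fin L → A, (∀ l l', star (w l) * w l' = if l = l' then cut ε e else 0) ∧
      ∀ l, w l ∈ RI b

/-- from the completely positive approximation property to Kraus form -/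
def StNF : Prop := ∀ (A : Type u) [CStarAlgebra A] [PartialOrder A] [StarOrderedRing A],
  CPAP A → CPF A

/-- from the 2-norm to the operator norm -/
def StLIFT : Prop := ∀ (A : Type u) [CStarAlgebra A] [PartialOrder A] [StarOrderedRing A],
  UM A → MCN A

/-- lower bounds for `b = h f^(2K) h` -/
def StLB : Prop := ∀ (A : Type u) [CStarAlgebra A] [PartialOrder A] [StarOrderedRing A],
  SimpleC A → ∀ h : A, 0 ≤ h → h ≠ 0 → ∃ (k : ℕ) (y : Fin k → A) (η : ℝ), 0 < η ∧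
    ∀ K : ℕ, ∃ δ : ℝ, 0 < δ ∧ ∀ f : A, 0 ≤ f → f ≤ 1 → (∀ j, ‖f * y j - y j * f‖ ≤ δ) →
      (1 / 4 ≤ ‖f ^ (2 * K)‖ → η ≤ ‖h * f ^ (2 * K) * h‖) ∧
      ∀ T : TS A, 1 / 4 ≤ (T.1.f (f ^ (2 * K))).re → η ≤ (T.1.f (h * f ^ (2 * K) * h)).re

/-- one excising row: elements `r_l` with `r_l^* g r_l' = δ e''`, `f r_l ~ r_l` -/
def StSIR : Prop := ∀ (A : Type u) [CStarAlgebra A] [PartialOrder A] [StarOrderedRing A],
  SimpleC A → SC A → ∀ (g : A) (L : ℕ) (ε : ℝ), 0 ≤ g → ‖g‖ = 1 → 0 < ε →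
    ∃ (k : ℕ) (y : Fin k → A) (K : ℕ) (δ : ℝ), 0 < δ ∧
    ∀ e f : A, 0 ≤ e → e ≤ 1 → 0 ≤ f → f ≤ 1 →
      (∀ j, ‖f * y j - y j * f‖ ≤ δ) → 1 / 4 ≤ ‖f ^ K‖ →
      (∀ T : TS A, (T.1.f e).re ≤ δ ∧ 1 / 4 ≤ (T.1.f (f ^ K)).re) →
      ∃ r : Fin L → A, (∀ l, ‖r l‖ ≤ 2) ∧ (∀ l, ‖f * r l - r l‖ ≤ ε) ∧
        ∀ l l', star (r l) * g * r l' = if l = l' then cut ε e else 0

/-- strict comparison and nuclearity imply property (SI) -/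
def StSI : Prop := ∀ (A : Type u) [CStarAlgebra A] [PartialOrder A] [StarOrderedRing A],
  SimpleC A → ¬ FiniteDimensional ℂ A → SC A → CPF A → SIP A

/-- the conclusion -/
def StFIN : Prop := ∀ (A : Type u) [CStarAlgebra A] [PartialOrder A] [StarOrderedRing A],
  SIP A → (Nonempty (TS A) → MCN A) → ZST A

theorem main_of (h1 : StNF.{u}) (h2 : StLIFT.{u}) (h3 : StSI.{u}) (h4 : StFIN.{u}) :
    ∀ (A : Type u) [CStarAlgebra A] [PartialOrder A] [StarOrderedRing A],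
      SimpleC A → ¬ FiniteDimensional ℂ A → SC A → CPAP A → UM A → ZST A := by
  intro A _ _ _ hs hf hc hn hu
  exact h4 A (h3 A hs hf hc (h1 A hn)) fun _ => h2 A hu

end Pool.Agent.H327R4.SI
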