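import Pool.Agent.H327R4.SI.Stubs
import Pool.Agent.H327R4.Pure.TDIAG

/-!
# GL: excision of completely positive maps (helper254)
-/

set_option autoImplicit false

namespace Pool.Agent.H327R4.SI

open Filter Topology Pool.Agent.H327R4.Pure

universe u

namespace TGL

variable {A : Type u} [CStarAlgebra A] [PartialOrder A] [StarOrderedRing A]

theorem exs {B : Type u} [NonUnitalCStarAlgebra B] [PartialOrder B] [StarOrderedRing B]
    (a : B) (ha : 0 ≤ a) : ∃ x, a = star x * x :=
  CStarAlgebra.nonneg_iff_eq_star_mul_self.1 ha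

theorem sum_apply' {N : ℕ} (s : Finset (Fin N)) (f : Fin N → MM N A) (i j : Fin N) :
    (∑ κ ∈ s, f κ : MM N A) i j = ∑ κ ∈ s, f κ i j := by
  induction s using Finset.induction_on with
  | empty => simp
  | insert a s ha ih =>
    rw [Finset.sum_insert ha, Finset.sum_insert ha, CStarMatrix.add_apply, ih]

/-- diagonal projections -/
noncomputable def P {N : ℕ} (κ : Fin N) : MM N A := dg (Pi.single κ 1)

theorem P_apply {N : ℕ} (κ i j : Fin N) :
    (P κ : MM N A) i j = if i = j then (if i = κ then 1 else 0) else 0 := by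
  unfold P
  rw [dg_apply, Pi.single_apply]

theorem P_star {N : ℕ} (κ : Fin N) : star (P κ : MM N A) = P κ := by
  ext i j
  rw [CStarMatrix.star_apply, P_apply, P_apply]
  by_cases h : i = j
  · subst h
    by_cases h' : i = κ <;> simp [h']
  · simp [h, Ne.symm h]

theorem P_sum {N : ℕ} : (∑ κ, P κ : MM N A) = 1 := by
  ext i j
  rw [sum_apply', CStarMatrix.one_apply]
  simp only [P_apply]
  by_cases h : i = j
  · subst h
    simp
  · simp [h]

theorem P_mul {N : ℕ} (κ : Fin N) (G : MM N A) (i j : Fin N) :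
    (P κ * G : MM N A) i j = if i = κ then G i j else 0 := by
  rw [CStarMatrix.mul_apply]
  simp only [P_apply]
  rw [Finset.sum_eq_single i]
  · by_cases h : i = κ <;> simp [h]
  · intro l _ hl
    simp [Ne.symm hl]
  · simp

theorem mul_P {N : ℕ} (κ : Fin N) (G : MM N A) (i j : Fin N) :
    (G * P κ : MM N A) i j = if j = κ then G i j else 0 := by
  rw [CStarMatrix.mul_apply]
  simp only [P_apply]
  rw [Finset.sum_eq_single j]
  · by_cases h : j = κ <;> simp [h]
  · intro l _ hl
    simp [hl]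
  · simp

theorem P_conj {N : ℕ} (κ : Fin N) (G : MM N A) :
    P κ * G * P κ = dg (Pi.single κ (G κ κ)) := by
  ext i j
  rw [mul_P, P_mul, dg_apply, Pi.single_apply]
  by_cases h1 : j = κ
  · subst h1
    by_cases h2 : i = j
    · subst h2
      simp
    · simp [h2]
  · by_cases h2 : i = κ
    · subst h2
      simp [h1, Ne.symm h1]
    · simp [h1, h2]

theorem norm_dg_le {N : ℕ} (a : Fin N → A) : ‖dg a‖ ≤ ‖a‖ := by
  rw [← dgHom_apply]
  exact NonUnitalStarAlgHom.norm_apply_le (dgHom A N) a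

/-- the norm of a positive matrix is at most the sum of the norms of the diagonal entries -/
theorem norm_le_sum {N : ℕ} (G : MM N A) (hG : 0 ≤ G) : ‖G‖ ≤ ∑ κ, ‖G κ κ‖ := by
  obtain ⟨X, rfl⟩ := exs G hG
  have h1 : ‖star X * X‖ = ‖X * star X‖ := by
    rw [CStarRing.norm_star_mul_self, CStarRing.norm_self_mul_star]
  rw [h1]
  have h2 : X * star X = ∑ κ, X * P κ * star X := by
    rw [← Finset.sum_mul, ← Finset.mul_sum, P_sum, mul_one]
  rw [h2]
  refine (norm_sum_le _ _).trans (Finset.sum_le_sum (fun κ _ => ?_))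
  have hPP : (P κ : MM N A) * P κ = P κ := by
    ext i j
    rw [mul_P, P_apply]
    by_cases h : i = j
    · subst h
      by_cases h' : i = κ <;> simp [h']
    · simp [h]
  have h3 : X * P κ * star X = (X * P κ) * star (X * P κ) := by
    rw [star_mul, P_star]
    calc X * P κ * star X = X * (P κ * P κ) * star X := by rw [hPP]
      _ = X * P κ * (P κ * star X) := by simp only [mul_assoc]
  have h4 : ‖(X * P κ) * star (X * P κ)‖ = ‖star (X * P κ) * (X * P κ)‖ := by
    rw [CStarRing.norm_star_mul_self, CStarRing.norm_self_mul_star]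
  have h5 : star (X * P κ) * (X * P κ) = P κ * (star X * X) * P κ := by
    rw [star_mul, P_star]
    simp only [mul_assoc]
  rw [h3, h4, h5, P_conj]
  refine (norm_dg_le _).trans ?_
  rw [pi_norm_le_iff_of_nonneg (norm_nonneg _)]
  intro i
  rw [Pi.single_apply]
  split_ifs
  · exact le_refl _
  · rw [norm_zero]
    exact norm_nonneg _

theorem diag_nonneg {N : ℕ} (h : MM N A) (hh : 0 ≤ h) (k : Fin N) : 0 ≤ h k k := by
  obtain ⟨x, rfl⟩ := exs h hh
  rw [CStarMatrix.mul_apply]
  refine Finset.sum_nonneg fun j _ => ?_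
  rw [CStarMatrix.star_apply]
  exact star_mul_self_nonneg _

/-- the functional on matrices -/
noncomputable def Ps {N : ℕ} (ρ : A →ₗ[ℂ] Matrix (Fin N) (Fin N) ℂ) : MM N A →ₗ[ℂ] ℂ where
  toFun M := ∑ p, ∑ q, ρ (M p q) p q
  map_add' M M' := by
    simp only [CStarMatrix.add_apply, map_add, Matrix.add_apply, Finset.sum_add_distrib]
  map_smul' c M := by
    simp only [CStarMatrix.smul_apply, map_smul, Matrix.smul_apply, RingHom.id_apply, smul_eq_mul,
      Finset.mul_sum]

theorem Ps_apply {N : ℕ} (ρ : A →ₗ[ℂ] Matrix (Fin N) (Fin N) ℂ) (M : MM N A) :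
    Ps ρ M = ∑ p, ∑ q, ρ (M p q) p q := rfl

theorem Ps_pos {N : ℕ} (ρ : A →ₗ[ℂ] Matrix (Fin N) (Fin N) ℂ) (hρ : CPto ρ) (M : MM N A) :
    0 ≤ (Ps ρ (star M * M)).re ∧ (Ps ρ (star M * M)).im = 0 := by
  have h1 : Ps ρ (star M * M) = ∑ l, ∑ p, ∑ q, ρ (star (M l p) * M l q) p q := by
    rw [Ps_apply]
    have h2 : ∀ p q, ρ ((star M * M) p q) p q = ∑ l, ρ (star (M l p) * M l q) p q := by
      intro p q
      rw [CStarMatrix.mul_apply, map_sum, Matrix.sum_apply]
      refine Finset.sum_congr rfl (fun l _ => ?_)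
      rw [CStarMatrix.star_apply]
    simp only [h2]
    have h3 : ∀ p : Fin N, ∑ q, ∑ l, ρ (star (M l p) * M l q) p q
        = ∑ l, ∑ q, ρ (star (M l p) * M l q) p q := fun p => Finset.sum_comm
    simp only [h3]
    exact Finset.sum_comm
  rw [h1, Complex.re_sum, Complex.im_sum]
  refine ⟨Finset.sum_nonneg (fun l _ => (hρ (fun p => M l p)).1), ?_⟩
  exact Finset.sum_eq_zero (fun l _ => (hρ (fun p => M l p)).2)

/-- matrix with a single entry -/
noncomputable def E {N : ℕ} (p q : Fin N) (a : A) : MM N A :=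
  CStarMatrix.ofMatrix (Matrix.single p q a)

theorem E_apply {N : ℕ} (p q : Fin N) (a : A) (i j : Fin N) :
    E p q a i j = if p = i ∧ q = j then a else 0 := by
  unfold E
  rw [CStarMatrix.ofMatrix_apply, Matrix.single_apply]

theorem Ps_E {N : ℕ} (ρ : A →ₗ[ℂ] Matrix (Fin N) (Fin N) ℂ) (p q : Fin N) (a : A) :
    Ps ρ (E p q a) = ρ a p q := by
  rw [Ps_apply, Finset.sum_eq_single p, Finset.sum_eq_single q]
  · rw [E_apply, if_pos ⟨rfl, rfl⟩]
  · intro j _ hj
    rw [E_apply, if_neg (fun h => hj h.2.symm)]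
    simp
  · simp
  · intro i _ hi
    refine Finset.sum_eq_zero (fun j _ => ?_)
    rw [E_apply, if_neg (fun h => hi h.1.symm)]
    simp
  · simp

theorem conj_E {N : ℕ} (H : MM N A) (p q κ : Fin N) (a : A) :
    (star H * E p q a * H) κ κ = star (H p κ) * a * H q κ := by
  rw [CStarMatrix.mul_apply, Finset.sum_eq_single q]
  · rw [CStarMatrix.mul_apply, Finset.sum_eq_single p]
    · rw [E_apply, if_pos ⟨rfl, rfl⟩, CStarMatrix.star_apply]
    · intro j _ hj
      rw [E_apply, if_neg (fun h => hj h.1.symm), mul_zero]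
    · simp
  · intro j _ hj
    have h1 : (star H * E p q a) κ j = 0 := by
      rw [CStarMatrix.mul_apply]
      refine Finset.sum_eq_zero (fun i _ => ?_)
      rw [E_apply, if_neg (fun h => hj h.2.symm), mul_zero]
    rw [h1, zero_mul]
  · simp

/-- a positive functional with value `0` at `1` vanishes -/
theorem zero_of_one {B : Type u} [CStarAlgebra B] (Φ : B →ₗ[ℂ] ℂ)
    (hp : ∀ x, 0 ≤ (Φ (star x * x)).re ∧ (Φ (star x * x)).im = 0) (h1 : (Φ 1).re = 0) (x : B) :
    Φ x = 0 := by
  have h1' : Φ 1 = 0 := by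
    have h2 := (hp 1).2
    rw [star_one, one_mul] at h2
    exact Complex.ext h1 h2
  -- for all complex `c`: `0 ≤ |c|^2 Φ(x* x) + 2 Re (c ...)`
  have key : ∀ (t : ℝ) (w : ℂ), 0 ≤ t ^ 2 * (Complex.normSq w) * (Φ (star x * x)).re
      + t * ((star w * Φ (star x)) + w * Φ x).re := by
    intro t w
    have h3 := (hp (((t:ℂ) * w) • x + 1)).1
    have h4 : star (((t:ℂ) * w) • x + 1) * (((t:ℂ) * w) • x + 1)
        = (star ((t:ℂ) * w) * ((t:ℂ) * w)) • (star x * x) + (star ((t:ℂ) * w)) • star x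
          + ((t:ℂ) * w) • x + 1 := by
      rw [star_add, star_one, star_smul, add_mul, mul_add, mul_add, smul_mul_smul_comm, mul_one,
        one_mul, one_mul]
      abel
    rw [h4] at h3
    simp only [map_add, map_smul, h1', smul_eq_mul, add_zero] at h3
    have h5 : star ((t:ℂ) * w) * ((t:ℂ) * w) = ((t ^ 2 * Complex.normSq w : ℝ) : ℂ) := by
      rw [Complex.star_def, ← Complex.normSq_eq_conj_mul_self, Complex.normSq_mul,
        Complex.normSq_ofReal]
      push_cast
      ring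
    have h6 : star ((t:ℂ) * w) = (t:ℂ) * star w := by
      rw [Complex.star_def, map_mul, Complex.conj_ofReal]
    rw [h5, h6] at h3
    have h7 : (((t ^ 2 * Complex.normSq w : ℝ) : ℂ) * Φ (star x * x) + (t:ℂ) * star w * Φ (star x)
        + (t:ℂ) * w * Φ x).re = t ^ 2 * (Complex.normSq w) * (Φ (star x * x)).re
      + t * ((star w * Φ (star x)) + w * Φ x).re := by
      have e1 : ((t ^ 2 * Complex.normSq w : ℝ) : ℂ) * Φ (star x * x)
          + (t:ℂ) * star w * Φ (star x) + (t:ℂ) * w * Φ x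
          = ((t ^ 2 * Complex.normSq w : ℝ) : ℂ) * Φ (star x * x)
          + (t:ℂ) * ((star w * Φ (star x)) + w * Φ x) := by ring
      rw [e1, Complex.add_re, Complex.re_ofReal_mul, Complex.re_ofReal_mul]
    rw [h7] at h3
    exact h3
  -- the linear term vanishes
  have lin : ∀ w : ℂ, ((star w * Φ (star x)) + w * Φ x).re = 0 := by
    intro w
    set a := (Complex.normSq w) * (Φ (star x * x)).re with ha
    set b := ((star w * Φ (star x)) + w * Φ x).re with hb
    have hk : ∀ t : ℝ, 0 ≤ t ^ 2 * a + t * b := by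
      intro t
      have := key t w
      rw [mul_assoc] at this
      exact this
    by_contra hb0
    have ha0 : 0 ≤ a := mul_nonneg (Complex.normSq_nonneg _) (hp x).1
    have h8 := hk (- b / (a + 1))
    have h9 : (- b / (a + 1)) ^ 2 * a + (- b / (a + 1)) * b = - b ^ 2 / (a + 1) ^ 2 := by
      field_simp
      ring
    rw [h9] at h8
    have h10 : 0 < b ^ 2 / (a + 1) ^ 2 := by positivity
    have h11 : - b ^ 2 / (a + 1) ^ 2 = - (b ^ 2 / (a + 1) ^ 2) := by ring
    rw [h11] at h8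
    linarith
  have l1 := lin 1
  have l2 := lin Complex.I
  have hx' : ∀ z : B, (Φ (star z + z)).im = 0 := by
    intro z
    have h3 := (hp (z + 1)).2
    have h4 : star (z + 1) * (z + 1) = star z * z + (star z + z) + 1 := by
      rw [star_add, star_one]
      noncomm_ring
    rw [h4, map_add, map_add, Complex.add_im, Complex.add_im, (hp z).2, h1'] at h3
    simpa using h3
  have m1 := hx' x
  have m2 := hx' (Complex.I • x)
  rw [star_smul, Complex.star_def, Complex.conj_I, map_add, map_smul, map_smul] at m2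
  rw [map_add] at m1
  simp only [Complex.add_re, Complex.add_im, Complex.mul_re, Complex.mul_im, Complex.star_def,
    Complex.conj_I, Complex.neg_re, Complex.neg_im, Complex.I_re, Complex.I_im, smul_eq_mul,
    map_one, Complex.one_re, Complex.one_im] at l1 l2 m1 m2
  apply Complex.ext
  · rw [Complex.zero_re]
    linarith
  · rw [Complex.zero_im]
    linarith

end TGL

theorem t_GL (hX7 : StX7.{u}) (hX8 : StX8.{u}) : StGL.{u} := by
  intro A _ _ _ hs hf N ρ k y ε hρ hε
  have _ : Nontrivial A := hs.1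
  -- trivial solution
  have triv : (∀ i p q, ρ (y i) p q = 0) → ∃ (D : Fin N → A) (g : A), 0 ≤ g ∧ ‖g‖ = 1 ∧
      ∀ i p q, ‖star (D p) * y i * D q - ρ (y i) p q • g‖ ≤ ε := by
    intro h0
    refine ⟨0, 1, zero_le_one, CStarRing.norm_one, fun i p q => ?_⟩
    rw [h0, zero_smul, Pi.zero_apply, Pi.zero_apply, mul_zero, sub_zero, norm_zero]
    exact hε.le
  rcases Nat.eq_zero_or_pos N with hN | hN
  · subst hN
    exact triv (fun _ p _ => p.elim0)
  set r : ℝ := (TGL.Ps ρ 1).re with hr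
  have hrpos : 0 ≤ r := by
    have := (TGL.Ps_pos ρ hρ 1).1
    rwa [star_one, one_mul] at this
  have him : (TGL.Ps ρ 1).im = 0 := by
    have := (TGL.Ps_pos ρ hρ 1).2
    rwa [star_one, one_mul] at this
  rcases hrpos.eq_or_lt with hr0 | hr0
  · refine triv (fun i p q => ?_)
    rw [← TGL.Ps_E ρ p q (y i)]
    exact TGL.zero_of_one (TGL.Ps ρ) (TGL.Ps_pos ρ hρ) hr0.symm _
  -- the state
  obtain ⟨hs', hf'⟩ := hX8 A hs hf N hN
  have hΨ1 : TGL.Ps ρ 1 = (r : ℂ) := by
    apply Complex.ext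
    · rw [Complex.ofReal_re]
    · rw [Complex.ofReal_im, him]
  have hrc : (r : ℂ) ≠ 0 := by exact_mod_cast hr0.ne'
  have hst : IsSt (((r:ℂ)⁻¹) • TGL.Ps ρ) := by
    refine ⟨?_, fun x => ?_⟩
    · rw [LinearMap.smul_apply, hΨ1, smul_eq_mul, inv_mul_cancel₀ hrc]
    · have h1 := TGL.Ps_pos ρ hρ x
      rw [LinearMap.smul_apply, smul_eq_mul, ← Complex.ofReal_inv, Complex.re_ofReal_mul,
        Complex.im_ofReal_mul, h1.2, mul_zero]
      exact ⟨mul_nonneg (inv_nonneg.mpr hr0.le) h1.1, rfl⟩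
  let e := Fintype.equivFin (Fin k × Fin N × Fin N)
  have hε' : 0 < ε / (r * N + 1) := by positivity
  obtain ⟨H, G, hG, hG1, hHG⟩ := hX7 (MM N A) hs' hf' (((r:ℂ)⁻¹) • TGL.Ps ρ)
    (Fintype.card (Fin k × Fin N × Fin N))
    (fun m => TGL.E (e.symm m).2.1 (e.symm m).2.2 (y (e.symm m).1)) (ε / (r * N + 1)) hst hε'
  have hHG' : ∀ (i : Fin k) (p q κ : Fin N),
      ‖star (H p κ) * y i * H q κ - ((r:ℂ)⁻¹ * ρ (y i) p q) • G κ κ‖ ≤ ε / (r * N + 1) := by
    intro i p q κ
    have h1 := hHG (e (i, p, q))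
    simp only [Equiv.symm_apply_apply] at h1
    rw [LinearMap.smul_apply, TGL.Ps_E, smul_eq_mul] at h1
    refine le_trans ?_ h1
    have h2 := CStarMatrix.norm_entry_le_norm (M := star H * TGL.E p q (y i) * H
      - ((r:ℂ)⁻¹ * ρ (y i) p q) • G) (i := κ) (j := κ)
    rw [CStarMatrix.sub_apply, TGL.conj_E, CStarMatrix.smul_apply] at h2
    exact h2
  -- choose the entry
  have hNpos : (0:ℝ) < N := by exact_mod_cast hN
  obtain ⟨κ, hκ⟩ : ∃ κ : Fin N, 1 / (N:ℝ) ≤ ‖G κ κ‖ := by
    by_contra hcon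
    push Not at hcon
    have h1 := TGL.norm_le_sum G hG
    rw [hG1] at h1
    have h2 : ∑ κ, ‖G κ κ‖ < ∑ _κ : Fin N, 1 / (N:ℝ) := by
      refine Finset.sum_lt_sum_of_nonempty ⟨⟨0, hN⟩, Finset.mem_univ _⟩ (fun κ _ => hcon κ)
    rw [Finset.sum_const, Finset.card_univ, Fintype.card_fin, nsmul_eq_mul,
      mul_one_div_cancel hNpos.ne'] at h2
    linarith
  have hGk : 0 < ‖G κ κ‖ := lt_of_lt_of_le (by positivity) hκ
  set n0 : ℝ := ‖G κ κ‖ with hn0
  set s : ℝ := Real.sqrt (r / n0) with hs0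
  have hss : s * s = r / n0 := Real.mul_self_sqrt (by positivity)
  refine ⟨fun p => s • H p κ, n0⁻¹ • G κ κ, ?_, ?_, ?_⟩
  · exact smul_nonneg (by positivity) (TGL.diag_nonneg G hG κ)
  · rw [norm_smul, Real.norm_eq_abs, abs_of_nonneg (by positivity), ← hn0,
      inv_mul_cancel₀ hGk.ne']
  · intro i p q
    have h1 : star (s • H p κ) * y i * (s • H q κ) - ρ (y i) p q • (n0⁻¹ • G κ κ)
        = (r / n0) • (star (H p κ) * y i * H q κ - ((r:ℂ)⁻¹ * ρ (y i) p q) • G κ κ) := by
      rw [star_smul, star_trivial, smul_mul_assoc, smul_mul_assoc, mul_smul_comm, smul_smul, hss,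
        smul_sub]
      congr 1
      rw [← Complex.coe_smul (r / n0), smul_smul, ← Complex.coe_smul n0⁻¹, smul_smul]
      congr 1
      push_cast
      field_simp
    rw [h1, norm_smul, Real.norm_eq_abs, abs_of_nonneg (by positivity)]
    have h2 : r / n0 ≤ r * N := by
      rw [div_le_iff₀ hGk]
      have h3 : 1 ≤ N * n0 := by
        rw [div_le_iff₀ hNpos] at hκ
        linarith
      nlinarith
    calc r / n0 * ‖star (H p κ) * y i * H q κ - ((r:ℂ)⁻¹ * ρ (y i) p q) • G κ κ‖
        ≤ (r * N) * (ε / (r * N + 1)) := by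
          gcongr
          exact hHG' i p q κ
      _ ≤ ε := by
          rw [mul_div_assoc', div_le_iff₀ (by positivity)]
          nlinarith

end Pool.Agent.H327R4.SI
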