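import Pool.Agent.H327R4.SI.Stubs
import Pool.Agent.H327R4.Pure.TMT

set_option autoImplicit false
set_option linter.unusedSectionVars false

namespace Pool.Agent.H327R4.SI

open Filter Topology Pool.Agent.H327R4.Pure

universe u

namespace LiftAux

section tr

variable {A : Type u} [CStarAlgebra A] [PartialOrder A] [StarOrderedRing A]

lemma tr_mono (T : TS A) {a b : A} (h : a ≤ b) : (T.1.f a).re ≤ (T.1.f b).re :=
  (mt_holds A T.1).1 a b h

lemma tr_one (T : TS A) : (T.1.f 1).re = 1 := by rw [T.2]; simp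

lemma tr_nonneg (T : TS A) {a : A} (h : 0 ≤ a) : 0 ≤ (T.1.f a).re := by
  have := tr_mono T h
  simpa using this

lemma tr_sa (T : TS A) {a : A} (ha : IsSelfAdjoint a) : -‖a‖ ≤ (T.1.f a).re := by
  have h := tr_mono T ha.neg_algebraMap_norm_le_self
  have e1 : (algebraMap ℝ A ‖a‖) = ((‖a‖ : ℝ) : ℂ) • (1 : A) := by
    rw [Algebra.algebraMap_eq_smul_one, Complex.coe_smul]
  rw [map_neg, e1, map_smul, T.2] at h
  simpa using h

lemma tr_ge (T : TS A) (x : A) : -‖x‖ ≤ (T.1.f x).re := by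
  have h1 := realPart_add_I_smul_imaginaryPart x
  have h2 := (mt_holds A T.1).2.2 (imaginaryPart x : A) (imaginaryPart x).2
  have h3 : (T.1.f x).re = (T.1.f (realPart x : A)).re := by
    conv_lhs => rw [← h1]
    rw [map_add, map_smul, Complex.add_re, smul_eq_mul, Complex.mul_re, h2]
    simp
  rw [h3]
  have h4 := tr_sa T (realPart x).2
  have h5 : ‖(realPart x : A)‖ ≤ ‖x‖ := realPart.norm_le x
  linarith

lemma tr_mul_le (T : TS A) {a b : A} (ha : a ≤ 1) (hb : 0 ≤ b) :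
    (T.1.f (a * b)).re ≤ (T.1.f b).re := by
  have hs : CFC.sqrt b * CFC.sqrt b = b := CFC.sqrt_mul_sqrt_self b hb
  have hs0 : 0 ≤ CFC.sqrt b := CFC.sqrt_nonneg b
  have h1 : T.1.f (a * b) = T.1.f (CFC.sqrt b * a * CFC.sqrt b) := by
    conv_lhs => rw [← hs]
    rw [← mul_assoc, T.1.tr, ← mul_assoc]
  rw [h1]
  have h2 := conjugate_le_conjugate_of_nonneg ha hs0
  rw [mul_one, hs] at h2
  exact tr_mono T h2

end tr

section sq

variable {A : Type u} [CStarAlgebra A] [PartialOrder A] [StarOrderedRing A]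

lemma spec_le {x : A} (h0 : 0 ≤ x) (h1 : x ≤ 1) : ∀ t ∈ spectrum ℝ x, 0 ≤ t ∧ t ≤ 1 := by
  intro t ht
  refine ⟨spectrum_nonneg_of_nonneg h0 ht, ?_⟩
  have h := (CFC.le_one_iff (R := ℝ) x (IsSelfAdjoint.of_nonneg h0)).1 h1
  exact h t ht

/-- the square root -/
noncomputable def sqt (x : A) : A := cfc Real.sqrt x

lemma sqt_nonneg (x : A) : 0 ≤ sqt x := cfc_nonneg fun t _ => Real.sqrt_nonneg t

lemma sqt_mul_self {x : A} (h0 : 0 ≤ x) : sqt x * sqt x = x := by
  have hx : IsSelfAdjoint x := IsSelfAdjoint.of_nonneg h0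
  unfold sqt
  rw [← cfc_mul (fun t => Real.sqrt t) (fun t => Real.sqrt t) x]
  have : cfc (fun t : ℝ => Real.sqrt t * Real.sqrt t) x = cfc (id : ℝ → ℝ) x := by
    apply cfc_congr
    intro t ht
    exact Real.mul_self_sqrt (spectrum_nonneg_of_nonneg h0 ht)
  rw [this, cfc_id ℝ x]

lemma sqt_le_one {x : A} (h0 : 0 ≤ x) (h1 : x ≤ 1) : sqt x ≤ 1 := by
  unfold sqt
  apply cfc_le_one
  intro t ht
  exact Real.sqrt_le_one.mpr (spec_le h0 h1 t ht).2

lemma pow_le_pow' {x : A} (h0 : 0 ≤ x) (h1 : x ≤ 1) (K : ℕ) : (x * x) ^ K ≤ x ^ K := by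
  have hx : IsSelfAdjoint x := IsSelfAdjoint.of_nonneg h0
  have e1 : (x * x) ^ K = cfc (fun t : ℝ => t ^ (2 * K)) x := by
    rw [cfc_pow_id x (2 * K), pow_mul, pow_two]
  have e2 : x ^ K = cfc (fun t : ℝ => t ^ K) x := by
    rw [cfc_pow_id x K]
  rw [e1, e2]
  refine cfc_mono ?_ (by fun_prop) (by fun_prop)
  intro t ht
  obtain ⟨ht0, ht1⟩ := spec_le h0 h1 t ht
  exact pow_le_pow_of_le_one ht0 ht1 (by omega)

end sq

section nrm

variable {A : Type u} [NormedRing A]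

lemma n2 {x y : A} {a b : ℝ} (hx : ‖x‖ ≤ a) (hy : ‖y‖ ≤ b) : ‖x * y‖ ≤ a * b :=
  (norm_mul_le _ _).trans (mul_le_mul hx hy (norm_nonneg _) ((norm_nonneg _).trans hx))

lemma n2l {x y : A} {a : ℝ} (hx : ‖x‖ ≤ a) (hy : ‖y‖ ≤ 1) : ‖x * y‖ ≤ a := by
  simpa using n2 hx hy

lemma n2r {x y : A} {a : ℝ} (hx : ‖x‖ ≤ 1) (hy : ‖y‖ ≤ a) : ‖x * y‖ ≤ a := by
  simpa using n2 hx hy

lemma na {x y : A} {a b : ℝ} (hx : ‖x‖ ≤ a) (hy : ‖y‖ ≤ b) : ‖x + y‖ ≤ a + b :=
  (norm_add_le _ _).trans (add_le_add hx hy)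

lemma ns {x y : A} {a b : ℝ} (hx : ‖x‖ ≤ a) (hy : ‖y‖ ≤ b) : ‖x - y‖ ≤ a + b :=
  (norm_sub_le _ _).trans (add_le_add hx hy)

lemma nn {x : A} {a : ℝ} (hx : ‖x‖ ≤ a) : ‖-x‖ ≤ a := by rwa [norm_neg]

end nrm

section core

variable {A : Type u} [CStarAlgebra A] [PartialOrder A] [StarOrderedRing A]

lemma nstar {x : A} {a : ℝ} (hx : ‖x‖ ≤ a) : ‖star x‖ ≤ a := by rwa [norm_star]

/-- the data -/
structure Data (A : Type u) [CStarAlgebra A] [PartialOrder A] [StarOrderedRing A]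
    (η : ℝ) (v q : A) : Prop where
  hv : ‖v‖ ≤ 1
  q0 : 0 ≤ q
  q1 : q ≤ 1
  cv : ‖q * v - v * q‖ ≤ η
  zv : ‖q * (v * v)‖ ≤ η
  zz : ‖q * (1 - star v * v - v * star v)‖ ≤ η

variable {η : ℝ} {v q : A}

lemma Data.nq (D : Data A η v q) : ‖q‖ ≤ 1 :=
  (CStarAlgebra.norm_le_one_iff_of_nonneg q D.q0).2 D.q1

lemma Data.sq (D : Data A η v q) : star q = q := (IsSelfAdjoint.of_nonneg D.q0).star_eq

lemma Data.n2 (D : Data A η v q) : ‖q * v‖ ≤ 1 := n2l D.nq D.hv

lemma Data.cc (D : Data A η v q) : ‖(q * v) * (q * v)‖ ≤ 2 * η := by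
  have e1 : (q * v) * (q * v) = q * (q * (v * v)) - q * (q * v - v * q) * v := by noncomm_ring
  rw [e1, two_mul]
  exact ns (n2r D.nq D.zv) (n2l (n2r D.nq D.cv) D.hv)

lemma Data.w (D : Data A η v q) :
    ‖(q * v) * star (q * v) + star (q * v) * (q * v) - q * q‖ ≤ 5 * η := by
  have hs : ‖star (q * v - v * q)‖ ≤ η := nstar D.cv
  have hsv : ‖star v‖ ≤ 1 := nstar D.hv
  have e1 : (q * v) * star (q * v) + star (q * v) * (q * v) - q * q =
      -(q * (q * (1 - star v * v - v * star v))) - q * (q * v - v * q) * star v +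
        q * v * star (q * v - v * q) + q * star (q * v - v * q) * v +
        star (q * v - v * q) * (q * v) := by
    simp only [star_mul, star_sub, D.sq]
    noncomm_ring
  rw [e1]
  have h := na (na (na (ns (nn (n2r D.nq D.zz))
    (n2l (n2r D.nq D.cv) hsv)) (n2r D.n2 hs)) (n2l (n2r D.nq hs) D.hv)) (n2l hs D.n2)
  linarith

lemma Data.ca (D : Data A η v q) {a : A} (h1 : ‖q * a - a * q‖ ≤ η)
    (h2 : ‖q * (v * a - a * v)‖ ≤ 2 * η) : ‖(q * v) * a - a * (q * v)‖ ≤ 3 * η := by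
  have e1 : (q * v) * a - a * (q * v) = q * (v * a - a * v) + (q * a - a * q) * v := by
    noncomm_ring
  rw [e1]
  have := na h2 (n2l h1 D.hv)
  linarith

lemma Data.ce (D : Data A η v q) {a : A} (h1 : ‖q * a - a * q‖ ≤ η) :
    ‖(1 - q * q) * a - a * (1 - q * q)‖ ≤ 2 * η := by
  have e1 : (1 - q * q) * a - a * (1 - q * q) = -(q * (q * a - a * q)) - (q * a - a * q) * q := by
    noncomm_ring
  rw [e1]
  have := ns (nn (n2r D.nq h1)) (n2l h1 D.nq)
  linarith

lemma Data.ch (D : Data A η v q) {a : A} (h1 : ‖(q * v) * a - a * (q * v)‖ ≤ 3 * η)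
    (h2 : ‖(q * v) * star a - star a * (q * v)‖ ≤ 3 * η) :
    ‖((q * v) * star (q * v)) * a - a * ((q * v) * star (q * v))‖ ≤ 6 * η := by
  have e1 : ((q * v) * star (q * v)) * a - a * ((q * v) * star (q * v)) =
      ((q * v) * a - a * (q * v)) * star (q * v) -
        (q * v) * star ((q * v) * star a - star a * (q * v)) := by
    simp only [star_mul, star_sub, star_star]
    noncomm_ring
  rw [e1]
  have := ns (n2l h1 (nstar D.n2)) (n2r D.n2 (nstar h2))
  linarith

lemma Data.hh (D : Data A η v q) :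
    ‖((q * v) * star (q * v)) * ((q * v) * star (q * v)) - q * q * ((q * v) * star (q * v))‖ ≤
      9 * η := by
  have hc2 := D.n2
  have hc2' := nstar D.n2
  have hcc := D.cc
  have e1 : ((q * v) * star (q * v)) * ((q * v) * star (q * v)) -
      q * q * ((q * v) * star (q * v)) =
      (q * v) * ((q * v) * star (q * v) + star (q * v) * (q * v) - q * q) * star (q * v) -
      ((q * v) * (q * v)) * star ((q * v) * (q * v)) -
      q * (q * (q * v - v * q)) * star (q * v) -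
      q * (q * v - v * q) * (q * star (q * v)) := by
    simp only [star_mul, D.sq]
    noncomm_ring
  rw [e1]
  have h1 : ‖((q * v) * (q * v)) * star ((q * v) * (q * v))‖ ≤ 2 * η :=
    n2l hcc (nstar (n2l hc2 hc2))
  have := ns (ns (ns (n2l (n2r hc2 D.w) hc2') h1)
    (n2l (n2r D.nq (n2r D.nq D.cv)) hc2')) (n2l (n2r D.nq D.cv) (n2l D.nq hc2'))
  linarith

lemma Data.te (D : Data A η v q) (T : TS A) (hT : (T.1.f (1 - q)).re ≤ η) :
    (T.1.f (1 - q * q)).re ≤ 2 * η := by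
  have e1 : 1 - q * q = (1 - q) + (1 - q) - star (1 - q) * (1 - q) := by
    rw [star_sub, star_one, D.sq]; noncomm_ring
  have h1 := tr_nonneg T (star_mul_self_nonneg (1 - q))
  rw [e1, map_sub, map_add, Complex.sub_re, Complex.add_re]
  linarith

lemma pow_norm_le {x : A} (hx : ‖x‖ ≤ 1) (n : ℕ) : ‖x ^ n‖ ≤ 1 := by
  rcases subsingleton_or_nontrivial A with h | h
  · rw [Subsingleton.elim (x ^ n) 0]; simp
  · induction n with
    | zero => simp
    | succ n ih => rw [pow_succ]; exact n2l ih hx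

lemma le_one_of_norm {x : A} (hs : IsSelfAdjoint x) (hx : ‖x‖ ≤ 1) : x ≤ 1 := by
  have h1 := hs.le_algebraMap_norm_self
  have h2 : algebraMap ℝ A ‖x‖ ≤ algebraMap ℝ A 1 := by
    rw [Algebra.algebraMap_eq_smul_one, Algebra.algebraMap_eq_smul_one]
    exact smul_le_smul_of_nonneg_right hx zero_le_one
  rw [map_one] at h2
  exact h1.trans h2

lemma norm_le_one_of {x : A} (hs : IsSelfAdjoint x) (h1 : x ≤ 1) (h2 : -x ≤ 1) : ‖x‖ ≤ 1 := by
  rcases subsingleton_or_nontrivial A with h | h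
  · rw [Subsingleton.elim x 0]; simp
  · rcases CStarAlgebra.norm_or_neg_norm_mem_spectrum hs with h3 | h3
    · exact (CFC.le_one_iff (R := ℝ) x hs).1 h1 _ h3
    · have h4 : ‖x‖ ∈ spectrum ℝ (-x) := by
        rw [← spectrum.neg_eq]
        simpa using h3
      exact (CFC.le_one_iff (R := ℝ) (-x) hs.neg).1 h2 _ h4

lemma Data.th (D : Data A η v q) (T : TS A) (hT : (T.1.f (1 - q)).re ≤ η) :
    1 / 2 - 7 / 2 * η ≤ (T.1.f ((q * v) * star (q * v))).re := by
  have h1 : T.1.f (star (q * v) * (q * v)) = T.1.f ((q * v) * star (q * v)) := T.1.tr _ _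
  have h2 := tr_ge T ((q * v) * star (q * v) + star (q * v) * (q * v) - q * q)
  rw [map_sub, map_add, h1, Complex.sub_re, Complex.add_re] at h2
  have h3 := D.te T hT
  rw [map_sub, Complex.sub_re, tr_one] at h3
  have h4 := D.w
  linarith

lemma Data.tp (D : Data A η v q) (T : TS A) (hT : (T.1.f (1 - q)).re ≤ η) (hη : 0 ≤ η) (n : ℕ) :
    1 / 2 - 7 / 2 * η - 11 * n * η ≤ (T.1.f (((q * v) * star (q * v)) ^ (n + 1))).re := by
  set h := (q * v) * star (q * v) with hh
  have hn : ‖h‖ ≤ 1 := n2l D.n2 (nstar D.n2)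
  have hsa : IsSelfAdjoint h := IsSelfAdjoint.mul_star_self _
  have hq1 : 0 ≤ 1 - q * q := by
    rw [sub_nonneg]
    have : IsSelfAdjoint (q * q) := by
      show star (q * q) = q * q
      rw [star_mul, D.sq]
    exact le_one_of_norm this (n2l D.nq D.nq)
  induction n with
  | zero =>
    have := D.th T hT
    rw [zero_add, pow_one]
    push_cast
    linarith
  | succ n ih =>
    have e1 : h ^ (n + 1 + 1) = h ^ (n + 1) - h ^ n * ((1 - q * q) * h) +
        h ^ n * (h * h - q * q * h) := by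
      rw [pow_succ, pow_succ]; noncomm_ring
    have e2 : T.1.f (h ^ n * ((1 - q * q) * h)) = T.1.f (h ^ (n + 1) * (1 - q * q)) := by
      rw [← mul_assoc, T.1.tr, ← mul_assoc, ← pow_succ']
    have h3 : (T.1.f (h ^ (n + 1) * (1 - q * q))).re ≤ (T.1.f (1 - q * q)).re :=
      tr_mul_le T (le_one_of_norm (hsa.pow _) (pow_norm_le hn _)) hq1
    have h4 := D.te T hT
    have h5 := tr_ge T (h ^ n * (h * h - q * q * h))
    have h6 : ‖h ^ n * (h * h - q * q * h)‖ ≤ 9 * η := n2r (pow_norm_le hn _) D.hh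
    rw [e1, map_add, map_sub, Complex.add_re, Complex.sub_re, e2]
    push_cast
    linarith

end core

end LiftAux

open LiftAux

/-- the core: contractions, closed under the adjoint -/
lemma lift_core (hQC : StQC.{u}) (hF : StFCOM.{u}) {A : Type u} [CStarAlgebra A] [PartialOrder A]
    [StarOrderedRing A] (hU : UM A) (m : ℕ) (a : Fin m → A) (ha : ∀ j, ‖a j‖ ≤ 1)
    (hst : ∀ j, ∃ j', a j' = star (a j)) (K : ℕ) (ε : ℝ) (hε : 0 < ε) :
    ∃ c₁ c₂ e : A, 0 ≤ c₁ ∧ c₁ ≤ 1 ∧ ‖c₂‖ ≤ 1 ∧ 0 ≤ e ∧ e ≤ 1 ∧ ‖c₁ * star c₂‖ ≤ ε ∧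
    ‖c₂ * star c₂ - c₁ * c₁‖ ≤ ε ∧ ‖c₁ * c₁ + star c₂ * c₂ + e - 1‖ ≤ ε ∧
    (∀ j, ‖c₁ * a j - a j * c₁‖ ≤ ε ∧ ‖c₂ * a j - a j * c₂‖ ≤ ε ∧ ‖e * a j - a j * e‖ ≤ ε) ∧
    ∀ T : TS A, (T.1.f e).re ≤ ε ∧ 1 / 4 ≤ (T.1.f (c₁ ^ K)).re := by
  obtain ⟨δs, hδs, hsq⟩ := hF Real.sqrt ε Real.continuous_sqrt.continuousOn hε
  set η : ℝ := min (min (ε / 5) (δs / 6)) (1 / (4 * (11 * K + 4))) with hη
  have hη0 : 0 < η := by rw [hη]; positivity
  have hη1 : 5 * η ≤ ε := by
    have : η ≤ ε / 5 := (min_le_left _ _).trans (min_le_left _ _)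
    linarith
  have hη2 : 6 * η ≤ δs := by
    have : η ≤ δs / 6 := (min_le_left _ _).trans (min_le_right _ _)
    linarith
  have hη3 : (11 * K + 4) * η ≤ 1 / 4 := by
    have h1 : η ≤ 1 / (4 * (11 * K + 4)) := min_le_right _ _
    have h2 : (0 : ℝ) < 4 * (11 * K + 4) := by positivity
    rw [le_div_iff₀ h2] at h1
    linarith
  obtain ⟨δ, hδ, hqc⟩ := hQC (m + 1) (m + 2) η hη0
  obtain ⟨v, hv, hvT⟩ := hU m a δ hδ
  have hvs : ‖star v‖ ≤ 1 := by rwa [norm_star]
  -- the list `z`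
  set z0 : A := 1 - star v * v - v * star v with hz0
  have hz0sa : star z0 = z0 := by
    rw [hz0]; simp only [star_sub, star_one, star_mul, star_star]
  have hz0n : ‖z0‖ ≤ 1 := by
    have h1 : 0 ≤ star v * v := star_mul_self_nonneg v
    have h2 : 0 ≤ v * star v := mul_star_self_nonneg v
    have h3 : star v * v ≤ 1 := (CStarAlgebra.norm_le_one_iff_of_nonneg _ h1).1 (n2l hvs hv)
    have h4 : v * star v ≤ 1 := (CStarAlgebra.norm_le_one_iff_of_nonneg _ h2).1 (n2l hv hvs)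
    refine norm_le_one_of hz0sa ?_ ?_
    · rw [hz0, sub_sub]; exact sub_le_self _ (add_nonneg h1 h2)
    · rw [hz0]
      have : -(1 - star v * v - v * star v) = star v * v + v * star v - 1 := by noncomm_ring
      rw [this, sub_le_iff_le_add]
      exact add_le_add h3 h4
  set z : Fin (m + 2) → A := Fin.cons (v * v) (Fin.cons z0
    (fun j => (1 / 2 : ℂ) • (v * a j - a j * v))) with hz
  set x : Fin (m + 1) → A := Fin.cons v a with hx
  obtain ⟨e0, he0, he1, hcx, hcz, hTe⟩ := hqc A x z (by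
    intro i
    refine Fin.cases ?_ (fun j => ?_) i
    · simpa [hx] using hv
    · simpa [hx] using ha j) (by
    intro i
    refine Fin.cases ?_ (fun j => Fin.cases ?_ (fun j => ?_) j) i
    · simp only [hz, Fin.cons_zero]; exact n2l hv hv
    · simp only [hz, Fin.cons_succ, Fin.cons_zero]; exact hz0n
    · simp only [hz, Fin.cons_succ]
      rw [norm_smul]
      have := ns (n2l hv (ha j)) (n2l (ha j) hv)
      have e1 : ‖(1 / 2 : ℂ)‖ = 1 / 2 := by simp
      rw [e1]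
      linarith) (by
    intro T i
    refine Fin.cases ?_ (fun j => Fin.cases ?_ (fun j => ?_) j) i
    · simp only [hz, Fin.cons_zero]
      rw [T.1.tr]
      exact (hvT T).2.1
    · simp only [hz, Fin.cons_succ, Fin.cons_zero]
      rw [hz0sa]
      exact (hvT T).2.2
    · simp only [hz, Fin.cons_succ]
      have e1 : ((1 / 2 : ℂ) • (v * a j - a j * v)) * star ((1 / 2 : ℂ) • (v * a j - a j * v)) =
          (1 / 4 : ℂ) • ((v * a j - a j * v) * star (v * a j - a j * v)) := by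
        rw [star_smul, smul_mul_smul_comm]
        congr 1
        simp
        norm_num
      rw [e1, map_smul, T.1.tr]
      have h1 := (hvT T).1 j
      have h2 : (((1 / 4 : ℂ)) • T.1.f (star (v * a j - a j * v) * (v * a j - a j * v))).re =
          1 / 4 * (T.1.f (star (v * a j - a j * v) * (v * a j - a j * v))).re := by
        have e2 : (1 / 4 : ℂ) = ((1 / 4 : ℝ) : ℂ) := by push_cast; ring
        rw [e2, smul_eq_mul, Complex.re_ofReal_mul]
      rw [h2]
      linarith)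
  set q : A := 1 - e0 with hq
  have hqx : ∀ y : A, q * y - y * q = -(e0 * y - y * e0) := by
    intro y; rw [hq]; noncomm_ring
  have hqy : ∀ y : A, q * y = y - e0 * y := by
    intro y; rw [hq]; noncomm_ring
  have D : Data A η v q := by
    refine ⟨hv, ?_, ?_, ?_, ?_, ?_⟩
    · rw [hq]; exact sub_nonneg.2 he1
    · rw [hq]; exact sub_le_self _ he0
    · rw [hqx]
      have := hcx 0
      simp only [hx, Fin.cons_zero] at this
      exact nn this
    · rw [hqy]
      have := (hcz 0).1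
      simp only [hz, Fin.cons_zero] at this
      exact this
    · rw [hqy]
      have := (hcz (Fin.succ 0)).1
      simp only [hz, Fin.cons_succ, Fin.cons_zero] at this
      exact this
  have hca : ∀ j, ‖q * a j - a j * q‖ ≤ η := by
    intro j
    rw [hqx]
    have := hcx j.succ
    simp only [hx, Fin.cons_succ] at this
    exact nn this
  have hcva : ∀ j, ‖q * (v * a j - a j * v)‖ ≤ 2 * η := by
    intro j
    have := (hcz j.succ.succ).1
    simp only [hz, Fin.cons_succ] at this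
    rw [mul_smul_comm, ← smul_sub, ← hqy, norm_smul] at this
    have e1 : ‖(1 / 2 : ℂ)‖ = 1 / 2 := by simp
    rw [e1] at this
    linarith
  have hT' : ∀ T : TS A, (T.1.f (1 - q)).re ≤ η := by
    intro T
    rw [hq, sub_sub_cancel]
    exact hTe T
  have hc2a : ∀ j, ‖(q * v) * a j - a j * (q * v)‖ ≤ 3 * η := fun j => D.ca (hca j) (hcva j)
  set h : A := (q * v) * star (q * v) with hh
  have hh0 : 0 ≤ h := mul_star_self_nonneg _
  have hhn : ‖h‖ ≤ 1 := n2l D.n2 (nstar D.n2)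
  have hh1 : h ≤ 1 := (CStarAlgebra.norm_le_one_iff_of_nonneg _ hh0).1 hhn
  have hcc : sqt h * sqt h = h := sqt_mul_self hh0
  have hsqsa : star (sqt h) = sqt h := (IsSelfAdjoint.of_nonneg (sqt_nonneg h)).star_eq
  have hqq0 : 0 ≤ q * q := by
    have := star_mul_self_nonneg q
    rwa [D.sq] at this
  refine ⟨sqt h, q * v, 1 - q * q, sqt_nonneg h, sqt_le_one hh0 hh1, D.n2, ?_, ?_, ?_, ?_, ?_, ?_, ?_⟩
  · exact sub_nonneg.2 ((CStarAlgebra.norm_le_one_iff_of_nonneg _ hqq0).1 (n2l D.nq D.nq))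
  · exact sub_le_self _ hqq0
  · have h1 : ‖sqt h * star (q * v)‖ * ‖sqt h * star (q * v)‖ = ‖(q * v) * (q * v)‖ * ‖(q * v) * (q * v)‖ := by
      rw [← CStarRing.norm_star_mul_self, ← CStarRing.norm_self_mul_star]
      congr 1
      rw [star_mul, star_star, hsqsa, mul_assoc (q * v), ← mul_assoc (sqt h) (sqt h), hcc, hh,
        star_mul (q * v) (q * v)]
      noncomm_ring
    have h2 : ‖sqt h * star (q * v)‖ = ‖(q * v) * (q * v)‖ :=
      (mul_self_inj (norm_nonneg _) (norm_nonneg _)).1 h1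
    rw [h2]
    linarith [D.cc]
  · rw [hcc, hh, sub_self, norm_zero]; exact hε.le
  · have e1 : sqt h * sqt h + star (q * v) * (q * v) + (1 - q * q) - 1 =
        (q * v) * star (q * v) + star (q * v) * (q * v) - q * q := by
      rw [hcc, hh]; abel
    rw [e1]
    exact D.w.trans hη1
  · intro j
    refine ⟨?_, (hc2a j).trans (by linarith), (D.ce (hca j)).trans (by linarith)⟩
    obtain ⟨j', hj'⟩ := hst j
    have h1 := hc2a j'
    rw [hj'] at h1
    exact hsq A h (a j) hh0 hh1 (ha j) ((D.ch (hc2a j) h1).trans hη2)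
  · intro T
    refine ⟨(D.te T (hT' T)).trans (by linarith), ?_⟩
    refine le_trans ?_ (tr_mono T (pow_le_pow' (sqt_nonneg h) (sqt_le_one hh0 hh1) K))
    rw [hcc]
    rcases Nat.eq_zero_or_pos K with hK | hK
    · subst hK
      rw [pow_zero, tr_one]; norm_num
    · obtain ⟨n, rfl⟩ : ∃ n, K = n + 1 := ⟨K - 1, by omega⟩
      have h1 := D.tp T (hT' T) hη0.le n
      rw [← hh] at h1
      push_cast at hη3
      nlinarith

theorem t_LIFT (hQC : StQC.{u}) (hF : StFCOM.{u}) : StLIFT.{u} := by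
  intro A _ _ _ hU m a K ε hε
  set M : ℝ := 1 + ∑ j, ‖a j‖ with hM
  have hM1 : 1 ≤ M := by
    rw [hM]
    have : 0 ≤ ∑ j, ‖a j‖ := Finset.sum_nonneg fun _ _ => norm_nonneg _
    linarith
  have hM0 : 0 < M := by linarith
  have haM : ∀ j, ‖a j‖ ≤ M := by
    intro j
    have := Finset.single_le_sum (f := fun j => ‖a j‖) (fun _ _ => norm_nonneg _) (Finset.mem_univ j)
    linarith
  set b : Fin m → A := fun j => ((M⁻¹ : ℝ) : ℂ) • a j with hb
  have hcn : ‖((M⁻¹ : ℝ) : ℂ)‖ = M⁻¹ := by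
    rw [Complex.norm_real, Real.norm_eq_abs, abs_of_pos (inv_pos.2 hM0)]
  have hbn : ∀ j, ‖b j‖ ≤ 1 := by
    intro j
    simp only [hb]
    rw [norm_smul, hcn, inv_mul_le_iff₀ hM0, mul_one]
    exact haM j
  have key : ∀ (c : A) (j : Fin m), ‖c * b j - b j * c‖ ≤ ε / M → ‖c * a j - a j * c‖ ≤ ε := by
    intro c j h
    simp only [hb] at h
    rw [mul_smul_comm, smul_mul_assoc, ← smul_sub, norm_smul, hcn, inv_mul_eq_div,
      div_le_div_iff_of_pos_right hM0] at h
    exact h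
  have hεM : ε / M ≤ ε := div_le_self hε.le hM1
  obtain ⟨c₁, c₂, e, h1, h2, h3, h4, h5, h6, h7, h8, h9, h10⟩ :=
    lift_core hQC hF hU (m + m) (Fin.append b (fun j => star (b j)))
      (by
        intro j
        refine Fin.addCases (fun i => ?_) (fun i => ?_) j
        · rw [Fin.append_left]; exact hbn i
        · rw [Fin.append_right, norm_star]; exact hbn i)
      (by
        intro j
        refine Fin.addCases (fun i => ?_) (fun i => ?_) j
        · exact ⟨Fin.natAdd m i, by rw [Fin.append_left, Fin.append_right]⟩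
        · exact ⟨Fin.castAdd m i, by rw [Fin.append_left, Fin.append_right, star_star]⟩)
      K (ε / M) (by positivity)
  refine ⟨c₁, c₂, e, h1, h2, h3, h4, h5, h6.trans hεM, h7.trans hεM, h8.trans hεM, ?_, ?_⟩
  · intro j
    have := h9 (Fin.castAdd m j)
    rw [Fin.append_left] at this
    exact ⟨key _ _ this.1, key _ _ this.2.1, key _ _ this.2.2⟩
  · intro T
    exact ⟨(h10 T).1.trans hεM, (h10 T).2⟩

end Pool.Agent.H327R4.SI
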