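import Pool.Agent.H327R4.SI.Stubs

/-!
# Property (SI) from nuclearity and strict comparison
-/

set_option autoImplicit false

namespace Pool.Agent.H327R4.SI

open Filter Topology Pool.Agent.H327R4.Pure

universe u

theorem SI_cut {A : Type u} [CStarAlgebra A] [PartialOrder A] [StarOrderedRing A] (e : A)
    (he : 0 ≤ e) (ε : ℝ) (hε : 0 ≤ ε) : ‖cut ε e - e‖ ≤ ε := by
  have hsa : IsSelfAdjoint e := IsSelfAdjoint.of_nonneg he
  have h1 : e = cfcₙ (fun x : ℝ => x) e := (cfcₙ_id' ℝ e).symm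
  have h2 : cut ε e - e = cfcₙ (fun x : ℝ => max (x - ε) 0 - x) e := by
    conv_lhs => rw [h1]
    unfold cut
    rw [← h1]
    rw [cfcₙ_sub (fun x : ℝ => max (x - ε) 0) (fun x : ℝ => x) e (by fun_prop)
      (by simp [hε]) (by fun_prop) rfl]
    rw [cfcₙ_id' ℝ e]
  rw [h2]
  apply norm_cfcₙ_le
  intro x hx
  have hx0 : 0 ≤ x := quasispectrum_nonneg_of_nonneg e he x hx
  rw [Real.norm_eq_abs, abs_le]
  constructor
  · have := le_max_left (x - ε) 0
    linarith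
  · rcases le_total (x - ε) 0 with h | h
    · rw [max_eq_right h]
      linarith
    · rw [max_eq_left h]
      linarith

section alg

variable {A : Type u} [CStarAlgebra A]

/-- the elements `s` -/
def SI_s {N L : ℕ} (D : Fin N → A) (r : Fin L → A) (c : Fin L → Fin N → A) : A :=
  ∑ x : Fin L × Fin N, D x.2 * r x.1 * c x.1 x.2

theorem SI_expand {N L : ℕ} (D : Fin N → A) (r r' : Fin L → A) (c : Fin L → Fin N → A) (z : A) :
    star (SI_s D r c) * z * SI_s D r' c = ∑ x : Fin L × Fin N, ∑ y : Fin L × Fin N,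
      star (c x.1 x.2) * star (r x.1) * (star (D x.2) * z * D y.2) * r' y.1 * c y.1 y.2 := by
  unfold SI_s
  rw [star_sum, Finset.sum_mul, Finset.sum_mul]
  apply Finset.sum_congr rfl
  intro x _
  rw [Finset.mul_sum]
  apply Finset.sum_congr rfl
  intro y _
  simp only [star_mul, mul_assoc]

theorem SI_step1 {N L : ℕ} (D : Fin N → A) (r r' : Fin L → A) (c : Fin L → Fin N → A) (z g : A)
    (ρ : Fin N → Fin N → ℂ) (ε : ℝ) (hε : 0 ≤ ε) (hr : ∀ l, ‖r l‖ ≤ 2) (hr' : ∀ l, ‖r' l‖ ≤ 2)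
    (h : ∀ p q, ‖star (D p) * z * D q - ρ p q • g‖ ≤ ε) :
    ‖star (SI_s D r c) * z * SI_s D r' c - ∑ x : Fin L × Fin N, ∑ y : Fin L × Fin N,
      ρ x.2 y.2 • (star (c x.1 x.2) * (star (r x.1) * g * r' y.1) * c y.1 y.2)‖ ≤
      4 * ε * (∑ x : Fin L × Fin N, ‖c x.1 x.2‖) ^ 2 := by
  rw [SI_expand, ← Finset.sum_sub_distrib]
  have hsq : 4 * ε * (∑ x : Fin L × Fin N, ‖c x.1 x.2‖) ^ 2 =
      ∑ x : Fin L × Fin N, ∑ y : Fin L × Fin N, ‖c x.1 x.2‖ * 2 * ε * 2 * ‖c y.1 y.2‖ := by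
    rw [pow_two, Finset.sum_mul_sum, Finset.mul_sum]
    apply Finset.sum_congr rfl
    intro x _
    rw [Finset.mul_sum]
    apply Finset.sum_congr rfl
    intro y _
    ring
  rw [hsq]
  refine (norm_sum_le _ _).trans (Finset.sum_le_sum fun x _ => ?_)
  rw [← Finset.sum_sub_distrib]
  refine (norm_sum_le _ _).trans (Finset.sum_le_sum fun y _ => ?_)
  have he : star (c x.1 x.2) * star (r x.1) * (star (D x.2) * z * D y.2) * r' y.1 * c y.1 y.2 -
      ρ x.2 y.2 • (star (c x.1 x.2) * (star (r x.1) * g * r' y.1) * c y.1 y.2) =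
      star (c x.1 x.2) * star (r x.1) * (star (D x.2) * z * D y.2 - ρ x.2 y.2 • g) * r' y.1 *
        c y.1 y.2 := by
    simp only [mul_sub, sub_mul, mul_smul_comm, smul_mul_assoc, mul_assoc]
  rw [he]
  calc ‖star (c x.1 x.2) * star (r x.1) * (star (D x.2) * z * D y.2 - ρ x.2 y.2 • g) * r' y.1 *
        c y.1 y.2‖
      ≤ ‖star (c x.1 x.2)‖ * ‖star (r x.1)‖ * ‖star (D x.2) * z * D y.2 - ρ x.2 y.2 • g‖ *
          ‖r' y.1‖ * ‖c y.1 y.2‖ := by
        refine (norm_mul_le _ _).trans (mul_le_mul_of_nonneg_right ?_ (norm_nonneg _))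
        refine (norm_mul_le _ _).trans (mul_le_mul_of_nonneg_right ?_ (norm_nonneg _))
        refine (norm_mul_le _ _).trans (mul_le_mul_of_nonneg_right ?_ (norm_nonneg _))
        exact norm_mul_le _ _
    _ ≤ ‖c x.1 x.2‖ * 2 * ε * 2 * ‖c y.1 y.2‖ := by
        rw [norm_star, norm_star]
        gcongr
        · exact hr _
        · exact h _ _
        · exact hr' _

theorem SI_step2 {N L : ℕ} (r r' : Fin L → A) (c : Fin L → Fin N → A) (g k : A)
    (ρ : Fin N → Fin N → ℂ) (P : Prop) [Decidable P]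
    (h : ∀ l l', star (r l) * g * r' l' = if P ∧ l = l' then k else 0) :
    ∑ x : Fin L × Fin N, ∑ y : Fin L × Fin N,
      ρ x.2 y.2 • (star (c x.1 x.2) * (star (r x.1) * g * r' y.1) * c y.1 y.2) =
    if P then ∑ l, ∑ p, ∑ q, ρ p q • (star (c l p) * k * c l q) else 0 := by
  simp only [h, Fintype.sum_prod_type]
  by_cases hP : P
  · simp only [hP, true_and, if_true]
    apply Finset.sum_congr rfl
    intro l _
    apply Finset.sum_congr rfl
    intro p _
    rw [Finset.sum_eq_single l]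
    · apply Finset.sum_congr rfl
      intro q _
      rw [if_pos rfl]
    · intro l' _ hl
      apply Finset.sum_eq_zero
      intro q _
      rw [if_neg (Ne.symm hl), mul_zero, zero_mul, smul_zero]
    · intro hl
      exact absurd (Finset.mem_univ l) hl
  · simp only [hP, false_and, if_false, mul_zero, zero_mul, smul_zero, Finset.sum_const_zero]

theorem SI_step3 {N L : ℕ} (c : Fin L → Fin N → A) (k e : A) (ρ : Fin N → Fin N → ℂ)
    (ε δ : ℝ) (hk : ‖k - e‖ ≤ ε) (he : ∀ l p, ‖e * c l p - c l p * e‖ ≤ δ) (hδ : 0 ≤ δ) :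
    ‖∑ l, ∑ p, ∑ q, ρ p q • (star (c l p) * k * c l q) -
      (∑ l, ∑ p, ∑ q, ρ p q • (star (c l p) * c l q)) * e‖ ≤
    ε * (∑ l, ∑ p, ∑ q, ‖ρ p q‖ * ‖c l p‖ * ‖c l q‖) +
      δ * (∑ l, ∑ p, ∑ q : Fin N, ‖ρ p q‖ * ‖c l p‖) := by
  simp only [Finset.sum_mul, Finset.mul_sum, ← Finset.sum_sub_distrib, ← Finset.sum_add_distrib]
  refine (norm_sum_le _ _).trans (Finset.sum_le_sum fun l _ => ?_)
  refine (norm_sum_le _ _).trans (Finset.sum_le_sum fun p _ => ?_)
  refine (norm_sum_le _ _).trans (Finset.sum_le_sum fun q _ => ?_)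
  have h1 : ρ p q • (star (c l p) * k * c l q) - ρ p q • (star (c l p) * c l q) * e =
      ρ p q • (star (c l p) * ((k - e) * c l q + (e * c l q - c l q * e))) := by
    rw [smul_mul_assoc, ← smul_sub]
    congr 1
    simp only [mul_add, mul_sub, sub_mul, mul_assoc]
    abel
  rw [h1, norm_smul]
  have hε : 0 ≤ ε := (norm_nonneg _).trans hk
  calc ‖ρ p q‖ * ‖star (c l p) * ((k - e) * c l q + (e * c l q - c l q * e))‖
      ≤ ‖ρ p q‖ * (‖c l p‖ * (ε * ‖c l q‖ + δ)) := by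
        gcongr
        refine (norm_mul_le _ _).trans ?_
        rw [norm_star]
        gcongr
        refine (norm_add_le _ _).trans ?_
        gcongr
        · refine (norm_mul_le _ _).trans ?_
          gcongr
        · exact he l q
    _ = ε * (‖ρ p q‖ * ‖c l p‖ * ‖c l q‖) + δ * (‖ρ p q‖ * ‖c l p‖) := by ring

theorem SI_f {N L : ℕ} (D : Fin N → A) (r : Fin L → A) (c : Fin L → Fin N → A) (f : A)
    (ε δ : ℝ) (hε : 0 ≤ ε) (hδ : 0 ≤ δ) (hr : ∀ l, ‖r l‖ ≤ 2) (hf : ∀ l, ‖f * r l - r l‖ ≤ ε)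
    (hD : ∀ p, ‖f * D p - D p * f‖ ≤ δ) :
    ‖f * SI_s D r c - SI_s D r c‖ ≤
      ε * (∑ x : Fin L × Fin N, ‖D x.2‖ * ‖c x.1 x.2‖) +
      δ * (2 * ∑ x : Fin L × Fin N, ‖c x.1 x.2‖) := by
  unfold SI_s
  simp only [Finset.mul_sum, ← Finset.sum_sub_distrib, ← Finset.sum_add_distrib]
  refine (norm_sum_le _ _).trans (Finset.sum_le_sum fun x _ => ?_)
  have h1 : f * (D x.2 * r x.1 * c x.1 x.2) - D x.2 * r x.1 * c x.1 x.2 =
      D x.2 * (f * r x.1 - r x.1) * c x.1 x.2 + (f * D x.2 - D x.2 * f) * r x.1 * c x.1 x.2 := by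
    simp only [mul_sub, sub_mul, mul_assoc]
    abel
  rw [h1]
  refine (norm_add_le _ _).trans (add_le_add ?_ ?_)
  · calc ‖D x.2 * (f * r x.1 - r x.1) * c x.1 x.2‖
        ≤ ‖D x.2‖ * ‖f * r x.1 - r x.1‖ * ‖c x.1 x.2‖ := by
          refine (norm_mul_le _ _).trans (mul_le_mul_of_nonneg_right ?_ (norm_nonneg _))
          exact norm_mul_le _ _
      _ ≤ ‖D x.2‖ * ε * ‖c x.1 x.2‖ := by
          gcongr
          exact hf _
      _ = ε * (‖D x.2‖ * ‖c x.1 x.2‖) := by ring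
  · calc ‖(f * D x.2 - D x.2 * f) * r x.1 * c x.1 x.2‖
        ≤ ‖f * D x.2 - D x.2 * f‖ * ‖r x.1‖ * ‖c x.1 x.2‖ := by
          refine (norm_mul_le _ _).trans (mul_le_mul_of_nonneg_right ?_ (norm_nonneg _))
          exact norm_mul_le _ _
      _ ≤ δ * 2 * ‖c x.1 x.2‖ := by
          gcongr
          · exact hD _
          · exact hr _
      _ = δ * (2 * ‖c x.1 x.2‖) := by ring

/-- the commutator -/
theorem SI_comm (s a e : A) (η : ℝ) (h1 : ‖star s * 1 * s - 1 * e‖ ≤ η)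
    (h2 : ‖star s * a * s - a * e‖ ≤ η) (h3 : ‖star s * star a * s - star a * e‖ ≤ η)
    (h4 : ‖star s * (star a * a) * s - star a * a * e‖ ≤ η) :
    ‖s * a - a * s‖ ^ 2 ≤ η * (1 + ‖a‖) ^ 2 := by
  have hη : 0 ≤ η := (norm_nonneg _).trans h1
  rw [pow_two, ← CStarRing.norm_star_mul_self]
  have key : star (s * a - a * s) * (s * a - a * s) =
      star a * (star s * 1 * s - 1 * e) * a - star a * (star s * a * s - a * e) -
        (star s * star a * s - star a * e) * a + (star s * (star a * a) * s - star a * a * e) := by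
    simp only [star_sub, star_mul, mul_sub, sub_mul, mul_one, one_mul, mul_assoc]
    abel
  rw [key]
  have e1 : ‖star a * (star s * 1 * s - 1 * e) * a‖ ≤ ‖a‖ * η * ‖a‖ := by
    refine (norm_mul_le _ _).trans (mul_le_mul_of_nonneg_right ?_ (norm_nonneg _))
    refine (norm_mul_le _ _).trans ?_
    rw [norm_star]
    gcongr
  have e2 : ‖star a * (star s * a * s - a * e)‖ ≤ ‖a‖ * η := by
    refine (norm_mul_le _ _).trans ?_
    rw [norm_star]
    gcongr
  have e3 : ‖(star s * star a * s - star a * e) * a‖ ≤ η * ‖a‖ := by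
    refine (norm_mul_le _ _).trans ?_
    gcongr
  calc ‖star a * (star s * 1 * s - 1 * e) * a - star a * (star s * a * s - a * e) -
        (star s * star a * s - star a * e) * a + (star s * (star a * a) * s - star a * a * e)‖
      ≤ ‖star a * (star s * 1 * s - 1 * e) * a - star a * (star s * a * s - a * e) -
        (star s * star a * s - star a * e) * a‖ + ‖star s * (star a * a) * s - star a * a * e‖ :=
          norm_add_le _ _
    _ ≤ (‖star a * (star s * 1 * s - 1 * e) * a - star a * (star s * a * s - a * e)‖ +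
        ‖(star s * star a * s - star a * e) * a‖) +
          ‖star s * (star a * a) * s - star a * a * e‖ := by
          gcongr
          exact norm_sub_le _ _
    _ ≤ ((‖star a * (star s * 1 * s - 1 * e) * a‖ + ‖star a * (star s * a * s - a * e)‖) +
        ‖(star s * star a * s - star a * e) * a‖) +
          ‖star s * (star a * a) * s - star a * a * e‖ := by
          gcongr
          exact norm_sub_le _ _
    _ ≤ ((‖a‖ * η * ‖a‖ + ‖a‖ * η) + η * ‖a‖) + η := by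
          gcongr
    _ = η * (1 + ‖a‖) ^ 2 := by ring

end alg

theorem t_SI (hGL : StGL.{u}) (hSIR : StSIR.{u}) : StSI.{u} := by
  intro A _ _ _ hs hfd hsc hcpf m a R ε hε
  classical
  -- the finite set
  obtain ⟨zl, hzl⟩ : ∃ zl : List A, zl = 1 :: (List.ofFn a ++ List.ofFn (fun j => star (a j)) ++
    List.ofFn (fun j => star (a j) * a j)) := ⟨_, rfl⟩
  have hz1 : (1 : A) ∈ zl := by rw [hzl]; exact List.mem_cons_self
  have hza : ∀ j, a j ∈ zl := by
    intro j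
    rw [hzl]
    apply List.mem_cons_of_mem
    rw [List.mem_append, List.mem_append]
    left; left
    rw [List.mem_ofFn]
    exact ⟨j, rfl⟩
  have hzs : ∀ j, star (a j) ∈ zl := by
    intro j
    rw [hzl]
    apply List.mem_cons_of_mem
    rw [List.mem_append, List.mem_append]
    left; right
    rw [List.mem_ofFn]
    exact ⟨j, rfl⟩
  have hzq : ∀ j, star (a j) * a j ∈ zl := by
    intro j
    rw [hzl]
    apply List.mem_cons_of_mem
    rw [List.mem_append]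
    right
    rw [List.mem_ofFn]
    exact ⟨j, rfl⟩
  -- constants
  obtain ⟨Am, hAm⟩ : ∃ Am : ℝ, Am = ∑ j, ‖a j‖ := ⟨_, rfl⟩
  have hAm0 : 0 ≤ Am := by rw [hAm]; exact Finset.sum_nonneg fun j _ => norm_nonneg _
  have haAm : ∀ j, ‖a j‖ ≤ Am := by
    intro j
    rw [hAm]
    exact Finset.single_le_sum (f := fun j => ‖a j‖) (fun j _ => norm_nonneg _) (Finset.mem_univ j)
  obtain ⟨η, hη⟩ : ∃ η : ℝ, η = min ε (ε ^ 2 / (1 + Am) ^ 2) := ⟨_, rfl⟩
  have hη0 : 0 < η := by rw [hη]; exact lt_min hε (by positivity)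
  have hηε : η ≤ ε := by rw [hη]; exact min_le_left _ _
  have hηε2 : η * (1 + Am) ^ 2 ≤ ε ^ 2 := by
    have : η ≤ ε ^ 2 / (1 + Am) ^ 2 := by rw [hη]; exact min_le_right _ _
    rwa [le_div_iff₀ (by positivity)] at this
  obtain ⟨N, L, ρ, c, hρ, hρc⟩ := hcpf zl.length zl.get (η / 4) (by positivity)
  obtain ⟨S, hS⟩ : ∃ S : ℝ, S = ∑ x : Fin L × Fin N, ‖c x.1 x.2‖ := ⟨_, rfl⟩
  have hS0 : 0 ≤ S := by rw [hS]; exact Finset.sum_nonneg fun j _ => norm_nonneg _
  obtain ⟨ε₂, hε₂⟩ : ∃ ε₂ : ℝ, ε₂ = η / (4 * (4 * S ^ 2 + 1)) := ⟨_, rfl⟩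
  have hε₂0 : 0 < ε₂ := by rw [hε₂]; positivity
  obtain ⟨D, g, hg0, hg1, hD⟩ := hGL A hs hfd N ρ zl.length zl.get ε₂ hρ hε₂0
  -- more constants
  obtain ⟨P, hP⟩ : ∃ P : ℝ, P = ∑ i : Fin zl.length,
    ∑ l, ∑ p, ∑ q, ‖ρ (zl.get i) p q‖ * ‖c l p‖ * ‖c l q‖ := ⟨_, rfl⟩
  obtain ⟨P', hP'⟩ : ∃ P' : ℝ, P' = ∑ i : Fin zl.length,
    ∑ l, ∑ p, ∑ q : Fin N, ‖ρ (zl.get i) p q‖ * ‖c l p‖ := ⟨_, rfl⟩
  have hP0 : 0 ≤ P := by rw [hP]; positivity
  have hP'0 : 0 ≤ P' := by rw [hP']; positivity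
  have hPi : ∀ i : Fin zl.length, ∑ l, ∑ p, ∑ q, ‖ρ (zl.get i) p q‖ * ‖c l p‖ * ‖c l q‖ ≤ P := by
    intro i
    rw [hP]
    exact Finset.single_le_sum (f := fun i : Fin zl.length =>
      ∑ l, ∑ p, ∑ q, ‖ρ (zl.get i) p q‖ * ‖c l p‖ * ‖c l q‖)
      (fun j _ => by positivity) (Finset.mem_univ i)
  have hP'i : ∀ i : Fin zl.length, ∑ l, ∑ p, ∑ q : Fin N, ‖ρ (zl.get i) p q‖ * ‖c l p‖ ≤ P' := by
    intro i
    rw [hP']
    exact Finset.single_le_sum (f := fun i : Fin zl.length =>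
      ∑ l, ∑ p, ∑ q : Fin N, ‖ρ (zl.get i) p q‖ * ‖c l p‖)
      (fun j _ => by positivity) (Finset.mem_univ i)
  obtain ⟨Q, hQ⟩ : ∃ Q : ℝ, Q = ∑ x : Fin L × Fin N, ‖D x.2‖ * ‖c x.1 x.2‖ := ⟨_, rfl⟩
  have hQ0 : 0 ≤ Q := by rw [hQ]; positivity
  obtain ⟨ε₃, hε₃⟩ : ∃ ε₃ : ℝ, ε₃ = min (η / (4 * (P + 1))) (ε / (2 * (Q + 1))) := ⟨_, rfl⟩
  have hε₃0 : 0 < ε₃ := by rw [hε₃]; exact lt_min (by positivity) (by positivity)
  obtain ⟨k₀, y₀, K, δ₁, hδ₁, hrow⟩ := hSIR A hs hsc g (R * L) ε₃ hg0 hg1 hε₃0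
  obtain ⟨yl, hyl⟩ : ∃ yl : List A, yl = List.ofFn y₀ ++ List.ofFn D ++
    List.ofFn (fun x : Fin (L * N) => c (finProdFinEquiv.symm x).1 (finProdFinEquiv.symm x).2) :=
    ⟨_, rfl⟩
  obtain ⟨δ, hδ⟩ : ∃ δ : ℝ, δ = min δ₁ (min (η / (4 * (P' + 1))) (ε / (2 * (2 * S + 1)))) :=
    ⟨_, rfl⟩
  have hδ0 : 0 < δ := by rw [hδ]; exact lt_min hδ₁ (lt_min (by positivity) (by positivity))
  have hδ1 : δ ≤ δ₁ := by rw [hδ]; exact min_le_left _ _
  have hδ2 : δ ≤ η / (4 * (P' + 1)) := by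
    rw [hδ]; exact (min_le_right _ _).trans (min_le_left _ _)
  have hδ3 : δ ≤ ε / (2 * (2 * S + 1)) := by
    rw [hδ]; exact (min_le_right _ _).trans (min_le_right _ _)
  refine ⟨yl.length, yl.get, K, δ, hδ0, ?_⟩
  intro e f he0 he1 hf0 hf1 hcomm hfK hT
  rcases Nat.eq_zero_or_pos R with hR | hR
  · subst hR
    exact ⟨fun i => i.elim0, fun i => i.elim0, fun i => i.elim0, fun i => i.elim0⟩
  have hmem : ∀ y ∈ yl, ‖e * y - y * e‖ ≤ δ ∧ ‖f * y - y * f‖ ≤ δ := by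
    intro y hy
    obtain ⟨j, rfl⟩ := List.mem_iff_get.1 hy
    exact hcomm j
  have hfy : ∀ j, ‖f * y₀ j - y₀ j * f‖ ≤ δ₁ := by
    intro j
    refine (hmem (y₀ j) ?_).2.trans hδ1
    rw [hyl, List.mem_append, List.mem_append]
    left; left
    rw [List.mem_ofFn]
    exact ⟨j, rfl⟩
  have hfD : ∀ p, ‖f * D p - D p * f‖ ≤ δ := by
    intro p
    refine (hmem (D p) ?_).2
    rw [hyl, List.mem_append, List.mem_append]
    left; right
    rw [List.mem_ofFn]
    exact ⟨p, rfl⟩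
  have hec : ∀ l p, ‖e * c l p - c l p * e‖ ≤ δ := by
    intro l p
    refine (hmem (c l p) ?_).1
    rw [hyl, List.mem_append]
    right
    rw [List.mem_ofFn]
    refine ⟨finProdFinEquiv (l, p), ?_⟩
    rw [Equiv.symm_apply_apply]
  have hTe : ∀ T : TS A, (T.1.f e).re ≤ δ₁ ∧ 1 / 4 ≤ (T.1.f (f ^ K)).re := by
    intro T
    refine ⟨?_, (hT T).2⟩
    by_contra h
    push Not at h
    have h1 := (hT T).1
    have h2 : (1 : ℝ) ≤ R := by exact_mod_cast hR
    have h3 : 0 < (T.1.f e).re := hδ₁.trans h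
    nlinarith
  obtain ⟨r, hr2, hrf, hrr⟩ := hrow e f he0 he1 hf0 hf1 hfy hfK hTe
  -- the elements
  let rr : Fin R → Fin L → A := fun i l => r (finProdFinEquiv (i, l))
  have hk : ‖cut ε₃ e - e‖ ≤ ε₃ := SI_cut e he0 ε₃ hε₃0.le
  have he1' : ‖e‖ ≤ 1 := (CStarAlgebra.norm_le_one_iff_of_nonneg e he0).2 he1
  have main : ∀ z ∈ zl, ∀ i i', ‖star (SI_s D (rr i) c) * z * SI_s D (rr i') c -
      if i = i' then z * e else 0‖ ≤ η := by
    intro z hz i i'
    obtain ⟨j, rfl⟩ := List.mem_iff_get.1 hz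
    have s1 := SI_step1 D (rr i) (rr i') c (zl.get j) g (fun p q => ρ (zl.get j) p q) ε₂ hε₂0.le
      (fun l => hr2 _) (fun l => hr2 _) (fun p q => hD j p q)
    have s2 := SI_step2 (rr i) (rr i') c g (cut ε₃ e) (fun p q => ρ (zl.get j) p q) (i = i')
      (fun l l' => by
        show star (r _) * g * r _ = _
        rw [hrr]
        simp only [EmbeddingLike.apply_eq_iff_eq, Prod.mk.injEq])
    rw [s2, ← hS] at s1
    have b1 : 4 * ε₂ * S ^ 2 ≤ η / 4 := by
      rw [hε₂, div_eq_mul_inv, div_eq_mul_inv]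
      have h5 : (4 * (4 * S ^ 2 + 1))⁻¹ * (4 * S ^ 2) ≤ 4⁻¹ := by
        rw [inv_mul_le_iff₀ (by positivity)]
        nlinarith [sq_nonneg S]
      nlinarith
    by_cases hii : i = i'
    · rw [if_pos hii] at s1 ⊢
      have s3 := SI_step3 c (cut ε₃ e) e (fun p q => ρ (zl.get j) p q) ε₃ δ hk hec hδ0.le
      have s4 := hρc j
      have b2 : ε₃ * (∑ l, ∑ p, ∑ q, ‖ρ (zl.get j) p q‖ * ‖c l p‖ * ‖c l q‖) ≤ η / 4 := by
        have h5 : ε₃ ≤ η / (4 * (P + 1)) := by rw [hε₃]; exact min_le_left _ _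
        calc ε₃ * (∑ l, ∑ p, ∑ q, ‖ρ (zl.get j) p q‖ * ‖c l p‖ * ‖c l q‖)
            ≤ η / (4 * (P + 1)) * (P + 1) := by
              apply mul_le_mul h5 ((hPi j).trans (by linarith)) (by positivity) (by positivity)
          _ = η / 4 := by field_simp
      have b3 : δ * (∑ l, ∑ p, ∑ q : Fin N, ‖ρ (zl.get j) p q‖ * ‖c l p‖) ≤ η / 4 := by
        calc δ * (∑ l, ∑ p, ∑ q : Fin N, ‖ρ (zl.get j) p q‖ * ‖c l p‖)
            ≤ η / (4 * (P' + 1)) * (P' + 1) := by
              apply mul_le_mul hδ2 ((hP'i j).trans (by linarith)) (by positivity) (by positivity)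
          _ = η / 4 := by field_simp
      have s5 : ‖(∑ l, ∑ p, ∑ q, ρ (zl.get j) p q • (star (c l p) * c l q)) * e -
          zl.get j * e‖ ≤ η / 4 := by
        rw [← sub_mul]
        calc ‖(∑ l, ∑ p, ∑ q, ρ (zl.get j) p q • (star (c l p) * c l q) - zl.get j) * e‖
            ≤ ‖∑ l, ∑ p, ∑ q, ρ (zl.get j) p q • (star (c l p) * c l q) - zl.get j‖ * ‖e‖ :=
              norm_mul_le _ _
          _ ≤ η / 4 * 1 := by gcongr
          _ = η / 4 := mul_one _
      calc ‖star (SI_s D (rr i) c) * zl.get j * SI_s D (rr i') c - zl.get j * e‖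
          = ‖(star (SI_s D (rr i) c) * zl.get j * SI_s D (rr i') c -
              ∑ l, ∑ p, ∑ q, ρ (zl.get j) p q • (star (c l p) * cut ε₃ e * c l q)) +
            (∑ l, ∑ p, ∑ q, ρ (zl.get j) p q • (star (c l p) * cut ε₃ e * c l q) -
              (∑ l, ∑ p, ∑ q, ρ (zl.get j) p q • (star (c l p) * c l q)) * e) +
            ((∑ l, ∑ p, ∑ q, ρ (zl.get j) p q • (star (c l p) * c l q)) * e -
              zl.get j * e)‖ := by
            congr 1
            abel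
        _ ≤ η / 4 + (η / 4 + η / 4) + η / 4 := by
            refine (norm_add_le _ _).trans (add_le_add ?_ s5)
            refine (norm_add_le _ _).trans (add_le_add (s1.trans b1) (s3.trans ?_))
            exact add_le_add b2 b3
        _ = η := by ring
    · rw [if_neg hii] at s1 ⊢
      exact (s1.trans b1).trans (by linarith)
  refine ⟨fun i => SI_s D (rr i) c, ?_, ?_, ?_⟩
  · intro i i'
    have h1 := main 1 hz1 i i'
    rw [mul_one, one_mul] at h1
    exact h1.trans hηε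
  · intro i
    have h1 := SI_f D (rr i) c f ε₃ δ hε₃0.le hδ0.le (fun l => hr2 _) (fun l => hrf _) hfD
    rw [← hQ, ← hS] at h1
    have h2 : ε₃ * Q ≤ ε / 2 := by
      have h5 : ε₃ ≤ ε / (2 * (Q + 1)) := by rw [hε₃]; exact min_le_right _ _
      calc ε₃ * Q ≤ ε / (2 * (Q + 1)) * (Q + 1) :=
            mul_le_mul h5 (by linarith) hQ0 (by positivity)
        _ = ε / 2 := by field_simp
    have h3 : δ * (2 * S) ≤ ε / 2 := by
      calc δ * (2 * S) ≤ ε / (2 * (2 * S + 1)) * (2 * S + 1) :=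
            mul_le_mul hδ3 (by linarith) (by positivity) (by positivity)
        _ = ε / 2 := by field_simp
    linarith
  · intro i j
    have g1 := main 1 hz1 i i
    have g2 := main (a j) (hza j) i i
    have g3 := main (star (a j)) (hzs j) i i
    have g4 := main (star (a j) * a j) (hzq j) i i
    rw [if_pos rfl] at g1 g2 g3 g4
    have h1 := SI_comm (SI_s D (rr i) c) (a j) e η g1 g2 g3 g4
    have h2 : η * (1 + ‖a j‖) ^ 2 ≤ ε ^ 2 := by
      refine le_trans ?_ hηε2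
      have := haAm j
      have h0 := norm_nonneg (a j)
      gcongr
    exact (sq_le_sq₀ (norm_nonneg _) hε.le).1 (h1.trans h2)

end Pool.Agent.H327R4.SI
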