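import Pool.Agent.H327R4.SI.Stubs
import Pool.Agent.H327R4.Pure.All4

set_option autoImplicit false
set_option linter.unusedSectionVars false
set_option linter.unusedVariables false

namespace Pool.Agent.H327R4.SI

open Filter Topology Pool.Agent.H327R4.Pure

universe u

namespace SIRx

variable {A : Type u} [CStarAlgebra A] [PartialOrder A] [StarOrderedRing A]

theorem spec_mem {a : A} (h0 : 0 ≤ a) {x : ℝ} (hx : x ∈ spectrum ℝ a) : 0 ≤ x :=
  spectrum_nonneg_of_nonneg h0 hx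

theorem norm_le_one' {a : A} (h0 : 0 ≤ a) (h1 : a ≤ 1) : ‖a‖ ≤ 1 :=
  (CStarAlgebra.norm_le_one_iff_of_nonneg a h0).2 h1

theorem spec_le [Nontrivial A] {a : A} (h : ‖a‖ ≤ 1) {x : ℝ} (hx : x ∈ spectrum ℝ a) : x ≤ 1 := by
  have h2 := spectrum.norm_le_norm_of_mem hx
  rw [Real.norm_eq_abs] at h2
  exact (le_abs_self x).trans (h2.trans h)

/-- the function `k` -/
noncomputable def kf (t : ℝ) : ℝ := (Real.sqrt (max t (1 / 2)))⁻¹

theorem kf_cont : Continuous kf := by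
  unfold kf
  refine Continuous.inv₀ (by fun_prop) fun t => ?_
  have h1 : (0 : ℝ) < max t (1 / 2) := lt_max_of_lt_right (by norm_num)
  exact (Real.sqrt_pos.2 h1).ne'

theorem kf_mul (t : ℝ) (ht : 0 ≤ t) : kf t * t * kf t = min 1 (t / (1 / 2)) := by
  unfold kf
  have h1 : (0 : ℝ) < max t (1 / 2) := lt_max_of_lt_right (by norm_num)
  have h2 : Real.sqrt (max t (1 / 2)) ^ 2 = max t (1 / 2) := Real.sq_sqrt h1.le
  have h3 : (Real.sqrt (max t (1 / 2)))⁻¹ * t * (Real.sqrt (max t (1 / 2)))⁻¹ =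
      t / (Real.sqrt (max t (1 / 2)) ^ 2) := by
    rw [sq]; field_simp
  rw [h3, h2]
  rcases le_total t (1 / 2) with h | h
  · rw [max_eq_right h, min_eq_right]
    rw [div_le_one (by norm_num)]
    exact h
  · rw [max_eq_left h, min_eq_left]
    · exact div_self (by linarith)
    · rw [one_le_div (by norm_num)]
      exact h

theorem kf_nonneg (t : ℝ) : 0 ≤ kf t := inv_nonneg.2 (Real.sqrt_nonneg _)

theorem kf_le (t : ℝ) : kf t ≤ 2 := by
  unfold kf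
  have h1 : (1 / 2 : ℝ) ≤ Real.sqrt (max t (1 / 2)) := by
    apply Real.le_sqrt_of_sq_le
    refine le_trans ?_ (le_max_right _ _)
    norm_num
  calc (Real.sqrt (max t (1 / 2)))⁻¹ ≤ (1 / 2 : ℝ)⁻¹ := inv_anti₀ (by norm_num) h1
    _ = 2 := by norm_num

theorem phi_eq_cfc (δ : ℝ) (a : A) (ha : 0 ≤ a) :
    phi δ a = cfc (fun x : ℝ => min 1 (x / δ)) a := by
  unfold phi
  exact cfcₙ_eq_cfc (by fun_prop) (by simp)

theorem k_conj (g : A) (hg : 0 ≤ g) : cfc kf g * g * cfc kf g = phi (1 / 2) g := by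
  have hs : IsSelfAdjoint g := hg.isSelfAdjoint
  have h1 : cfc kf g * g * cfc kf g = cfc (fun t => kf t * t * kf t) g := by
    rw [cfc_mul (fun t => kf t * t) kf g (kf_cont.mul continuous_id).continuousOn
      kf_cont.continuousOn, cfc_mul kf (fun t => t) g kf_cont.continuousOn
      continuous_id.continuousOn, cfc_id' ℝ g]
  rw [h1, phi_eq_cfc _ _ hg]
  exact cfc_congr fun t ht => kf_mul t (spec_mem hg ht)

theorem k_norm (g : A) : ‖cfc kf g‖ ≤ 2 := by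
  refine norm_cfc_le (by norm_num) fun x _ => ?_
  rw [Real.norm_of_nonneg (kf_nonneg x)]
  exact kf_le x

theorem k_sa (g : A) : star (cfc kf g) = cfc kf g :=
  (cfc_predicate kf g : IsSelfAdjoint (cfc kf g))

/-- `f2` -/
noncomputable def f2 (κ : ℝ) (t : ℝ) : ℝ := (max t κ)⁻¹

theorem f2_cont (κ : ℝ) (hκ : 0 < κ) : Continuous (f2 κ) := by
  unfold f2
  refine Continuous.inv₀ (by fun_prop) fun t => ?_
  exact (lt_max_of_lt_right hκ).ne'

theorem f2_mul (κ : ℝ) (hκ : 0 < κ) (b : A) (hb : 0 ≤ b) : b * cfc (f2 κ) b = phi κ b := by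
  have h1 : b * cfc (f2 κ) b = cfc (fun t => t * f2 κ t) b := by
    rw [cfc_mul (fun t => t) (f2 κ) b continuous_id.continuousOn (f2_cont κ hκ).continuousOn,
      cfc_id' ℝ b]
  rw [h1, phi_eq_cfc _ _ hb]
  refine cfc_congr fun t ht => ?_
  have ht0 : 0 ≤ t := spec_mem hb ht
  show t * (max t κ)⁻¹ = min 1 (t / κ)
  rcases le_total t κ with h | h
  · rw [max_eq_right h, min_eq_right ((div_le_one hκ).2 h), div_eq_mul_inv]
  · rw [max_eq_left h, min_eq_left ((one_le_div hκ).2 h)]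
    exact mul_inv_cancel₀ (by linarith)

theorem f2_sa (κ : ℝ) (b : A) : star (cfc (f2 κ) b) = cfc (f2 κ) b :=
  (cfc_predicate (f2 κ) b : IsSelfAdjoint (cfc (f2 κ) b))

theorem f2_norm (κ : ℝ) (hκ : 0 < κ) (b : A) (hb : 0 ≤ b) :
    ‖cfc (f2 κ) b * b * cfc (f2 κ) b‖ ≤ κ⁻¹ := by
  have h1 : cfc (f2 κ) b * b * cfc (f2 κ) b = cfc (fun t => f2 κ t * t * f2 κ t) b := by
    rw [cfc_mul (fun t => f2 κ t * t) (f2 κ) b ((f2_cont κ hκ).mul continuous_id).continuousOn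
      (f2_cont κ hκ).continuousOn, cfc_mul (f2 κ) (fun t => t) b (f2_cont κ hκ).continuousOn
      continuous_id.continuousOn, cfc_id' ℝ b]
  rw [h1]
  refine norm_cfc_le (inv_nonneg.2 hκ.le) fun x hx => ?_
  have hx0 : 0 ≤ x := spec_mem hb hx
  have hm : 0 < max x κ := lt_max_of_lt_right hκ
  have h2 : (max x κ)⁻¹ ≤ κ⁻¹ := inv_anti₀ hκ (le_max_right _ _)
  have h3 : (max x κ)⁻¹ * x ≤ 1 := by
    rw [inv_mul_le_iff₀ hm, mul_one]
    exact le_max_left _ _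
  have h4 : 0 ≤ (max x κ)⁻¹ * x := mul_nonneg (inv_nonneg.2 hm.le) hx0
  show ‖(max x κ)⁻¹ * x * (max x κ)⁻¹‖ ≤ κ⁻¹
  rw [Real.norm_of_nonneg (mul_nonneg h4 (inv_nonneg.2 hm.le))]
  calc (max x κ)⁻¹ * x * (max x κ)⁻¹ ≤ 1 * (max x κ)⁻¹ :=
        mul_le_mul_of_nonneg_right h3 (inv_nonneg.2 hm.le)
    _ ≤ κ⁻¹ := by rw [one_mul]; exact h2

theorem real_ineq (x : ℝ) (h0 : 0 ≤ x) (h1 : x ≤ 1) (n : ℕ) :
    (1 - x) * x ^ n ≤ ((n : ℝ) + 1)⁻¹ := by
  have h2 : ((n : ℝ) + 1) * ((1 - x) * x ^ n) ≤ 1 := by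
    have h3 : (∑ i ∈ Finset.range (n + 1), x ^ i) * (x - 1) = x ^ (n + 1) - 1 :=
      geom_sum_mul x (n + 1)
    have h4 : ((n : ℝ) + 1) * x ^ n ≤ ∑ i ∈ Finset.range (n + 1), x ^ i := by
      have h5 : ∑ i ∈ Finset.range (n + 1), x ^ n ≤ ∑ i ∈ Finset.range (n + 1), x ^ i := by
        refine Finset.sum_le_sum fun i hi => ?_
        exact pow_le_pow_of_le_one h0 h1 (by simpa [Nat.lt_succ_iff] using hi)
      simpa using h5
    have h6 : 0 ≤ x ^ (n + 1) := pow_nonneg h0 _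
    nlinarith [mul_le_mul_of_nonneg_right h4 (sub_nonneg.2 h1)]
  have hn : (0 : ℝ) < (n : ℝ) + 1 := by positivity
  rw [← one_div, le_div_iff₀ hn]
  linarith

theorem one_sub_pow [Nontrivial A] (f : A) (h0 : 0 ≤ f) (h1 : f ≤ 1) (n : ℕ) :
    ‖(1 - f) * f ^ n‖ ≤ ((n : ℝ) + 1)⁻¹ := by
  have hs : IsSelfAdjoint f := h0.isSelfAdjoint
  have h2 : (1 - f) * f ^ n = cfc (fun t : ℝ => (1 - t) * t ^ n) f := by
    rw [cfc_mul (fun t : ℝ => 1 - t) (fun t : ℝ => t ^ n) f (by fun_prop) (by fun_prop),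
      cfc_pow_id f n, cfc_sub (fun _ => (1 : ℝ)) (fun t => t) f (by fun_prop) (by fun_prop),
      cfc_const_one ℝ f, cfc_id' ℝ f]
  rw [h2]
  refine norm_cfc_le (by positivity) fun x hx => ?_
  have hx0 := spec_mem h0 hx
  have hx1 := spec_le (norm_le_one' h0 h1) hx
  rw [Real.norm_of_nonneg (mul_nonneg (sub_nonneg.2 hx1) (pow_nonneg hx0 n))]
  exact real_ineq x hx0 hx1 n

theorem hh_sq (g : A) (hg : 0 ≤ g) (c : A) (hc : 0 ≤ c) :
    cfcₙ Real.sqrt c * cfcₙ Real.sqrt c = c := by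
  have hs : IsSelfAdjoint c := hc.isSelfAdjoint
  rw [← cfcₙ_mul Real.sqrt Real.sqrt c Real.continuous_sqrt.continuousOn (by simp)
    Real.continuous_sqrt.continuousOn (by simp)]
  have h1 : cfcₙ (fun x => Real.sqrt x * Real.sqrt x) c = cfcₙ (fun x : ℝ => x) c := by
    refine cfcₙ_congr fun x hx => ?_
    exact Real.mul_self_sqrt (quasispectrum_nonneg_of_nonneg c hc x hx)
  rw [h1, cfcₙ_id' ℝ c]

theorem phi_one [Nontrivial A] (c : A) (hc : 0 ≤ c) (h1 : ‖c‖ ≤ 1) : phi 1 c = c := by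
  have hs : IsSelfAdjoint c := hc.isSelfAdjoint
  rw [phi_eq_cfc _ _ hc]
  have h2 : cfc (fun x : ℝ => min 1 (x / 1)) c = cfc (fun x : ℝ => x) c := by
    refine cfc_congr fun x hx => ?_
    have h3 := spec_le h1 hx
    show min 1 (x / 1) = x
    rw [div_one, min_eq_right h3]
  rw [h2, cfc_id' ℝ c]

theorem tr_le_rk [Nontrivial A] (T : Tr A) (c : A) (hc : 0 ≤ c) (h1 : ‖c‖ ≤ 1) :
    (T.f c).re ≤ rk T c := by
  have h2 := (rk' A T c hc).1 1 one_pos
  rwa [phi_one c hc h1] at h2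

theorem tr_smul (T : Tr A) (r : ℝ) (c : A) : (T.f (r • c)).re = r * (T.f c).re := by
  have h1 : T.f (r • c) = r • T.f c := T.f.map_smul_of_tower r c
  rw [h1, Complex.real_smul, Complex.re_ofReal_mul]

theorem phi_tr (T : Tr A) (δ : ℝ) (hδ : 0 < δ) (e : A) (he : 0 ≤ e) :
    (T.f (phi δ e)).re ≤ δ⁻¹ * (T.f e).re := by
  have hs : IsSelfAdjoint e := he.isSelfAdjoint
  rw [← tr_smul]
  refine (mt' A T).1 _ _ ?_
  rw [phi_eq_cfc _ _ he]
  have h1 : δ⁻¹ • e = cfc (fun x : ℝ => δ⁻¹ * x) e := by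
    rw [cfc_const_mul δ⁻¹ (fun x : ℝ => x) e (by fun_prop), cfc_id' ℝ e]
  rw [h1]
  refine cfc_mono (fun x hx => ?_) (by fun_prop) (by fun_prop)
  exact (min_le_right _ _).trans (le_of_eq (by rw [div_eq_inv_mul]))

theorem tr_cut [Nontrivial A] (T : TS A) (κ : ℝ) (hκ : 0 ≤ κ) (b : A) (hb : 0 ≤ b) :
    (T.1.f b).re - κ ≤ (T.1.f (cut κ b)).re := by
  obtain ⟨c1, c2, c3, c4, c5, c6, c7, c8, c9⟩ := ct' A b hb
  have h1 : IsSelfAdjoint (b - cut κ b) := hb.isSelfAdjoint.sub (c1 κ).isSelfAdjoint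
  have h2 : b - cut κ b ≤ κ • (1 : A) := by
    refine h1.le_algebraMap_norm_self.trans ?_
    rw [← Algebra.algebraMap_eq_smul_one]
    exact algebraMap_le_algebraMap.2 (c6 κ hκ)
  have h3 := (mt' A T.1).1 _ _ h2
  rw [tr_smul, T.2, map_sub, Complex.sub_re, Complex.one_re, mul_one] at h3
  linarith

end SIRx

open SIRx in
theorem t_SIR (hRIB : StRIB.{u}) (hROWS : StROWS.{u}) (hLB : StLB.{u}) : StSIR.{u} := by
  intro A _ _ _ hA hSC g L ε hg hg1 hε
  have _hnt : Nontrivial A := hA.1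
  obtain ⟨r1, r2, r3, r4, r5, r6, r7, r8, r9⟩ := hRIB A
  obtain ⟨c1, c2, c3, c4, c5, c6, c7, c8, c9⟩ := ct' A g hg
  -- h
  set c : A := cut (1 / 2) g with hc
  have hc0 : 0 ≤ c := c1 _
  set h : A := cfcₙ Real.sqrt c with hh
  have hh0 : 0 ≤ h := by
    refine cfcₙ_nonneg fun x _ => Real.sqrt_nonneg x
  have hhs : star h = h := hh0.isSelfAdjoint
  have hhh : h * h = c := hh_sq g hg c hc0
  have hne : h ≠ 0 := by
    intro h0
    rw [h0, mul_zero] at hhh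
    have h1 := c6 (1 / 2) (by norm_num)
    rw [← hc, ← hhh, sub_zero, hg1] at h1
    norm_num at h1
  have hcn : ‖c‖ ≤ 1 := by
    rw [← hg1]
    exact CStarAlgebra.norm_le_norm_of_nonneg_of_le hc0 (c2 _ (by norm_num))
  have hhn : ‖h‖ ≤ 1 := by
    have h1 : ‖h‖ * ‖h‖ = ‖c‖ := by
      rw [← hhh, ← CStarRing.norm_star_mul_self, hhs]
    nlinarith [norm_nonneg h]
  have hhRI : h ∈ RI c := r6 c Real.sqrt hc0 Real.continuous_sqrt Real.sqrt_zero
  -- k and q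
  set k : A := cfc kf g with hk
  have hkn : ‖k‖ ≤ 2 := k_norm g
  have hks : star k = k := k_sa g
  set q : A := k * h with hq
  have hqn : ‖q‖ ≤ 2 := by
    calc ‖q‖ ≤ ‖k‖ * ‖h‖ := norm_mul_le _ _
      _ ≤ 2 * 1 := mul_le_mul hkn hhn (norm_nonneg _) (by norm_num)
      _ = 2 := by norm_num
  -- constants
  obtain ⟨k0, y0, η, hη, hLBh⟩ := hLB A hA h hh0 hne
  have hκ : 0 < η / 2 := by linarith
  set κ : ℝ := η / 2 with hκd
  set s : ℝ := Real.sqrt κ⁻¹ with hs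
  have hs0 : 0 ≤ s := Real.sqrt_nonneg _
  obtain ⟨K1, hK1⟩ : ∃ K1 : ℕ, 2 * ((K1 : ℝ) + 1)⁻¹ * s ≤ ε / 2 := by
    obtain ⟨n, hn⟩ := exists_nat_gt (4 * s / ε)
    refine ⟨n, ?_⟩
    have h1 : (0 : ℝ) < (n : ℝ) + 1 := by positivity
    rw [mul_comm 2, mul_assoc, inv_mul_le_iff₀ h1]
    rw [div_lt_iff₀ hε] at hn
    nlinarith
  obtain ⟨δ0, hδ0, hLBf⟩ := hLBh K1
  set δ : ℝ := min δ0 (min (ε / 2 / (s + 1)) (η * ε / (8 * (L + 1)))) with hδd
  have hδ : 0 < δ := by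
    refine lt_min hδ0 (lt_min (by positivity) (by positivity))
  refine ⟨k0 + 1, Fin.snoc y0 q, 2 * K1, δ, hδ, ?_⟩
  intro e f he0 he1 hf0 hf1 hcom hfn hT
  have hcom0 : ∀ j, ‖f * y0 j - y0 j * f‖ ≤ δ0 := by
    intro j
    have h1 := hcom (Fin.castSucc j)
    rw [Fin.snoc_castSucc] at h1
    exact h1.trans (min_le_left _ _)
  have hcomq : ‖f * q - q * f‖ ≤ ε / 2 / (s + 1) := by
    have h1 := hcom (Fin.last k0)
    rw [Fin.snoc_last] at h1
    exact h1.trans ((min_le_right _ _).trans (min_le_left _ _))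
  obtain ⟨hb1, hb2⟩ := hLBf f hf0 hf1 hcom0
  have hfs : star f = f := hf0.isSelfAdjoint
  have hfn1 : ‖f‖ ≤ 1 := norm_le_one' hf0 hf1
  have hfpn : ∀ n : ℕ, ‖f ^ n‖ ≤ 1 := fun n => (norm_pow_le f n).trans (pow_le_one₀ (norm_nonneg _) hfn1)
  -- b
  set b : A := h * f ^ (2 * K1) * h with hb
  have hbeq : b = star (f ^ K1 * h) * (f ^ K1 * h) := by
    rw [star_mul, star_pow, hfs, hhs, hb, two_mul, pow_add]
    noncomm_ring
  have hb0 : 0 ≤ b := by
    rw [hbeq]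
    exact star_mul_self_nonneg _
  have hbn1 : ‖b‖ ≤ 1 := by
    calc ‖b‖ ≤ ‖h * f ^ (2 * K1)‖ * ‖h‖ := norm_mul_le _ _
      _ ≤ (‖h‖ * ‖f ^ (2 * K1)‖) * ‖h‖ :=
        mul_le_mul_of_nonneg_right (norm_mul_le _ _) (norm_nonneg _)
      _ ≤ (1 * 1) * 1 := by
        refine mul_le_mul (mul_le_mul hhn (hfpn _) (norm_nonneg _) zero_le_one) hhn
          (norm_nonneg _) (by norm_num)
      _ = 1 := by norm_num
  have hbη : η ≤ ‖b‖ := hb1 hfn
  obtain ⟨d1, d2, d3, d4, d5, d6, d7, d8, d9⟩ := ct' A b hb0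
  have hcb0 : 0 ≤ cut κ b := d1 κ
  have hcbn : ‖cut κ b‖ ≤ 1 :=
    (CStarAlgebra.norm_le_norm_of_nonneg_of_le hcb0 (d2 κ hκ.le)).trans hbn1
  have hcbne : cut κ b ≠ 0 := by
    intro h0
    have h1 := d6 κ hκ.le
    rw [h0, sub_zero] at h1
    linarith
  -- ranks
  obtain ⟨e1', e2', e3', e4', e5', e6', e7', e8', e9'⟩ := ct' A e he0
  have hrank : ∀ T : TS A, (L : ℝ) * rk T.1 (cut (ε / 2) e) < rk T.1 (cut κ b) := by
    intro T
    obtain ⟨hT1, hT2⟩ := hT T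
    have h1 : rk T.1 (cut (ε / 2) e) ≤ (ε / 2)⁻¹ * δ := by
      refine (sand' A T.1 e (ε / 2) he0 (by linarith)).trans ((phi_tr T.1 _ (by linarith) e he0).trans ?_)
      exact mul_le_mul_of_nonneg_left hT1 (by positivity)
    have h2 : η / 2 ≤ rk T.1 (cut κ b) := by
      have h3 := tr_le_rk T.1 _ hcb0 hcbn
      have h4 := tr_cut T κ hκ.le b hb0
      have h5 : η ≤ (T.1.f b).re := hb2 T hT2
      linarith
    have h6 : δ ≤ η * ε / (8 * (L + 1)) := (min_le_right _ _).trans (min_le_right _ _)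
    have hL : (0 : ℝ) ≤ (L : ℝ) := Nat.cast_nonneg L
    have h7 : (L : ℝ) * ((ε / 2)⁻¹ * δ) < η / 2 := by
      have h8 : (L : ℝ) * ((ε / 2)⁻¹ * δ) ≤ (L : ℝ) * ((ε / 2)⁻¹ * (η * ε / (8 * (L + 1)))) := by
        refine mul_le_mul_of_nonneg_left (mul_le_mul_of_nonneg_left h6 (by positivity)) hL
      have h9 : (L : ℝ) * ((ε / 2)⁻¹ * (η * ε / (8 * (L + 1)))) = η / 4 * (L / (L + 1)) := by
        field_simp
        ring
      have h10 : (L : ℝ) / (L + 1) ≤ 1 := by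
        rw [div_le_one (by positivity)]
        linarith
      have h11 : η / 4 * (L / (L + 1)) ≤ η / 4 * 1 :=
        mul_le_mul_of_nonneg_left h10 (by linarith)
      linarith
    have h12 := mul_le_mul_of_nonneg_left h1 hL
    linarith
  obtain ⟨w, hw1, hw2⟩ := hROWS A hSC L (cut (ε / 2) e) (cut κ b) (ε / 2) (e1' _) hcb0 hcbne
    (by linarith) hrank
  have hcc : cut (ε / 2) (cut (ε / 2) e) = cut ε e := by
    rw [e4' _ _ (by linarith) (by linarith), add_halves]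
  rw [hcc] at hw1
  have hen : ‖cut ε e‖ ≤ 1 :=
    (CStarAlgebra.norm_le_norm_of_nonneg_of_le (e1' ε) (e2' ε hε.le)).trans (norm_le_one' he0 he1)
  have hwn : ∀ l, ‖w l‖ ≤ 1 := by
    intro l
    have h1 := hw1 l l
    rw [if_pos rfl] at h1
    have h2 : ‖w l‖ * ‖w l‖ ≤ 1 := by
      rw [← CStarRing.norm_star_mul_self, h1]
      exact hen
    nlinarith [norm_nonneg (w l)]
  -- ideals
  have hbRI : b ∈ RI h := by
    rw [hb, mul_assoc]
    exact r2 h h _ (r1 h)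
  have hcbRI : cut κ b ∈ RI b := by
    refine r6 b _ hb0 (by fun_prop) ?_
    show max (0 - κ) 0 = 0
    rw [max_eq_right]; linarith
  have hwb : ∀ l, w l ∈ RI b := fun l => r5 b _ hcbRI (hw2 l)
  have hwc : ∀ l, w l ∈ RI c := fun l => r5 c h hhRI (r5 h b hbRI (hwb l))
  have hphig : ∀ l, phi (1 / 2) g * w l = w l := fun l => r7 g (w l) (1 / 2) hg (by norm_num) (hwc l)
  have hphib : ∀ l, phi κ b * w l = w l := fun l => r7 b (w l) κ hb0 hκ (hw2 l)
  refine ⟨fun l => k * w l, ?_, ?_, ?_⟩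
  · intro l
    calc ‖k * w l‖ ≤ ‖k‖ * ‖w l‖ := norm_mul_le _ _
      _ ≤ 2 * 1 := mul_le_mul hkn (hwn l) (norm_nonneg _) (by norm_num)
      _ = 2 := by norm_num
  · intro l
    set z : A := cfc (f2 κ) b with hz
    have hzs : star z = z := f2_sa κ b
    set t : A := f ^ K1 * h * z * w l with ht
    have hwt : w l = h * f ^ K1 * t := by
      have h1 : w l = b * z * w l := by
        rw [hz, f2_mul κ hκ b hb0, hphib l]
      have h2 : b * z * w l = h * f ^ K1 * (f ^ K1 * h * z * w l) := by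
        rw [hb, two_mul, pow_add]
        noncomm_ring
      rw [ht, ← h2, ← h1]
    have htn : ‖t‖ ≤ s := by
      have h1 : star t * t = star (w l) * (z * b * z) * w l := by
        rw [ht, hbeq]
        simp only [star_mul, star_pow, hfs, hhs, hzs, mul_assoc]
      have h2 : ‖t‖ * ‖t‖ ≤ κ⁻¹ := by
        rw [← CStarRing.norm_star_mul_self, h1]
        calc ‖star (w l) * (z * b * z) * w l‖ ≤ ‖star (w l) * (z * b * z)‖ * ‖w l‖ := norm_mul_le _ _
          _ ≤ (‖star (w l)‖ * ‖z * b * z‖) * ‖w l‖ :=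
            mul_le_mul_of_nonneg_right (norm_mul_le _ _) (norm_nonneg _)
          _ ≤ (1 * κ⁻¹) * 1 := by
            refine mul_le_mul (mul_le_mul ?_ (f2_norm κ hκ b hb0) (norm_nonneg _) zero_le_one)
              (hwn l) (norm_nonneg _) (by positivity)
            rw [norm_star]; exact hwn l
          _ = κ⁻¹ := by ring
      rw [hs]
      apply Real.le_sqrt_of_sq_le
      rw [sq]
      exact h2
    have h3 : f * (k * w l) - k * w l =
        (f * q - q * f) * (f ^ K1 * t) - q * ((1 - f) * f ^ K1) * t := by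
      have h4 : k * w l = q * f ^ K1 * t := by
        rw [hwt, hq]
        noncomm_ring
      rw [h4]
      noncomm_ring
    rw [h3]
    have h5 : ‖f ^ K1 * t‖ ≤ s := by
      calc ‖f ^ K1 * t‖ ≤ ‖f ^ K1‖ * ‖t‖ := norm_mul_le _ _
        _ ≤ 1 * s := mul_le_mul (hfpn _) htn (norm_nonneg _) zero_le_one
        _ = s := one_mul s
    have h6 : ‖(f * q - q * f) * (f ^ K1 * t)‖ ≤ ε / 2 := by
      calc ‖(f * q - q * f) * (f ^ K1 * t)‖ ≤ ‖f * q - q * f‖ * ‖f ^ K1 * t‖ := norm_mul_le _ _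
        _ ≤ ε / 2 / (s + 1) * s := mul_le_mul hcomq h5 (norm_nonneg _) (by positivity)
        _ ≤ ε / 2 := by
          rw [div_mul_eq_mul_div, div_le_iff₀ (by positivity)]
          nlinarith
    have h7 : ‖q * ((1 - f) * f ^ K1) * t‖ ≤ ε / 2 := by
      calc ‖q * ((1 - f) * f ^ K1) * t‖ ≤ ‖q * ((1 - f) * f ^ K1)‖ * ‖t‖ := norm_mul_le _ _
        _ ≤ (‖q‖ * ‖(1 - f) * f ^ K1‖) * ‖t‖ :=
          mul_le_mul_of_nonneg_right (norm_mul_le _ _) (norm_nonneg _)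
        _ ≤ (2 * ((K1 : ℝ) + 1)⁻¹) * s := by
          refine mul_le_mul (mul_le_mul hqn (one_sub_pow f hf0 hf1 K1) (norm_nonneg _)
            (by norm_num)) htn (norm_nonneg _) (by positivity)
        _ ≤ ε / 2 := hK1
    calc _ ≤ ‖(f * q - q * f) * (f ^ K1 * t)‖ + ‖q * ((1 - f) * f ^ K1) * t‖ := norm_sub_le _ _
      _ ≤ ε := by linarith
  · intro l l'
    have h1 : star (k * w l) * g * (k * w l') = star (w l) * (phi (1 / 2) g * w l') := by
      rw [← k_conj g hg, star_mul, ← hk, hks]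
      noncomm_ring
    rw [h1, hphig, hw1]

end Pool.Agent.H327R4.SI
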