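import Pool.Agent.H327R4.SI.Stubs

/-! Task X4: decoupling two ideals. -/

set_option autoImplicit false

namespace Pool.Agent.H327R4.SI

open Filter Topology Pool.Agent.H327R4.Pure

universe u

namespace TX4

variable {B : Type u} [CStarAlgebra B] [PartialOrder B] [StarOrderedRing B]

theorem mu_bound {q p : B} {μ : ℂ} {e : ℝ} (hq : 0 ≤ q) (hp : 0 ≤ p) (hp1 : ‖p‖ = 1)
    (h : ‖q - μ • p‖ ≤ e) : -e ≤ μ.re ∧ |μ.im| ≤ e := by
  have hs : star (q - μ • p) = q - (starRingEnd ℂ μ) • p := by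
    rw [star_sub, star_smul, hq.isSelfAdjoint.star_eq, hp.isSelfAdjoint.star_eq]
    rfl
  have hn : ‖q - (starRingEnd ℂ μ) • p‖ ≤ e := by rw [← hs, norm_star]; exact h
  constructor
  · by_contra hc
    push Not at hc
    have he : 0 ≤ e := (norm_nonneg _).trans h
    have h1 : (q - μ • p) + (q - (starRingEnd ℂ μ) • p) = (2 : ℝ) • q + (-(2 * μ.re)) • p := by
      have e1 : μ • p + (starRingEnd ℂ μ) • p = (2 * μ.re : ℝ) • p := by
        rw [← add_smul, Complex.add_conj]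
        rw [← Complex.coe_smul]
      have e2 : (2 : ℝ) • q = q + q := two_smul ℝ q
      rw [neg_smul, ← e1, e2]
      abel
    have h2 : ‖(2 : ℝ) • q + (-(2 * μ.re)) • p‖ ≤ 2 * e := by
      rw [← h1]
      calc _ ≤ ‖q - μ • p‖ + ‖q - (starRingEnd ℂ μ) • p‖ := norm_add_le _ _
        _ ≤ 2 * e := by linarith
    have h3 : 0 ≤ (-(2 * μ.re)) • p := smul_nonneg (by linarith) hp
    have h4 : (-(2 * μ.re)) • p ≤ (2 : ℝ) • q + (-(2 * μ.re)) • p :=
      le_add_of_nonneg_left (smul_nonneg (by norm_num) hq)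
    have h5 := CStarAlgebra.norm_le_norm_of_nonneg_of_le h3 h4
    rw [norm_smul, hp1, mul_one, Real.norm_eq_abs] at h5
    have h6 := le_abs_self (-(2 * μ.re))
    linarith
  · have h1 : (q - (starRingEnd ℂ μ) • p) - (q - μ • p) =
        (((2 * μ.im : ℝ) : ℂ) * Complex.I) • p := by
      rw [← Complex.sub_conj, sub_smul]
      abel
    have h2 : ‖(((2 * μ.im : ℝ) : ℂ) * Complex.I) • p‖ ≤ 2 * e := by
      rw [← h1]
      calc _ ≤ ‖q - (starRingEnd ℂ μ) • p‖ + ‖q - μ • p‖ := norm_sub_le _ _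
        _ ≤ 2 * e := by linarith
    rw [norm_smul, hp1, mul_one, norm_mul, Complex.norm_I, mul_one,
      Complex.norm_real, Real.norm_eq_abs, abs_mul] at h2
    have h3 : |(2 : ℝ)| = 2 := by norm_num
    rw [h3] at h2
    linarith

theorem norm_sum_sq {R : ℕ} (c : Fin R → B) (h0 : ∀ r, 0 ≤ c r) (h1 : ∀ r, ‖c r‖ = 1)
    (h2 : ∀ r s, r ≠ s → c r * c s = 0) : ‖∑ r, c r * c r‖ ≤ 1 := by
  have hsa : ∀ r, star (c r) = c r := fun r => (h0 r).isSelfAdjoint.star_eq
  have hcc : ∀ r, 0 ≤ c r * c r := fun r => by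
    have := star_mul_self_nonneg (c r)
    rwa [hsa] at this
  have hS : 0 ≤ ∑ r, c r * c r := Finset.sum_nonneg fun r _ => hcc r
  have hle : ∀ r, c r * (c r * c r) * c r ≤ c r * c r := by
    intro r
    have h3 : c r * c r ≤ 1 := by
      rw [← CStarAlgebra.norm_le_one_iff_of_nonneg _ (hcc r)]
      calc ‖c r * c r‖ ≤ ‖c r‖ * ‖c r‖ := norm_mul_le _ _
        _ = 1 := by rw [h1, mul_one]
    have h4 := star_left_conjugate_le_conjugate h3 (c r)
    rw [hsa, mul_one] at h4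
    exact h4
  have hSS : (∑ r, c r * c r) * (∑ r, c r * c r) = ∑ r, c r * (c r * c r) * c r := by
    rw [Finset.sum_mul]
    refine Finset.sum_congr rfl fun r _ => ?_
    rw [Finset.mul_sum, Finset.sum_eq_single r]
    · simp only [mul_assoc]
    · intro s _ hs
      rw [mul_assoc, ← mul_assoc (c r) (c s), h2 r s hs.symm, zero_mul, mul_zero]
    · intro h
      exact absurd (Finset.mem_univ r) h
  have h5 : ‖(∑ r, c r * c r) * (∑ r, c r * c r)‖ ≤ ‖∑ r, c r * c r‖ := by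
    apply CStarAlgebra.norm_le_norm_of_nonneg_of_le
    · rw [hSS]
      refine Finset.sum_nonneg fun r _ => ?_
      have := star_mul_self_nonneg (c r * c r)
      rw [star_mul, hsa] at this
      simpa only [mul_assoc] using this
    · rw [hSS]
      exact Finset.sum_le_sum fun r _ => hle r
  have h6 : ‖(∑ r, c r * c r) * (∑ r, c r * c r)‖ = ‖∑ r, c r * c r‖ * ‖∑ r, c r * c r‖ := by
    have := CStarRing.norm_star_mul_self (x := ∑ r, c r * c r)
    rwa [hS.isSelfAdjoint.star_eq] at this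
  rw [h6] at h5
  by_contra hc
  push Not at hc
  nlinarith

theorem phi_sq_le {c : B} (hc : 0 ≤ c) :
    phi (1 / 2) c * phi (1 / 2) c ≤ (4 : ℝ) • (c * c) := by
  have hs : IsSelfAdjoint c := hc.isSelfAdjoint
  have e1 : phi (1 / 2) c * phi (1 / 2) c =
      cfcₙ (fun x : ℝ => min 1 (x / (1 / 2)) * min 1 (x / (1 / 2))) c := by
    unfold phi
    rw [← cfcₙ_mul (fun x : ℝ => min 1 (x / (1 / 2))) (fun x : ℝ => min 1 (x / (1 / 2))) c
      (by fun_prop) (by simp) (by fun_prop) (by simp)]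
  have e2 : (4 : ℝ) • (c * c) = cfcₙ (fun x : ℝ => (4 : ℝ) • (x * x)) c := by
    rw [cfcₙ_smul (4 : ℝ) (fun x : ℝ => x * x) c (by fun_prop) (by simp),
      cfcₙ_mul (fun x : ℝ => x) (fun x : ℝ => x) c (by fun_prop) (by simp) (by fun_prop) (by simp),
      cfcₙ_id' ℝ c]
  rw [e1, e2]
  refine cfcₙ_mono (fun x hx => ?_) (by fun_prop) (by fun_prop) (by simp) (by simp)
  have hx0 : 0 ≤ x := quasispectrum_nonneg_of_nonneg c hc x hx
  have h1 : min 1 (x / (1 / 2)) ≤ 2 * x := (min_le_right _ _).trans (by linarith)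
  have h2 : 0 ≤ min 1 (x / (1 / 2)) := le_min zero_le_one (by positivity)
  calc min 1 (x / (1 / 2)) * min 1 (x / (1 / 2)) ≤ (2 * x) * (2 * x) :=
        mul_le_mul h1 h1 h2 (by positivity)
    _ = (4 : ℝ) • (x * x) := by rw [smul_eq_mul]; ring

theorem cut_ne {c : B} (hc : 0 ≤ c) (h1 : ‖c‖ = 1) : cut (1 / 2) c ≠ 0 := by
  intro h0
  have hs : IsSelfAdjoint c := hc.isSelfAdjoint
  have h2 : ‖c - cut (1 / 2) c‖ ≤ 1 / 2 := by
    have e : c - cut (1 / 2) c = cfcₙ (fun x : ℝ => x - max (x - 1 / 2) 0) c := by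
      unfold cut
      rw [cfcₙ_sub (fun x : ℝ => x) (fun x : ℝ => max (x - 1 / 2) 0) c (by fun_prop) (by simp)
        (by fun_prop) (by norm_num), cfcₙ_id' ℝ c]
    rw [e]
    refine norm_cfcₙ_le fun x hx => ?_
    have hx0 : 0 ≤ x := quasispectrum_nonneg_of_nonneg c hc x hx
    rw [Real.norm_eq_abs, abs_le]
    rcases le_total x (1 / 2) with h | h
    · rw [max_eq_right (by linarith)]
      constructor <;> linarith
    · rw [max_eq_left (by linarith)]
      constructor <;> linarith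
  rw [h0, sub_zero, h1] at h2
  norm_num at h2

theorem final {x y c z : B} {μ : ℂ} {e : ℝ} (hc : 0 ≤ c) (hz : phi (1 / 2) c * z = z)
    (h : ‖star x * (y * (c * c) * star y) * x - μ • (star x * x)‖ ≤ e * ‖x‖ ^ 2) :
    ‖star x * y * z‖ ^ 2 ≤ 4 * (‖μ‖ + e) * ‖x‖ ^ 2 * ‖z‖ ^ 2 := by
  have h1 : ‖star x * (y * (c * c) * star y) * x‖ ≤ (‖μ‖ + e) * ‖x‖ ^ 2 := by
    have h2 : ‖μ • (star x * x)‖ = ‖μ‖ * ‖x‖ ^ 2 := by
      rw [norm_smul, CStarRing.norm_star_mul_self, sq]
    calc ‖star x * (y * (c * c) * star y) * x‖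
        = ‖(star x * (y * (c * c) * star y) * x - μ • (star x * x)) + μ • (star x * x)‖ := by
          rw [sub_add_cancel]
      _ ≤ e * ‖x‖ ^ 2 + ‖μ‖ * ‖x‖ ^ 2 := by
          rw [← h2]; exact (norm_add_le _ _).trans (by gcongr)
      _ = (‖μ‖ + e) * ‖x‖ ^ 2 := by ring
  have hphi : star (phi (1 / 2) c) = phi (1 / 2) c := by
    have : IsSelfAdjoint (phi (1 / 2) c) := by unfold phi; exact cfcₙ_predicate _ _
    exact this.star_eq
  have h3 : ‖star x * y * phi (1 / 2) c‖ ^ 2 ≤ 4 * ((‖μ‖ + e) * ‖x‖ ^ 2) := by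
    have e1 : ‖star x * y * phi (1 / 2) c‖ ^ 2 =
        ‖(star x * y) * (phi (1 / 2) c * phi (1 / 2) c) * star (star x * y)‖ := by
      rw [sq, ← CStarRing.norm_self_mul_star]
      congr 1
      rw [star_mul (star x * y), hphi]
      simp only [mul_assoc]
    rw [e1]
    have h4 : (star x * y) * (phi (1 / 2) c * phi (1 / 2) c) * star (star x * y) ≤
        (star x * y) * ((4 : ℝ) • (c * c)) * star (star x * y) :=
      star_right_conjugate_le_conjugate (phi_sq_le hc) _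
    have h5 : 0 ≤ (star x * y) * (phi (1 / 2) c * phi (1 / 2) c) * star (star x * y) := by
      have := mul_star_self_nonneg ((star x * y) * phi (1 / 2) c)
      rw [star_mul (star x * y), hphi] at this
      simpa only [mul_assoc] using this
    have h6 := CStarAlgebra.norm_le_norm_of_nonneg_of_le h5 h4
    refine h6.trans ?_
    have e2 : (star x * y) * ((4 : ℝ) • (c * c)) * star (star x * y) =
        (4 : ℝ) • (star x * (y * (c * c) * star y) * x) := by
      rw [star_mul, star_star, mul_smul_comm, smul_mul_assoc]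
      simp only [mul_assoc]
    rw [e2, norm_smul, Real.norm_of_nonneg (by norm_num : (0 : ℝ) ≤ 4)]
    gcongr
  calc ‖star x * y * z‖ ^ 2 = ‖(star x * y * phi (1 / 2) c) * z‖ ^ 2 := by
        conv_lhs => rw [← hz]
        simp only [mul_assoc]
    _ ≤ (‖star x * y * phi (1 / 2) c‖ * ‖z‖) ^ 2 := by
        gcongr
        exact norm_mul_le _ _
    _ = ‖star x * y * phi (1 / 2) c‖ ^ 2 * ‖z‖ ^ 2 := by ring
    _ ≤ 4 * ((‖μ‖ + e) * ‖x‖ ^ 2) * ‖z‖ ^ 2 := by gcongr
    _ = 4 * (‖μ‖ + e) * ‖x‖ ^ 2 * ‖z‖ ^ 2 := by ring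

end TX4

open TX4 in
theorem t_X4 (hRIB : StRIB.{u}) (hX2 : StX2.{u}) (hORT : StORT.{u}) : StX4.{u} := by
  intro B _ _ _ hsimple hfd a b k y ε ha ha0 hb hb0 hε
  obtain ⟨r1, r2, r3, r4, r5, r6, r7, r8, r9⟩ := hRIB B
  set C : ℝ := ∑ i, ‖y i‖ ^ 2 with hC
  have hC0 : 0 ≤ C := Finset.sum_nonneg fun i _ => sq_nonneg _
  obtain ⟨e, he, hee⟩ : ∃ e : ℝ, 0 < e ∧ 4 * ((2 * k + 3) * e) ≤ ε ^ 2 / 2 := by
    refine ⟨ε ^ 2 / (8 * (2 * k + 3)), by positivity, le_of_eq ?_⟩
    have : (2 * (k : ℝ) + 3) ≠ 0 := by positivity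
    field_simp
    ring
  obtain ⟨R, hR⟩ := exists_nat_gt (8 * C / ε ^ 2)
  have hR0 : (0 : ℝ) < R := lt_of_le_of_lt (by positivity) hR
  have hRC : 4 * (C / R) ≤ ε ^ 2 / 2 := by
    rw [div_lt_iff₀ (by positivity)] at hR
    have : C / R ≤ ε ^ 2 / 8 := by
      rw [div_le_div_iff₀ hR0 (by norm_num)]
      linarith
    linarith
  obtain ⟨c, hc, hcc⟩ := hORT B hsimple hfd b R hb hb0
  obtain ⟨a', l, μ, ha', ha'0, haa', -, hμ, -⟩ := hX2 B a 1 (k * R)
    (fun s => y (finProdFinEquiv.symm s).1 *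
      (c (finProdFinEquiv.symm s).2 * c (finProdFinEquiv.symm s).2) *
      star (y (finProdFinEquiv.symm s).1)) e ha ha0 (IsSelfAdjoint.one B) he
  set ν : Fin k → Fin R → ℂ := fun i r => μ (finProdFinEquiv (i, r)) with hν
  have hEx : ∀ i r, Ex e a' (y i * (c r * c r) * star (y i)) (ν i r) := by
    intro i r
    have := hμ (finProdFinEquiv (i, r))
    simpa only [Equiv.symm_apply_apply] using this
  -- the test vector
  have hna : 0 < ‖a'‖ := norm_pos_iff.mpr ha'0
  set x₀ : B := ((‖a'‖⁻¹ : ℝ) : ℂ) • a' with hx₀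
  have hx₀m : x₀ ∈ RI a' := r4 a' a' _ (r1 a')
  have hx₀n : ‖x₀‖ = 1 := by
    rw [hx₀, norm_smul, Complex.norm_real, Real.norm_of_nonneg (by positivity),
      inv_mul_cancel₀ hna.ne']
  have hp1 : ‖star x₀ * x₀‖ = 1 := by rw [CStarRing.norm_star_mul_self, hx₀n, mul_one]
  have hp0 : 0 ≤ star x₀ * x₀ := star_mul_self_nonneg x₀
  have hcsa : ∀ r, star (c r) = c r := fun r => (hc r).1.isSelfAdjoint.star_eq
  have hq0 : ∀ i r, 0 ≤ star x₀ * (y i * (c r * c r) * star (y i)) * x₀ := by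
    intro i r
    have h := star_mul_self_nonneg (c r * star (y i) * x₀)
    have e1 : star (c r * star (y i) * x₀) * (c r * star (y i) * x₀) =
        star x₀ * (y i * (c r * c r) * star (y i)) * x₀ := by
      rw [star_mul, star_mul, star_star, hcsa]
      simp only [mul_assoc]
    rwa [e1] at h
  have hqe : ∀ i r, ‖star x₀ * (y i * (c r * c r) * star (y i)) * x₀ -
      ν i r • (star x₀ * x₀)‖ ≤ e := by
    intro i r
    have := hEx i r x₀ hx₀m
    rwa [hx₀n, one_pow, mul_one] at this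
  have hmu : ∀ i r, -e ≤ (ν i r).re ∧ |(ν i r).im| ≤ e := fun i r =>
    mu_bound (hq0 i r) hp0 hp1 (hqe i r)
  have hsum : ∀ i, ∑ r, (ν i r).re ≤ ‖y i‖ ^ 2 + R * e := by
    intro i
    have h1 : ‖(∑ r, ν i r) • (star x₀ * x₀)‖ ≤ ‖y i‖ ^ 2 + R * e := by
      have h2 : (∑ r, ν i r) • (star x₀ * x₀) =
          ∑ r, star x₀ * (y i * (c r * c r) * star (y i)) * x₀ -
          ∑ r, (star x₀ * (y i * (c r * c r) * star (y i)) * x₀ -
            ν i r • (star x₀ * x₀)) := by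
        rw [Finset.sum_sub_distrib, sub_sub_cancel, Finset.sum_smul]
      rw [h2]
      have h3 : ∑ r, star x₀ * (y i * (c r * c r) * star (y i)) * x₀ =
          star x₀ * (y i * (∑ r, c r * c r) * star (y i)) * x₀ := by
        rw [Finset.mul_sum, Finset.sum_mul, Finset.mul_sum, Finset.sum_mul]
      have h4 : ‖star x₀ * (y i * (∑ r, c r * c r) * star (y i)) * x₀‖ ≤ ‖y i‖ ^ 2 := by
        have h5 := norm_sum_sq c (fun r => (hc r).1) (fun r => (hc r).2.1) hcc
        calc ‖star x₀ * (y i * (∑ r, c r * c r) * star (y i)) * x₀‖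
            ≤ ‖star x₀‖ * (‖y i‖ * ‖∑ r, c r * c r‖ * ‖star (y i)‖) * ‖x₀‖ := by
              refine (norm_mul_le _ _).trans ?_
              gcongr
              refine (norm_mul_le _ _).trans ?_
              gcongr
              refine (norm_mul_le _ _).trans ?_
              gcongr
              exact norm_mul_le _ _
          _ = ‖y i‖ ^ 2 * ‖∑ r, c r * c r‖ := by
              rw [norm_star, norm_star, hx₀n]; ring
          _ ≤ ‖y i‖ ^ 2 * 1 := by gcongr
          _ = ‖y i‖ ^ 2 := mul_one _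
      have h6 : ‖∑ r, (star x₀ * (y i * (c r * c r) * star (y i)) * x₀ -
            ν i r • (star x₀ * x₀))‖ ≤ R * e := by
        refine (norm_sum_le _ _).trans ?_
        refine (Finset.sum_le_sum fun r _ => hqe i r).trans ?_
        rw [Finset.sum_const, Finset.card_univ, Fintype.card_fin, nsmul_eq_mul]
      refine (norm_sub_le _ _).trans ?_
      rw [h3]
      linarith
    rw [norm_smul, hp1, mul_one] at h1
    have h7 : (∑ r, ν i r).re ≤ ‖∑ r, ν i r‖ := Complex.re_le_norm _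
    rw [Complex.re_sum] at h7
    linarith
  -- pigeonhole
  have hRne : (Finset.univ : Finset (Fin R)).Nonempty := by
    have : 0 < R := by exact_mod_cast hR0
    exact ⟨⟨0, this⟩, Finset.mem_univ _⟩
  obtain ⟨r, -, hr⟩ : ∃ r ∈ (Finset.univ : Finset (Fin R)),
      ∑ i, ((ν i r).re + e) ≤ C / R + 2 * k * e := by
    apply Finset.exists_le_of_sum_le hRne
    rw [Finset.sum_comm, Finset.sum_const, Finset.card_univ, Fintype.card_fin, nsmul_eq_mul]
    calc ∑ i, ∑ r, ((ν i r).re + e) = ∑ i, (∑ r, (ν i r).re + R * e) := by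
          refine Finset.sum_congr rfl fun i _ => ?_
          rw [Finset.sum_add_distrib, Finset.sum_const, Finset.card_univ, Fintype.card_fin,
            nsmul_eq_mul]
      _ ≤ ∑ i, (‖y i‖ ^ 2 + R * e + R * e) := by
          refine Finset.sum_le_sum fun i _ => ?_
          linarith [hsum i]
      _ = R * (C / R + 2 * k * e) := by
          rw [Finset.sum_add_distrib, Finset.sum_add_distrib, Finset.sum_const, Finset.card_univ,
            Fintype.card_fin, nsmul_eq_mul, ← hC]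
          field_simp
          ring
  have hνn : ∀ i, ‖ν i r‖ ≤ C / R + 2 * k * e + 2 * e := by
    intro i
    have h1 : (ν i r).re + e ≤ C / R + 2 * k * e := by
      refine le_trans ?_ hr
      refine Finset.single_le_sum (f := fun i => (ν i r).re + e) (fun j _ => ?_)
        (Finset.mem_univ i)
      have := (hmu j r).1
      show 0 ≤ (ν j r).re + e
      linarith
    have h2 := (hmu i r).1
    have h3 := (hmu i r).2
    have h4 : |(ν i r).re| ≤ (ν i r).re + 2 * e := by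
      rw [abs_le]
      constructor <;> linarith
    calc ‖ν i r‖ ≤ |(ν i r).re| + |(ν i r).im| := Complex.norm_le_abs_re_add_abs_im _
      _ ≤ C / R + 2 * k * e + 2 * e := by linarith
  refine ⟨a', cut (1 / 2) (c r), ha', ha'0, haa', ?_, cut_ne (hc r).1 (hc r).2.1, ?_, ?_⟩
  · unfold cut
    exact cfcₙ_nonneg fun x _ => le_max_right _ _
  · refine r5 b (c r) (hc r).2.2 ?_
    exact r6 (c r) _ (hc r).1 (by fun_prop) (by norm_num)
  · intro i x hx z hz
    have h1 := r7 (c r) z (1 / 2) (hc r).1 (by norm_num) hz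
    have h2 := final (hc r).1 h1 (hEx i r x hx)
    have h3 : 4 * (‖ν i r‖ + e) ≤ ε ^ 2 := by
      have := hνn i
      nlinarith
    have h4 : ‖star x * y i * z‖ ^ 2 ≤ (ε * ‖x‖ * ‖z‖) ^ 2 := by
      calc ‖star x * y i * z‖ ^ 2 ≤ 4 * (‖ν i r‖ + e) * ‖x‖ ^ 2 * ‖z‖ ^ 2 := h2
        _ ≤ ε ^ 2 * ‖x‖ ^ 2 * ‖z‖ ^ 2 := by gcongr
        _ = (ε * ‖x‖ * ‖z‖) ^ 2 := by ring
    exact (sq_le_sq₀ (norm_nonneg _) (by positivity)).mp h4

end Pool.Agent.H327R4.SI
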