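import Pool.Agent.H327R4.SI.Stubs

/-! Task X8 of project SI (helper327): matrix algebras over a simple infinite-dimensional
C*-algebra are simple and infinite-dimensional. -/

set_option autoImplicit false
set_option linter.unusedSectionVars false

namespace Pool.Agent.H327R4.SI

open Filter Topology Pool.Agent.H327R4.Pure

universe u

namespace TX8

variable {A : Type u} [CStarAlgebra A] [PartialOrder A] [StarOrderedRing A]

/-- the matrix with the single entry `a` -/
noncomputable def en {N : ℕ} (p q : Fin N) (a : A) : MM N A :=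
  CStarMatrix.ofMatrix (Matrix.single p q a)

theorem en_apply {N : ℕ} (p q i j : Fin N) (a : A) :
    en p q a i j = if p = i ∧ q = j then a else 0 := by
  simp [en, Matrix.single]

theorem en_sandwich {N : ℕ} (p p' q' q : Fin N) (M : MM N A) :
    en p p' 1 * M * en q' q 1 = en p q (M p' q') := by
  ext i j
  simp only [CStarMatrix.mul_apply, en_apply]
  by_cases hi : p = i <;> by_cases hj : q = j <;> simp [hi, hj]

theorem en_mul {N : ℕ} (p q r : Fin N) (a b : A) : en p q a * en q r b = en p r (a * b) := by
  ext i j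
  simp only [CStarMatrix.mul_apply, en_apply]
  by_cases hi : p = i <;> by_cases hj : r = j <;> simp [hi, hj]

/-- the corner embedding -/
noncomputable def cn {N : ℕ} (p : Fin N) : A →⋆ₙₐ[ℂ] MM N A where
  toFun a := en p p a
  map_smul' c a := by
    ext i j
    simp only [CStarMatrix.smul_apply, en_apply]
    split_ifs <;> simp
  map_zero' := by
    ext i j
    simp [en_apply]
  map_add' a b := by
    ext i j
    simp only [CStarMatrix.add_apply, en_apply]
    split_ifs <;> simp
  map_mul' a b := (en_mul p p p a b).symm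
  map_star' a := by
    ext i j
    simp only [CStarMatrix.star_apply, en_apply]
    by_cases hi : p = i <;> by_cases hj : p = j <;> simp [hi, hj] <;> split_ifs <;> simp

theorem cn_apply {N : ℕ} (p : Fin N) (a : A) : cn p a = en p p a := rfl

theorem en_inj {N : ℕ} (p q : Fin N) : Function.Injective (en p q : A → MM N A) := by
  intro a b h
  have h1 : en p q a p q = en p q b p q := by rw [h]
  simpa [en_apply] using h1

theorem sum_en {N : ℕ} : ∑ p : Fin N, en p p (1 : A) = 1 := by
  ext i j
  have h : (∑ p : Fin N, en p p (1 : A)) i j = ∑ p : Fin N, (en p p (1 : A)) i j := by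
    let E : MM N A →+ A := { toFun := fun M => M i j, map_zero' := rfl, map_add' := fun _ _ => rfl }
    exact map_sum E (fun p => en p p (1 : A)) Finset.univ
  rw [h]
  simp only [en_apply, CStarMatrix.one_apply]
  by_cases hij : i = j
  · subst hij; simp
  · have : ∀ p : Fin N, ¬ (p = i ∧ p = j) := by
      rintro p ⟨h1, h2⟩; exact hij (h1.symm.trans h2)
    simp [this, hij]

end TX8

open TX8 in
theorem t_X8 : StX8.{u} := by
  intro A _ _ _ hS hF N hN
  have i0 : Fin N := ⟨0, hN⟩
  have : Nonempty (Fin N) := ⟨i0⟩
  have := hS.1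
  refine ⟨⟨inferInstance, ?_⟩, ?_⟩
  · intro I hI
    let J : TwoSidedIdeal A := TwoSidedIdeal.comap (cn i0 : A →⋆ₙₐ[ℂ] MM N A) I
    have hJ : ∀ a, a ∈ J ↔ en i0 i0 a ∈ I := by
      intro a
      rw [TwoSidedIdeal.mem_comap, cn_apply]
    have hcl : IsClosed (J : Set A) := by
      have hc : Continuous (cn i0 : A →⋆ₙₐ[ℂ] MM N A) := map_continuous _
      have : (J : Set A) = (cn i0 : A →⋆ₙₐ[ℂ] MM N A) ⁻¹' (I : Set (MM N A)) := by
        ext a
        simp only [Set.mem_preimage, SetLike.mem_coe]
        exact hJ a
      rw [this]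
      exact hI.preimage hc
    rcases hS.2 J hcl with h | h
    · left
      rw [eq_bot_iff]
      intro M hM
      rw [TwoSidedIdeal.mem_bot]
      ext p q
      have h1 : en i0 p 1 * M * en q i0 1 ∈ I :=
        I.mul_mem_right _ _ (I.mul_mem_left _ _ hM)
      rw [en_sandwich, ← hJ, h, TwoSidedIdeal.mem_bot] at h1
      simpa using h1
    · right
      have h1 : en i0 i0 (1 : A) ∈ I := by
        rw [← hJ, h]; trivial
      have h2 : (1 : MM N A) ∈ I := by
        rw [← sum_en]
        refine TwoSidedIdeal.finsetSum_mem _ _ _ fun p _ => ?_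
        have h3 : en p i0 (1 : A) * en i0 i0 1 * en i0 p 1 ∈ I :=
          I.mul_mem_right _ _ (I.mul_mem_left _ _ h1)
        rwa [en_mul, en_mul, mul_one, mul_one] at h3
      exact I.eq_top h2
  · intro hfd
    apply hF
    let L : A →ₗ[ℂ] MM N A :=
      { toFun := fun a => en i0 i0 a
        map_add' := fun a b => map_add (cn i0 : A →⋆ₙₐ[ℂ] MM N A) a b
        map_smul' := fun c a => map_smul (cn i0 : A →⋆ₙₐ[ℂ] MM N A) c a }
    exact FiniteDimensional.of_injective L (en_inj i0 i0)

end Pool.Agent.H327R4.SI
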