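import Pool.Agent.H327R4.SI.Stubs
import Pool.Agent.H327R4.Pure.All4

set_option autoImplicit false

namespace Pool.Agent.H327R4.SI

open Filter Topology Pool.Agent.H327R4.Pure

universe u

namespace LBaux

variable {A : Type u} [CStarAlgebra A] [PartialOrder A] [StarOrderedRing A]

lemma comm_pow (f y : A) (hf : ‖f‖ ≤ 1) (δ : ℝ) (h : ‖f * y - y * f‖ ≤ δ) (K : ℕ) :
    ‖f ^ K * y - y * f ^ K‖ ≤ K * δ := by
  have hd : 0 ≤ δ := (norm_nonneg _).trans h
  have hp : ∀ K : ℕ, 1 ≤ K → ‖f ^ K‖ ≤ 1 := by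
    intro K hK
    exact (norm_pow_le' f (by omega)).trans (pow_le_one₀ (norm_nonneg _) hf)
  induction K with
  | zero => simp
  | succ K ih =>
    rcases Nat.eq_zero_or_pos K with rfl | hK
    · simpa using h
    have e : f ^ (K + 1) * y - y * f ^ (K + 1) =
        f ^ K * (f * y - y * f) + (f ^ K * y - y * f ^ K) * f := by
      rw [pow_succ]; noncomm_ring
    rw [e]
    calc ‖f ^ K * (f * y - y * f) + (f ^ K * y - y * f ^ K) * f‖
        ≤ ‖f ^ K‖ * ‖f * y - y * f‖ + ‖f ^ K * y - y * f ^ K‖ * ‖f‖ :=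
          (norm_add_le _ _).trans (add_le_add (norm_mul_le _ _) (norm_mul_le _ _))
      _ ≤ 1 * δ + (K * δ) * 1 := by
          refine add_le_add ?_ ?_
          · exact mul_le_mul (hp K hK) h (norm_nonneg _) zero_le_one
          · exact mul_le_mul ih hf (norm_nonneg _) (by positivity)
      _ = ((K + 1 : ℕ) : ℝ) * δ := by push_cast; ring

lemma tr_sq_le (T : TS A) (q : A) : (T.1.f (star q * q)).re ≤ ‖q‖ ^ 2 := by
  have h1 := (mt' A T.1).1 _ _ (CStarAlgebra.star_mul_le_algebraMap_norm_sq (a := q))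
  refine h1.trans ?_
  have h2 : (algebraMap ℝ A) (‖q‖ ^ 2) = ((‖q‖ ^ 2 : ℝ) : ℂ) • (1 : A) := by
    rw [Algebra.algebraMap_eq_smul_one, Complex.coe_smul]
  rw [h2, map_smul, T.2, smul_eq_mul, mul_one, Complex.ofReal_re]

lemma tr_parallel (T : TS A) (p q : A) :
    (T.1.f (star (p + q) * (p + q))).re ≤
      2 * (T.1.f (star p * p)).re + 2 * (T.1.f (star q * q)).re := by
  have h := (T.1.pos (p - q)).1
  have e : star (p + q) * (p + q) = (2 : ℂ) • (star p * p) + (2 : ℂ) • (star q * q) -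
      star (p - q) * (p - q) := by
    rw [star_add, star_sub, two_smul, two_smul]; noncomm_ring
  rw [e, map_sub, map_add, map_smul, map_smul]
  simp only [Complex.sub_re, Complex.add_re, smul_eq_mul, Complex.mul_re, Complex.re_ofNat,
    Complex.im_ofNat, zero_mul, sub_zero]
  linarith

end LBaux

open LBaux in
theorem t_LB : StLB.{u} := by
  intro A _ _ _ hs h h0 hne
  have hsa : IsSelfAdjoint h := h0.isSelfAdjoint
  have hhh : (0 : A) ≤ h * h := by
    have := mul_star_self_nonneg h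
    rwa [hsa.star_eq] at this
  have hhne : h * h ≠ 0 := by
    intro e
    apply hne
    have : ‖h‖ * ‖h‖ = 0 := by
      rw [← CStarRing.norm_star_mul_self, hsa.star_eq, e, norm_zero]
    exact norm_eq_zero.1 (mul_self_eq_zero.1 this)
  obtain ⟨n, y, hy⟩ := full' A hs (h * h) hhh hhne
  set C : ℝ := 1 + ∑ i, ‖y i‖ ^ 2 with hC
  have hC1 : 1 ≤ C := by
    have : 0 ≤ ∑ i, ‖y i‖ ^ 2 := Finset.sum_nonneg fun i _ => by positivity
    linarith
  refine ⟨n, y, 1 / (16 * C), by positivity, ?_⟩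
  intro K
  -- choose δ with 2 n (‖h‖ K δ)^2 ≤ 1/8
  obtain ⟨δ, hδ, hδ2⟩ : ∃ δ : ℝ, 0 < δ ∧ 2 * n * (‖h‖ * (K * δ)) ^ 2 ≤ 1 / 8 := by
    set M : ℝ := ‖h‖ * K with hM
    have hM0 : 0 ≤ M := by positivity
    refine ⟨1 / (4 * (n + 1) * (M + 1)), by positivity, ?_⟩
    have e : ‖h‖ * ((K : ℝ) * (1 / (4 * (n + 1) * (M + 1)))) = (M / (M + 1)) * (1 / (4 * (n + 1))) := by
      rw [hM]; field_simp
    rw [e]
    have h1 : 0 ≤ M / (M + 1) := by positivity
    have h2 : M / (M + 1) ≤ 1 := by rw [div_le_one (by positivity)]; linarith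
    have h3 : M / (M + 1) * (1 / (4 * ((n : ℝ) + 1))) ≤ 1 / (4 * (n + 1)) := by
      calc M / (M + 1) * (1 / (4 * ((n : ℝ) + 1))) ≤ 1 * (1 / (4 * ((n : ℝ) + 1))) :=
            mul_le_mul_of_nonneg_right h2 (by positivity)
        _ = _ := one_mul _
    have h4 : (M / (M + 1) * (1 / (4 * ((n : ℝ) + 1)))) ^ 2 ≤ (1 / (4 * (n + 1))) ^ 2 :=
      pow_le_pow_left₀ (by positivity) h3 2
    have h5 : 2 * (n : ℝ) * (1 / (4 * ((n : ℝ) + 1))) ^ 2 ≤ 1 / 8 := by
      rw [div_pow, one_pow, mul_one_div, div_le_div_iff₀ (by positivity) (by norm_num)]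
      nlinarith [Nat.cast_nonneg (α := ℝ) n]
    calc 2 * (n : ℝ) * (M / (M + 1) * (1 / (4 * ((n : ℝ) + 1)))) ^ 2
        ≤ 2 * (n : ℝ) * (1 / (4 * (n + 1))) ^ 2 := mul_le_mul_of_nonneg_left h4 (by positivity)
      _ ≤ 1 / 8 := h5
  refine ⟨δ, hδ, ?_⟩
  intro f hf0 hf1 hfy
  have hfsa : IsSelfAdjoint f := hf0.isSelfAdjoint
  have hfn : ‖f‖ ≤ 1 := (CStarAlgebra.norm_le_one_iff_of_nonneg f hf0).2 hf1
  have hgsa : star (f ^ K) = f ^ K := by rw [star_pow, hfsa.star_eq]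
  have hgg : f ^ (2 * K) = f ^ K * f ^ K := by rw [two_mul, pow_add]
  -- the small parts
  set q : Fin n → A := fun i => h * (y i * f ^ K - f ^ K * y i) with hq
  set p : Fin n → A := fun i => h * f ^ K * y i with hp
  have hpq : ∀ i, h * y i * f ^ K = p i + q i := by
    intro i; simp only [hp, hq]; noncomm_ring
  have hqn : ∀ i, ‖q i‖ ≤ ‖h‖ * (K * δ) := by
    intro i
    refine (norm_mul_le _ _).trans (mul_le_mul_of_nonneg_left ?_ (norm_nonneg _))
    rw [norm_sub_rev]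
    exact comm_pow f (y i) hfn δ (hfy i) K
  have hsum : f ^ (2 * K) = ∑ i, star (h * y i * f ^ K) * (h * y i * f ^ K) := by
    calc f ^ (2 * K) = f ^ K * 1 * f ^ K := by rw [mul_one, hgg]
      _ = f ^ K * (∑ i, star (y i) * (h * h) * y i) * f ^ K := by rw [hy]
      _ = _ := by
        rw [Finset.mul_sum, Finset.sum_mul]
        refine Finset.sum_congr rfl fun i _ => ?_
        rw [star_mul, star_mul, hgsa, hsa.star_eq]
        noncomm_ring
  have hhg : ∀ x : A, (h * f ^ K) * x = h * f ^ K * x := fun _ => rfl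
  refine ⟨?_, ?_⟩
  · intro h14
    have hB : ‖h * f ^ K‖ ^ 2 = ‖h * f ^ (2 * K) * h‖ := by
      rw [sq, ← CStarRing.norm_self_mul_star, star_mul, hgsa, hsa.star_eq, hgg]
      congr 1
      noncomm_ring
    have h1 : ‖f ^ (2 * K)‖ ≤ ∑ i, (2 * (‖y i‖ ^ 2 * ‖h * f ^ (2 * K) * h‖) +
        2 * (‖h‖ * (K * δ)) ^ 2) := by
      rw [hsum]
      refine (norm_sum_le _ _).trans (Finset.sum_le_sum fun i _ => ?_)
      rw [CStarRing.norm_star_mul_self, hpq]
      have h2 : ‖p i + q i‖ ≤ ‖h * f ^ K‖ * ‖y i‖ + ‖h‖ * (K * δ) :=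
        (norm_add_le _ _).trans (add_le_add (norm_mul_le _ _) (hqn i))
      have h3 : 0 ≤ ‖p i + q i‖ := norm_nonneg _
      rw [← hsum, ← hB]
      have h4 : 0 ≤ ‖h * f ^ K‖ * ‖y i‖ := by positivity
      have h5 : 0 ≤ ‖h‖ * (K * δ) := by positivity
      nlinarith [sq_nonneg (‖h * f ^ K‖ * ‖y i‖ - ‖h‖ * (K * δ))]
    rw [Finset.sum_add_distrib, Finset.sum_const, Finset.card_univ, Fintype.card_fin,
      nsmul_eq_mul, ← Finset.mul_sum, ← Finset.sum_mul] at h1
    have h2 : (n : ℝ) * (2 * (‖h‖ * (K * δ)) ^ 2) ≤ 1 / 8 := by linarith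
    have h3 : 1 / 8 ≤ 2 * (C * ‖h * f ^ (2 * K) * h‖) := by
      have h5 : (∑ i, ‖y i‖ ^ 2) * ‖h * f ^ (2 * K) * h‖ ≤ C * ‖h * f ^ (2 * K) * h‖ :=
        mul_le_mul_of_nonneg_right (by linarith) (norm_nonneg _)
      linarith
    rw [div_le_iff₀ (by positivity)]
    linarith
  · intro T h14
    have hB : T.1.f (h * f ^ (2 * K) * h) = T.1.f ((h * f ^ K) * star (h * f ^ K)) := by
      rw [star_mul, hgsa, hsa.star_eq, hgg]
      congr 1
      noncomm_ring
    set b : ℝ := (T.1.f (h * f ^ (2 * K) * h)).re with hb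
    have hb0 : 0 ≤ b := by
      rw [hb, hB]
      exact ((mt' A T.1).2.1 _ (mul_star_self_nonneg _)).1
    have h1 : (T.1.f (f ^ (2 * K))).re ≤ ∑ i, (2 * (‖y i‖ ^ 2 * b) +
        2 * (‖h‖ * (K * δ)) ^ 2) := by
      rw [hsum, map_sum, Complex.re_sum]
      refine Finset.sum_le_sum fun i _ => ?_
      rw [hpq]
      refine (tr_parallel T (p i) (q i)).trans ?_
      refine add_le_add ?_ ?_
      · refine mul_le_mul_of_nonneg_left ?_ (by norm_num)
        rw [T.1.tr]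
        have e : p i * star (p i) = (h * f ^ K) * (y i * star (y i)) * star (h * f ^ K) := by
          simp only [hp, star_mul]; noncomm_ring
        rw [e]
        have h2 := star_right_conjugate_le_conjugate
          (CStarAlgebra.mul_star_le_algebraMap_norm_sq (a := y i)) (h * f ^ K)
        have h3 : (algebraMap ℝ A) (‖y i‖ ^ 2) = ((‖y i‖ ^ 2 : ℝ) : ℂ) • (1 : A) := by
          rw [Algebra.algebraMap_eq_smul_one, Complex.coe_smul]
        rw [h3, mul_smul_comm, smul_mul_assoc, mul_one] at h2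
        refine ((mt' A T.1).1 _ _ h2).trans (le_of_eq ?_)
        rw [map_smul, ← hB, smul_eq_mul, Complex.re_ofReal_mul]
      · refine mul_le_mul_of_nonneg_left ?_ (by norm_num)
        exact (tr_sq_le T (q i)).trans (pow_le_pow_left₀ (norm_nonneg _) (hqn i) 2)
    rw [Finset.sum_add_distrib, Finset.sum_const, Finset.card_univ, Fintype.card_fin,
      nsmul_eq_mul, ← Finset.mul_sum, ← Finset.sum_mul] at h1
    have h2 : (n : ℝ) * (2 * (‖h‖ * (K * δ)) ^ 2) ≤ 1 / 8 := by linarith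
    have h3 : 1 / 8 ≤ 2 * (C * b) := by
      have h5 : (∑ i, ‖y i‖ ^ 2) * b ≤ C * b :=
        mul_le_mul_of_nonneg_right (by linarith) hb0
      linarith
    rw [div_le_iff₀ (by positivity)]
    linarith

end Pool.Agent.H327R4.SI
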