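import Pool.Agent.H327R4.SI.Stubs

set_option autoImplicit false

namespace Pool.Agent.H327R4.SI

open Filter Topology Pool.Agent.H327R4.Pure

universe u

theorem fcom_pow {A : Type u} [CStarAlgebra A] (x y : A) (hx : ‖x‖ ≤ 1) (n : ℕ) :
    ‖x ^ n * y - y * x ^ n‖ ≤ n * ‖x * y - y * x‖ := by
  induction n with
  | zero => simp
  | succ n ih =>
    have e : x ^ (n + 1) * y - y * x ^ (n + 1) =
        x ^ n * (x * y - y * x) + (x ^ n * y - y * x ^ n) * x := by
      rw [pow_succ]
      noncomm_ring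
    rw [e]
    have h1 : ‖x ^ n * (x * y - y * x)‖ ≤ ‖x * y - y * x‖ := by
      rcases Nat.eq_zero_or_pos n with hn | hn
      · subst hn
        simp
      · refine (norm_mul_le _ _).trans ?_
        refine mul_le_of_le_one_left (norm_nonneg _) ?_
        exact (norm_pow_le' x hn).trans (pow_le_one₀ (norm_nonneg _) hx)
    have h2 : ‖(x ^ n * y - y * x ^ n) * x‖ ≤ n * ‖x * y - y * x‖ :=
      (norm_mul_le _ _).trans ((mul_le_of_le_one_right (norm_nonneg _) hx).trans ih)
    refine (norm_add_le _ _).trans ?_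
    push_cast
    linarith

/-- FCOM -/
theorem t_FCOM : StFCOM.{u} := by
  intro f η hf hη
  obtain ⟨P, hP⟩ := exists_polynomial_near_of_continuousOn 0 1 f hf (η / 4) (by positivity)
  set D : ℝ := ∑ i ∈ Finset.range (P.natDegree + 1), |P.coeff i| * i with hD
  have hD0 : 0 ≤ D := Finset.sum_nonneg fun i _ => by positivity
  refine ⟨η / (2 * (1 + D)), by positivity, ?_⟩
  intro A _ _ _ x y hx0 hx1 hy hxy
  have hsa : IsSelfAdjoint x := IsSelfAdjoint.of_nonneg hx0
  have hspec : ∀ t ∈ spectrum ℝ x, t ∈ Set.Icc (0 : ℝ) 1 := by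
    intro t ht
    refine ⟨spectrum_nonneg_of_nonneg hx0 ht, ?_⟩
    have h : x ≤ algebraMap ℝ A 1 := by rwa [map_one]
    exact (le_algebraMap_iff_spectrum_le (R := ℝ) (a := x) (r := 1)).1 h t ht
  have hxn : ‖x‖ ≤ 1 := (CStarAlgebra.norm_le_one_iff_of_nonneg x hx0).2 hx1
  have hfc : ContinuousOn f (spectrum ℝ x) := hf.mono hspec
  have hPc : ContinuousOn (fun t => P.eval t) (spectrum ℝ x) := P.continuous.continuousOn
  have h1 : ‖cfc f x - cfc (fun t => P.eval t) x‖ ≤ η / 4 := by
    rw [← cfc_sub f (fun t => P.eval t) x hfc hPc]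
    refine norm_cfc_le (by positivity) fun t ht => ?_
    rw [Real.norm_eq_abs, abs_sub_comm]
    exact (hP t (hspec t ht)).le
  have h2 : cfc (fun t => P.eval t) x = Polynomial.aeval x P := cfc_polynomial P x hsa
  have h3 : ‖Polynomial.aeval x P * y - y * Polynomial.aeval x P‖ ≤ D * ‖x * y - y * x‖ := by
    rw [Polynomial.aeval_eq_sum_range, Finset.sum_mul, Finset.mul_sum, ← Finset.sum_sub_distrib,
      hD, Finset.sum_mul]
    refine (norm_sum_le _ _).trans (Finset.sum_le_sum fun i _ => ?_)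
    rw [smul_mul_assoc, mul_smul_comm, ← smul_sub, norm_smul, Real.norm_eq_abs, mul_assoc]
    exact mul_le_mul_of_nonneg_left (fcom_pow x y hxn i) (abs_nonneg _)
  have e : cfc f x * y - y * cfc f x =
      (cfc f x - cfc (fun t => P.eval t) x) * y - y * (cfc f x - cfc (fun t => P.eval t) x) +
      (Polynomial.aeval x P * y - y * Polynomial.aeval x P) := by
    rw [h2]
    noncomm_ring
  rw [e]
  have h4 : ‖(cfc f x - cfc (fun t => P.eval t) x) * y‖ ≤ η / 4 :=
    (norm_mul_le _ _).trans ((mul_le_of_le_one_right (norm_nonneg _) hy).trans h1)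
  have h5 : ‖y * (cfc f x - cfc (fun t => P.eval t) x)‖ ≤ η / 4 :=
    (norm_mul_le _ _).trans ((mul_le_of_le_one_left (norm_nonneg _) hy).trans h1)
  have h6 : D * ‖x * y - y * x‖ ≤ η / 2 := by
    calc D * ‖x * y - y * x‖ ≤ D * (η / (2 * (1 + D))) := mul_le_mul_of_nonneg_left hxy hD0
      _ = η / 2 * (D / (1 + D)) := by
          field_simp
      _ ≤ η / 2 * 1 := by
          refine mul_le_mul_of_nonneg_left ?_ (by positivity)
          rw [div_le_one (by positivity)]
          linarith
      _ = η / 2 := mul_one _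
  refine (norm_add_le _ _).trans ?_
  have h7 := norm_sub_le ((cfc f x - cfc (fun t => P.eval t) x) * y)
    (y * (cfc f x - cfc (fun t => P.eval t) x))
  linarith

end Pool.Agent.H327R4.SI
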