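import Pool.Agent.H327R4.SI.Stubs
import Pool.Agent.H327R4.Pure.All4

/-! RIB: basic facts on right ideals. -/

set_option autoImplicit false

namespace Pool.Agent.H327R4.SI

open Filter Topology Pool.Agent.H327R4.Pure

universe u

section

variable {B : Type u} [CStarAlgebra B]

theorem rib_mul (a x t : B) (hx : x ∈ RI a) : x * t ∈ RI a := by
  unfold RI at hx ⊢
  refine map_mem_closure (f := fun y : B => y * t) (by fun_prop) hx ?_
  rintro _ ⟨s, rfl⟩
  exact ⟨s * t, (mul_assoc a s t).symm⟩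

theorem rib_sub (a b : B) (hb : b ∈ RI a) : RI b ⊆ RI a := by
  refine closure_minimal ?_ isClosed_closure
  rintro _ ⟨s, rfl⟩
  exact rib_mul a b s hb

variable [PartialOrder B] [StarOrderedRing B]

theorem rib_fun (a : B) (f : ℝ → ℝ) (ha : 0 ≤ a) (hf : Continuous f) (hf0 : f 0 = 0) :
    cfcₙ f a ∈ RI a := by
  unfold RI
  rw [Metric.mem_closure_iff]
  intro ε hε
  have hR : ∀ t ∈ quasispectrum ℝ a, t ∈ Set.Icc 0 ‖a‖ := by
    intro t ht
    have h1 := quasispectrum_nonneg_of_nonneg a ha t ht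
    have h2 := NonUnitalIsometricContinuousFunctionalCalculus.norm_quasispectrum_le
      a ht ha.isSelfAdjoint
    rw [Real.norm_eq_abs] at h2
    exact ⟨h1, (le_abs_self t).trans h2⟩
  obtain ⟨η, hη, hη2⟩ := Metric.continuous_iff.1 hf 0 (ε / 2) (by positivity)
  obtain ⟨M, hM⟩ := (isCompact_Icc (a := (0 : ℝ)) (b := ‖a‖)).exists_bound_of_continuousOn
    hf.continuousOn
  have hM0 : 0 ≤ M := (norm_nonneg _).trans (hM 0 ⟨le_rfl, norm_nonneg _⟩)
  set δ : ℝ := η * ε / (2 * (M + 1)) with hδ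
  have hδ0 : 0 < δ := by positivity
  set h : ℝ → ℝ := fun t => f t / (|t| + δ) with hh
  have hne : ∀ t : ℝ, |t| + δ ≠ 0 := fun t => by positivity
  have hhc : Continuous h := by
    rw [hh]
    exact hf.div (by fun_prop) hne
  have hh0 : h 0 = 0 := by simp [hh, hf0]
  refine ⟨a * cfcₙ h a, ⟨_, rfl⟩, ?_⟩
  have e1 : a * cfcₙ h a = cfcₙ (fun t : ℝ => t * h t) a := by
    rw [cfcₙ_mul (fun t : ℝ => t) h a (by fun_prop) (by simp) hhc.continuousOn hh0,
      cfcₙ_id' ℝ a ha.isSelfAdjoint]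
  rw [dist_eq_norm, e1]
  have hgc : Continuous fun t : ℝ => t * h t := by fun_prop
  have h2 := swap_close a ha.isSelfAdjoint ‖a‖ (ε / 2) hR f (fun t : ℝ => t * h t) hf hgc hf0
    (by simp) ?_
  · linarith
  intro t ht
  have ht0 : |t| = t := abs_of_nonneg ht.1
  have h3 : f t - t * h t = f t * (δ / (t + δ)) := by
    have : t + δ ≠ 0 := by have := ht.1; positivity
    simp only [hh]
    rw [ht0]
    field_simp
    ring
  rw [h3, abs_mul]
  have h4 : 0 ≤ δ / (t + δ) := by have := ht.1; positivity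
  rw [abs_of_nonneg h4]
  have h6 : δ / (t + δ) ≤ 1 := by
    rw [div_le_one (by have := ht.1; positivity)]
    linarith [ht.1]
  rcases lt_or_ge t η with h5 | h5
  · have := hη2 t (by rw [dist_zero_right, Real.norm_eq_abs, ht0]; exact h5)
    rw [hf0, dist_zero_right, Real.norm_eq_abs] at this
    calc |f t| * (δ / (t + δ)) ≤ ε / 2 * 1 :=
          mul_le_mul this.le h6 h4 (by positivity)
      _ = ε / 2 := mul_one _
  · have h7 := hM t ht
    rw [Real.norm_eq_abs] at h7
    calc |f t| * (δ / (t + δ)) ≤ M * (δ / η) := by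
          apply mul_le_mul h7 _ h4 hM0
          apply div_le_div_of_nonneg_left hδ0.le hη
          linarith
      _ ≤ ε / 2 := by
          have : M * (δ / η) = (M / (M + 1)) * (ε / 2) := by
            rw [hδ]; field_simp
          rw [this]
          have h8 : M / (M + 1) ≤ 1 := by
            rw [div_le_one (by positivity)]; linarith
          calc M / (M + 1) * (ε / 2) ≤ 1 * (ε / 2) :=
                mul_le_mul_of_nonneg_right h8 (by positivity)
            _ = ε / 2 := one_mul _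

theorem rib_phi (a x : B) (ε : ℝ) (hε : 0 < ε) (hx : x ∈ RI (cut ε a)) :
    phi ε a * x = x := by
  have hcl : IsClosed {x : B | phi ε a * x = x} :=
    isClosed_eq (by fun_prop) continuous_id
  have h1 : phi ε a * cut ε a = cut ε a := by
    unfold phi cut
    rw [← cfcₙ_mul (fun x : ℝ => min 1 (x / ε)) (fun x : ℝ => max (x - ε) 0) a
      (by fun_prop) (by simp) (by fun_prop) (by simp [hε.le])]
    apply cfcₙ_congr
    intro t _
    simp only []
    rcases le_or_gt t ε with h | h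
    · have : max (t - ε) 0 = 0 := max_eq_right (by linarith)
      rw [this, mul_zero]
    · have : min 1 (t / ε) = 1 := min_eq_left ((one_le_div hε).2 h.le)
      rw [this, one_mul]
  have h2 : RI (cut ε a) ⊆ {x : B | phi ε a * x = x} := by
    refine closure_minimal ?_ hcl
    rintro _ ⟨s, rfl⟩
    simp only [Set.mem_setOf_eq]
    rw [← mul_assoc, h1]
  exact h2 hx

theorem rib_dom (a x : B) (M : ℝ) (ha : 0 ≤ a) (hx : x * star x ≤ M • a) : x ∈ RI a := by
  unfold RI
  rw [Metric.mem_closure_iff]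
  intro ε hε
  have hsa : IsSelfAdjoint a := IsSelfAdjoint.of_nonneg ha
  set δ : ℝ := ε ^ 2 / (2 * (|M| + 1)) with hδ
  have hδ0 : 0 < δ := by positivity
  have hne : ∀ t : ℝ, |t| + δ ≠ 0 := fun t => by positivity
  set v : B := cfc (fun t : ℝ => (|t| + δ)⁻¹) a with hv
  set u : B := cfc (fun t : ℝ => δ * (|t| + δ)⁻¹) a with hu
  have hcv : Continuous (fun t : ℝ => (|t| + δ)⁻¹) := Continuous.inv₀ (by fun_prop) hne
  have hcu : Continuous (fun t : ℝ => δ * (|t| + δ)⁻¹) := by fun_prop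
  have husa : IsSelfAdjoint u := cfc_predicate _ a
  have e1 : a * v = 1 - u := by
    have h1 : a * v = cfc (fun t : ℝ => t * (|t| + δ)⁻¹) a := by
      rw [cfc_mul (fun t : ℝ => t) (fun t : ℝ => (|t| + δ)⁻¹) a (by fun_prop) hcv.continuousOn,
        cfc_id' ℝ a hsa]
    have h2 : (1 : B) - u = cfc (fun t : ℝ => 1 - δ * (|t| + δ)⁻¹) a := by
      rw [cfc_sub (fun _ : ℝ => (1 : ℝ)) (fun t : ℝ => δ * (|t| + δ)⁻¹) a (by fun_prop)
        hcu.continuousOn, cfc_const_one ℝ a hsa]
    rw [h1, h2]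
    apply cfc_congr
    intro t ht
    have ht0 : 0 ≤ t := spectrum_nonneg_of_nonneg ha ht
    have h3 : t + δ ≠ 0 := by positivity
    simp only []
    rw [abs_of_nonneg ht0]
    field_simp
    ring
  refine ⟨a * (v * x), ⟨_, rfl⟩, ?_⟩
  have e2 : x - a * (v * x) = u * x := by
    rw [← mul_assoc, e1, sub_mul, one_mul, sub_sub_cancel]
  rw [dist_eq_norm, e2]
  have e3 : u * x * star (u * x) = u * (x * star x) * star u := by
    rw [star_mul]; simp only [mul_assoc]
  have h4 : u * x * star (u * x) ≤ u * (M • a) * star u := by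
    rw [e3]
    exact star_right_conjugate_le_conjugate hx u
  have h5 : ‖u * x * star (u * x)‖ ≤ ‖u * (M • a) * star u‖ :=
    CStarAlgebra.norm_le_norm_of_nonneg_of_le (mul_star_self_nonneg _) h4
  have h6 : u * (M • a) * star u = M • cfc (fun t : ℝ => δ * (|t| + δ)⁻¹ * t * (δ * (|t| + δ)⁻¹)) a := by
    rw [husa.star_eq, mul_smul_comm, smul_mul_assoc]
    congr 1
    rw [cfc_mul (fun t : ℝ => δ * (|t| + δ)⁻¹ * t) (fun t : ℝ => δ * (|t| + δ)⁻¹) a
      (by fun_prop) hcu.continuousOn,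
      cfc_mul (fun t : ℝ => δ * (|t| + δ)⁻¹) (fun t : ℝ => t) a hcu.continuousOn (by fun_prop),
      cfc_id' ℝ a hsa]
  have h7 : ‖cfc (fun t : ℝ => δ * (|t| + δ)⁻¹ * t * (δ * (|t| + δ)⁻¹)) a‖ ≤ δ := by
    apply norm_cfc_le hδ0.le
    intro t ht
    have ht0 : 0 ≤ t := spectrum_nonneg_of_nonneg ha ht
    rw [Real.norm_eq_abs, abs_of_nonneg (by positivity), abs_of_nonneg ht0]
    have h8 : δ * (t + δ)⁻¹ ≤ 1 := by
      rw [← div_eq_mul_inv, div_le_one (by positivity)]; linarith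
    have h9 : t * (t + δ)⁻¹ ≤ 1 := by
      rw [← div_eq_mul_inv, div_le_one (by positivity)]; linarith
    calc δ * (t + δ)⁻¹ * t * (δ * (t + δ)⁻¹) = (δ * (t + δ)⁻¹) * (t * (t + δ)⁻¹) * δ := by ring
      _ ≤ 1 * 1 * δ := by
          apply mul_le_mul_of_nonneg_right _ hδ0.le
          apply mul_le_mul h8 h9 (by positivity) (by norm_num)
      _ = δ := by ring
  have h8 : ‖u * x‖ ^ 2 ≤ |M| * δ := by
    have : ‖u * x * star (u * x)‖ = ‖u * x‖ ^ 2 := by
      rw [CStarRing.norm_self_mul_star, sq]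
    rw [← this]
    refine h5.trans ?_
    rw [h6, norm_smul, Real.norm_eq_abs]
    exact mul_le_mul_of_nonneg_left h7 (abs_nonneg _)
  have h9 : |M| * δ < ε ^ 2 := by
    have h10 : |M| * δ = (|M| / (|M| + 1)) * (ε ^ 2 / 2) := by
      rw [hδ]; field_simp
    rw [h10]
    have h11 : |M| / (|M| + 1) ≤ 1 := by
      rw [div_le_one (by positivity)]; linarith
    have h12 : 0 < ε ^ 2 := by positivity
    calc |M| / (|M| + 1) * (ε ^ 2 / 2) ≤ 1 * (ε ^ 2 / 2) :=
          mul_le_mul_of_nonneg_right h11 (by positivity)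
      _ < ε ^ 2 := by linarith
  exact lt_of_pow_lt_pow_left₀ 2 hε.le (h8.trans_lt h9)

end

theorem t_RIB : StRIB.{u} := by
  intro B _ _ _
  refine ⟨?_, ?_, ?_, ?_, ?_, ?_, ?_, ?_, ?_⟩
  · intro a
    exact subset_closure ⟨1, mul_one a⟩
  · intro a x t hx
    exact rib_mul a x t hx
  · intro a x y hx hy
    unfold RI at hx hy ⊢
    refine map_mem_closure₂ continuous_add hx hy ?_
    rintro _ ⟨s, rfl⟩ _ ⟨t, rfl⟩
    exact ⟨s + t, mul_add a s t⟩
  · intro a x c hx
    unfold RI at hx ⊢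
    refine map_mem_closure (f := fun y : B => c • y) (by fun_prop) hx ?_
    rintro _ ⟨s, rfl⟩
    exact ⟨c • s, mul_smul_comm c a s⟩
  · intro a b hb
    exact rib_sub a b hb
  · intro a f ha hf hf0
    exact rib_fun a f ha hf hf0
  · intro a x ε _ hε hx
    exact rib_phi a x ε hε hx
  · intro a x M ha hx
    exact rib_dom a x M ha hx
  · intro a _ b hb _
    exact rib_sub a b hb

end Pool.Agent.H327R4.SI
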