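import Pool.Agent.H327R4.SI.Stubs
import Pool.Agent.H327R4.Pure.TCT

/-!
# X1: excision of one self-adjoint element
-/

set_option autoImplicit false

namespace Pool.Agent.H327R4.SI

open Filter Topology Pool.Agent.H327R4.Pure

universe u

section x1

variable {B : Type u} [CStarAlgebra B] [PartialOrder B] [StarOrderedRing B]

/-- from norm bounds on the right ideal to an operator inequality -/
theorem x1_le (hR : StRIB.{u}) (a y1 : B) (S : ℝ) (hy : 0 ≤ y1)
    (hS : ∀ x ∈ RI a, ‖x‖ ≤ 1 → ‖star x * y1 * x‖ ≤ S) (z : B) (hz : z ∈ RI a) :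
    star z * y1 * z ≤ S • (star z * z) := by
  obtain ⟨-, hmul, -, -, -, -, -, -, -⟩ := hR B
  have key : ∀ r : ℝ, 0 < r → star z * y1 * z ≤ S • (star z * z + algebraMap ℝ B r) := by
    intro r hr
    set h : B := star z * z + algebraMap ℝ B r with hh
    have hz0 : 0 ≤ star z * z := star_mul_self_nonneg z
    have hr0 : (0 : B) ≤ algebraMap ℝ B r := by
      rw [Algebra.algebraMap_eq_smul_one]
      exact smul_nonneg hr.le zero_le_one
    have hh0 : 0 ≤ h := add_nonneg hz0 hr0
    have hrh : algebraMap ℝ B r ≤ h := by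
      rw [hh]
      exact le_add_of_nonneg_left hz0
    have hhu : IsUnit h := by
      have hru : IsUnit (algebraMap ℝ B r) :=
        (IsUnit.mk0 r hr.ne').map (algebraMap ℝ B)
      exact CStarAlgebra.isUnit_of_le _ hrh ⟨hr0, hru⟩
    have hqq : CFC.sqrt h * CFC.sqrt h = h := CFC.sqrt_mul_sqrt_self h hh0
    have hq0 : 0 ≤ CFC.sqrt h := CFC.sqrt_nonneg h
    have hqs : star (CFC.sqrt h) = CFC.sqrt h := (IsSelfAdjoint.of_nonneg hq0).star_eq
    set q : B := CFC.sqrt h with hq
    have hqu : IsUnit q := by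
      have : IsUnit (q * q) := by rw [hqq]; exact hhu
      exact (Commute.isUnit_mul_iff (Commute.refl q)).1 this |>.1
    obtain ⟨Q, hQ⟩ := hqu
    set t : B := ((Q⁻¹ : Bˣ) : B) with ht
    have hqt : q * t = 1 := by rw [← hQ, ht]; exact Units.mul_inv Q
    have htq : t * q = 1 := by rw [← hQ, ht]; exact Units.inv_mul Q
    have hts : star t = t := by
      have h1 : star t * q = 1 := by
        have := congrArg star hqt
        rwa [star_mul, hqs, star_one] at this
      calc star t = star t * (q * t) := by rw [hqt, mul_one]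
        _ = star t * q * t := by rw [mul_assoc]
        _ = t := by rw [h1, one_mul]
    have hzt : ‖z * t‖ ≤ 1 := by
      have h1 : star (z * t) * (z * t) ≤ 1 := by
        calc star (z * t) * (z * t) = star t * (star z * z) * t := by
              simp only [star_mul, mul_assoc]
          _ ≤ star t * h * t := star_left_conjugate_le_conjugate (le_add_of_nonneg_right hr0) t
          _ = 1 := by
              rw [hts, ← hqq, ← mul_assoc, htq, one_mul, hqt]
      have h2 : ‖star (z * t) * (z * t)‖ ≤ 1 :=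
        (CStarAlgebra.norm_le_one_iff_of_nonneg _ (star_mul_self_nonneg _)).2 h1
      rw [CStarRing.norm_star_mul_self] at h2
      nlinarith [norm_nonneg (z * t)]
    have h3 : ‖star (z * t) * y1 * (z * t)‖ ≤ S := hS _ (hmul a z t hz) hzt
    have h4 : 0 ≤ star (z * t) * y1 * (z * t) := star_left_conjugate_nonneg hy _
    have h5 : star (z * t) * y1 * (z * t) ≤ algebraMap ℝ B S :=
      (IsSelfAdjoint.of_nonneg h4).le_algebraMap_norm_self.trans
        (algebraMap_mono B h3)
    have h6 := star_left_conjugate_le_conjugate h5 q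
    have h7 : star q * (star (z * t) * y1 * (z * t)) * q = star z * y1 * z := by
      calc star q * (star (z * t) * y1 * (z * t)) * q
          = (q * star t) * (star z * y1 * z) * (t * q) := by
            rw [star_mul, hqs]; simp only [mul_assoc]
        _ = star z * y1 * z := by rw [hts, hqt, htq, one_mul, mul_one]
    have h8 : star q * algebraMap ℝ B S * q = S • h := by
      rw [hqs, Algebra.algebraMap_eq_smul_one, mul_smul_comm, smul_mul_assoc, mul_one, hqq]
    rw [h7, h8] at h6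
    exact h6
  have hlim : Tendsto (fun r : ℝ => S • (star z * z + algebraMap ℝ B r)) (𝓝[>] 0)
      (𝓝 (S • (star z * z + algebraMap ℝ B 0))) := by
    apply Tendsto.mono_left _ nhdsWithin_le_nhds
    apply Continuous.tendsto
    fun_prop
  rw [map_zero, add_zero] at hlim
  refine ge_of_tendsto hlim ?_
  filter_upwards [self_mem_nhdsWithin] with r hr
  exact key r hr

/-- `phi δ a` is an approximate left unit on the right ideal of `a` -/
theorem x1_unit (hR : StRIB.{u}) {a : B} (ha : 0 ≤ a) {x : B} (hx : x ∈ RI a) {η : ℝ}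
    (hη : 0 < η) : ∃ δ : ℝ, 0 < δ ∧ ‖phi δ a * x - x‖ ≤ η := by
  obtain ⟨hself, -, -, -, -, -, hph, -, -⟩ := hR B
  obtain ⟨-, -, -, -, -, hc6, -, hc8, -⟩ := ct_holds B a ha
  obtain ⟨w, ⟨t, rfl⟩, hwt⟩ := Metric.mem_closure_iff.1 hx (η / 4) (by positivity)
  simp only at hwt
  rw [dist_eq_norm] at hwt
  set δ : ℝ := η / (4 * (‖t‖ + 1)) with hδ
  have ht0 : 0 ≤ ‖t‖ := norm_nonneg t
  have hδ0 : 0 < δ := by positivity
  refine ⟨δ, hδ0, ?_⟩
  have h1 : ‖phi δ a‖ ≤ 1 := (hc8 δ hδ0).2.1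
  have h2 : phi δ a * cut δ a = cut δ a := hph a (cut δ a) δ ha hδ0 (hself _)
  have h3 : ‖a - cut δ a‖ ≤ δ := hc6 δ hδ0.le
  have h4 : ‖phi δ a * a - a‖ ≤ 2 * δ := by
    have e : phi δ a * a - a = phi δ a * (a - cut δ a) - (a - cut δ a) := by
      rw [mul_sub, h2]; abel
    rw [e]
    calc _ ≤ ‖phi δ a * (a - cut δ a)‖ + ‖a - cut δ a‖ := norm_sub_le _ _
      _ ≤ ‖phi δ a‖ * ‖a - cut δ a‖ + ‖a - cut δ a‖ := by gcongr; exact norm_mul_le _ _
      _ ≤ 1 * δ + δ := by gcongr
      _ = 2 * δ := by ring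
  have e : phi δ a * x - x = phi δ a * (x - a * t) + (phi δ a * a - a) * t - (x - a * t) := by
    noncomm_ring
  rw [e]
  have h5 : 2 * δ * ‖t‖ ≤ η / 2 := by
    have : δ * (‖t‖ + 1) = η / 4 := by rw [hδ]; field_simp
    nlinarith
  calc _ ≤ ‖phi δ a * (x - a * t) + (phi δ a * a - a) * t‖ + ‖x - a * t‖ := norm_sub_le _ _
    _ ≤ ‖phi δ a * (x - a * t)‖ + ‖(phi δ a * a - a) * t‖ + ‖x - a * t‖ := by
        gcongr; exact norm_add_le _ _
    _ ≤ ‖phi δ a‖ * ‖x - a * t‖ + ‖phi δ a * a - a‖ * ‖t‖ + ‖x - a * t‖ := by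
        gcongr <;> exact norm_mul_le _ _
    _ ≤ 1 * (η / 4) + 2 * δ * ‖t‖ + η / 4 := by gcongr
    _ ≤ η := by linarith

/-- `θ phi θ b ≤ b` -/
theorem x1_phi {b : B} (hb : 0 ≤ b) {θ : ℝ} (hθ : 0 < θ) : θ • phi θ b ≤ b := by
  have hsa : IsSelfAdjoint b := IsSelfAdjoint.of_nonneg hb
  have hc : Continuous (fun x : ℝ => min 1 (x / θ)) := by fun_prop
  have h0 : (fun x : ℝ => min 1 (x / θ)) 0 = 0 := by simp
  unfold phi
  rw [← cfcₙ_smul θ _ b hc.continuousOn h0]
  conv_rhs => rw [← cfcₙ_id ℝ b]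
  have hc' : Continuous (fun x : ℝ => θ • min 1 (x / θ)) := by fun_prop
  refine cfcₙ_mono (fun x hx => ?_) (hf := hc'.continuousOn) (hg := continuous_id.continuousOn)
    (hf0 := by simp) (hg0 := rfl)
  have hx0 : 0 ≤ x := ct_spec hb hx
  simp only [smul_eq_mul, id_eq]
  calc θ * min 1 (x / θ) ≤ θ * (x / θ) := by gcongr; exact min_le_right _ _
    _ = x := by field_simp

end x1

theorem t_X1 (hR : StRIB.{u}) : StX1.{u} := by
  intro B _ _ _ a y ε ha ha0 hy hε
  obtain ⟨hself, hmul, hadd, hsm, hsub, hcf, hph, -, -⟩ := hR B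
  obtain ⟨-, -, -, -, -, -, -, hc8, -⟩ := ct_holds B a ha
  have : Nontrivial B := ⟨⟨a, 0, ha0⟩⟩
  -- the shifted element
  set c : ℝ := ‖y‖ + 1 with hc
  set y1 : B := y + algebraMap ℝ B c with hy1
  have hy1one : 1 ≤ y1 := by
    have h1 : -y ≤ algebraMap ℝ B ‖y‖ := by
      have := hy.neg.le_algebraMap_norm_self
      rwa [norm_neg] at this
    have h2 : (0 : B) ≤ y + algebraMap ℝ B ‖y‖ := by
      rw [← neg_le_iff_add_nonneg']; exact h1
    rw [hy1, hc, map_add, map_one, ← add_assoc]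
    exact le_add_of_nonneg_left h2
  have hy10 : 0 ≤ y1 := zero_le_one.trans hy1one
  have hphiRI : ∀ δ : ℝ, 0 < δ → phi δ a ∈ RI a := by
    intro δ hδ
    exact hcf a (fun x : ℝ => min 1 (x / δ)) ha (by fun_prop) (by simp)
  set κ : ℝ := ‖y1‖ with hκ
  have hκ0 : 0 ≤ κ := norm_nonneg _
  have hquad : ∀ x : B, ‖star x * y1 * x‖ ≤ κ * ‖x‖ ^ 2 := by
    intro x
    calc ‖star x * y1 * x‖ ≤ ‖star x * y1‖ * ‖x‖ := norm_mul_le _ _
      _ ≤ ‖star x‖ * ‖y1‖ * ‖x‖ := by gcongr; exact norm_mul_le _ _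
      _ = κ * ‖x‖ ^ 2 := by rw [norm_star]; ring
  -- the supremum
  set V : Set ℝ := (fun x : B => ‖star x * y1 * x‖) '' {x | x ∈ RI a ∧ ‖x‖ ≤ 1} with hV
  have hVb : BddAbove V := by
    refine ⟨κ, ?_⟩
    rintro _ ⟨x, ⟨-, hx⟩, rfl⟩
    refine (hquad x).trans ?_
    have : ‖x‖ ^ 2 ≤ 1 := pow_le_one₀ (norm_nonneg _) hx
    nlinarith
  set S : ℝ := sSup V with hS
  have hSx : ∀ x ∈ RI a, ‖x‖ ≤ 1 → ‖star x * y1 * x‖ ≤ S := fun x hx hx1 =>
    le_csSup hVb ⟨x, ⟨hx, hx1⟩, rfl⟩
  have hVne : V.Nonempty := ⟨_, phi 1 a, ⟨hphiRI 1 one_pos, (hc8 1 one_pos).2.1⟩, rfl⟩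
  have hS0 : 0 < S := by
    have h1 : phi 1 a ≠ 0 := (hc8 1 one_pos).2.2 ha0
    have h2 := hSx _ (hphiRI 1 one_pos) (hc8 1 one_pos).2.1
    have h3 : star (phi 1 a) * 1 * phi 1 a ≤ star (phi 1 a) * y1 * phi 1 a :=
      star_left_conjugate_le_conjugate hy1one _
    rw [mul_one] at h3
    have h4 : ‖star (phi 1 a) * phi 1 a‖ ≤ ‖star (phi 1 a) * y1 * phi 1 a‖ :=
      CStarAlgebra.norm_le_norm_of_nonneg_of_le (star_mul_self_nonneg _) h3
    rw [CStarRing.norm_star_mul_self] at h4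
    have h5 : 0 < ‖phi 1 a‖ := norm_pos_iff.2 h1
    nlinarith
  have hle := x1_le hR a y1 S hy10 hSx
  -- the parameters
  set ρ : ℝ := ε / (4 * (κ + 1)) with hρ
  have hρ0 : 0 < ρ := by positivity
  set d : ℝ := min (S / 2) (min (ε / 2) (S * ρ ^ 2)) with hd
  have hd0 : 0 < d := by
    rw [hd]; refine lt_min (by positivity) (lt_min (by positivity) (by positivity))
  have hd1 : d ≤ S / 2 := min_le_left _ _
  have hd2 : d ≤ ε / 2 := (min_le_right _ _).trans (min_le_left _ _)
  have hd3 : d ≤ S * ρ ^ 2 := (min_le_right _ _).trans (min_le_right _ _)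
  set θ : ℝ := S - d with hθ
  have hθ0 : 0 < θ := by linarith
  -- the element `a2`
  obtain ⟨a2, ha2, ha2n, ha20, ha2b⟩ : ∃ a2 : B, a2 ∈ RI a ∧ ‖a2‖ ≤ 1 ∧ 0 ≤ a2 ∧
      θ < ‖star a2 * y1 * a2‖ := by
    obtain ⟨_, ⟨x, ⟨hxa, hx1⟩, rfl⟩, hxl⟩ := exists_lt_of_lt_csSup hVne
      (show S - d / 2 < sSup V by rw [← hS]; linarith)
    simp only at hxl
    obtain ⟨δ, hδ, hδx⟩ := x1_unit hR ha hxa (η := d / (4 * (κ + 1))) (by positivity)
    refine ⟨phi δ a, hphiRI δ hδ, (hc8 δ hδ).2.1, (hc8 δ hδ).1, ?_⟩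
    set p : B := phi δ a with hp
    have hpn : ‖p‖ ≤ 1 := (hc8 δ hδ).2.1
    have h1 : ‖star x * y1 * x - star (p * x) * y1 * (p * x)‖ ≤ d / 2 := by
      have e : star x * y1 * x - star (p * x) * y1 * (p * x) =
          - (star (p * x - x) * y1 * (p * x) + star x * y1 * (p * x - x)) := by
        simp only [star_sub, star_mul]; noncomm_ring
      rw [e, norm_neg]
      have hpx : ‖p * x‖ ≤ 1 := by
        calc ‖p * x‖ ≤ ‖p‖ * ‖x‖ := norm_mul_le _ _
          _ ≤ 1 * 1 := by gcongr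
          _ = 1 := one_mul 1
      calc _ ≤ ‖star (p * x - x) * y1 * (p * x)‖ + ‖star x * y1 * (p * x - x)‖ :=
            norm_add_le _ _
        _ ≤ ‖p * x - x‖ * κ * ‖p * x‖ + ‖x‖ * κ * ‖p * x - x‖ := by
            gcongr
            · calc _ ≤ ‖star (p * x - x) * y1‖ * ‖p * x‖ := norm_mul_le _ _
                _ ≤ ‖star (p * x - x)‖ * ‖y1‖ * ‖p * x‖ := by gcongr; exact norm_mul_le _ _
                _ = _ := by rw [norm_star]
            · calc _ ≤ ‖star x * y1‖ * ‖p * x - x‖ := norm_mul_le _ _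
                _ ≤ ‖star x‖ * ‖y1‖ * ‖p * x - x‖ := by gcongr; exact norm_mul_le _ _
                _ = _ := by rw [norm_star]
        _ ≤ d / (4 * (κ + 1)) * κ * 1 + 1 * κ * (d / (4 * (κ + 1))) := by gcongr
        _ ≤ d / 2 := by
            have : d / (4 * (κ + 1)) * (κ + 1) = d / 4 := by field_simp
            have h0 : 0 < d / (4 * (κ + 1)) := by positivity
            nlinarith
    have h2 : ‖star (p * x) * y1 * (p * x)‖ ≤ ‖star p * y1 * p‖ := by
      calc ‖star (p * x) * y1 * (p * x)‖ = ‖star x * (star p * y1 * p) * x‖ := by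
            congr 1; simp only [star_mul, mul_assoc]
        _ ≤ ‖star x‖ * ‖star p * y1 * p‖ * ‖x‖ := by
            refine (norm_mul_le _ _).trans ?_
            gcongr
            exact norm_mul_le _ _
        _ ≤ 1 * ‖star p * y1 * p‖ * 1 := by rw [norm_star]; gcongr
        _ = _ := by ring
    have h3 : ‖star x * y1 * x‖ ≤ d / 2 + ‖star (p * x) * y1 * (p * x)‖ := by
      have := norm_sub_norm_le (star x * y1 * x) (star (p * x) * y1 * (p * x))
      linarith
    rw [hθ]
    linarith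
  have ha2s : star a2 = a2 := (IsSelfAdjoint.of_nonneg ha20).star_eq
  set b : B := star a2 * y1 * a2 with hb
  have hb0 : 0 ≤ b := star_left_conjugate_nonneg hy10 _
  have hbRI : b ∈ RI a := by
    rw [hb, ha2s, mul_assoc]
    exact hmul a a2 _ ha2
  obtain ⟨hb1, -, -, -, -, hb6, -, -, -⟩ := ct_holds B b hb0
  have ha' : cut θ b ∈ RI b :=
    hcf b (fun x : ℝ => max (x - θ) 0) hb0 (by fun_prop) (by simp [hθ0.le])
  refine ⟨cut θ b, S - c, hb1 θ, ?_, hsub a b hbRI ha', ?_, ?_⟩
  · intro h0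
    have := hb6 θ hθ0.le
    rw [h0, sub_zero] at this
    linarith
  · intro x hx
    have hxa : x ∈ RI a := hsub a b hbRI (hsub b _ ha' hx)
    -- the sandwich
    have h1 : θ • (star x * x) ≤ star x * b * x := by
      have h := star_left_conjugate_le_conjugate (x1_phi hb0 hθ0) x
      rwa [mul_smul_comm, smul_mul_assoc, mul_assoc, hph b x θ hb0 hθ0 hx] at h
    have hbx : star x * b * x = star (a2 * x) * y1 * (a2 * x) := by
      rw [hb]; simp only [star_mul, mul_assoc]
    have h2 : star x * b * x ≤ S • (star (a2 * x) * (a2 * x)) := by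
      rw [hbx]
      exact hle _ (hmul a a2 x ha2)
    have ha21 : a2 ≤ 1 := (CStarAlgebra.norm_le_one_iff_of_nonneg _ ha20).1 ha2n
    have ha2sq : a2 * a2 ≤ a2 := by
      have := Commute.mul_nonneg ha20 (sub_nonneg.2 ha21) (by
        exact ((Commute.one_right a2).sub_right (Commute.refl a2)))
      rw [mul_sub, mul_one, sub_nonneg] at this
      exact this
    have ha2sq1 : a2 * a2 ≤ 1 := ha2sq.trans ha21
    have h3 : S • (star (a2 * x) * (a2 * x)) ≤ S • (star x * x) := by
      refine smul_le_smul_of_nonneg_left ?_ hS0.le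
      have h := star_left_conjugate_le_conjugate ha2sq1 x
      rw [mul_one] at h
      calc star (a2 * x) * (a2 * x) = star x * (a2 * a2) * x := by
            rw [star_mul, ha2s]; simp only [mul_assoc]
        _ ≤ _ := h
    -- `(1-a2) x` is small
    have h4 : S • (star (x - a2 * x) * (x - a2 * x)) ≤ d • (star x * x) := by
      have h5 : star (x - a2 * x) * (x - a2 * x) ≤ star x * x - star (a2 * x) * (a2 * x) := by
        have h6 : (1 - a2) * (1 - a2) ≤ 1 - a2 * a2 := by
          have : 1 - a2 * a2 - (1 - a2) * (1 - a2) = (a2 - a2 * a2) + (a2 - a2 * a2) := by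
            noncomm_ring
          rw [← sub_nonneg, this]
          exact add_nonneg (sub_nonneg.2 ha2sq) (sub_nonneg.2 ha2sq)
        have h7 := star_left_conjugate_le_conjugate h6 x
        calc star (x - a2 * x) * (x - a2 * x) = star x * ((1 - a2) * (1 - a2)) * x := by
              simp only [star_sub, star_mul, ha2s]; noncomm_ring
          _ ≤ star x * (1 - a2 * a2) * x := h7
          _ = _ := by simp only [star_mul, ha2s]; noncomm_ring
      have h8 : S • (star (x - a2 * x) * (x - a2 * x)) ≤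
          S • (star x * x) - S • (star (a2 * x) * (a2 * x)) := by
        rw [← smul_sub]
        exact smul_le_smul_of_nonneg_left h5 hS0.le
      refine h8.trans ?_
      have h9 : θ • (star x * x) ≤ S • (star (a2 * x) * (a2 * x)) := h1.trans h2
      have e : d • (star x * x) = S • (star x * x) - θ • (star x * x) := by
        rw [hθ, sub_smul]; abel
      rw [e]
      exact sub_le_sub_left h9 _
    have h10 : ‖x - a2 * x‖ ≤ ρ * ‖x‖ := by
      have h := CStarAlgebra.norm_le_norm_of_nonneg_of_le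
        (smul_nonneg hS0.le (star_mul_self_nonneg (x - a2 * x))) h4
      rw [norm_smul, norm_smul, CStarRing.norm_star_mul_self, CStarRing.norm_star_mul_self,
        Real.norm_of_nonneg hS0.le, Real.norm_of_nonneg hd0.le] at h
      have h11 : S * (‖x - a2 * x‖ * ‖x - a2 * x‖) ≤ S * (ρ * ‖x‖) ^ 2 := by
        refine h.trans ?_
        have : d * (‖x‖ * ‖x‖) ≤ S * ρ ^ 2 * (‖x‖ * ‖x‖) := by
          gcongr
        calc _ ≤ _ := this
          _ = _ := by ring
      have h12 := le_of_mul_le_mul_left h11 hS0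
      refine abs_le_of_sq_le_sq' ?_ (by positivity) |>.2
      rw [sq]; exact h12
    -- conclusion
    have h13 : ‖star x * y1 * x - star x * b * x‖ ≤ ε / 2 * ‖x‖ ^ 2 := by
      have e : star x * y1 * x - star x * b * x =
          star (x - a2 * x) * y1 * x + star (a2 * x) * y1 * (x - a2 * x) := by
        rw [hbx]; simp only [star_sub, star_mul]; noncomm_ring
      rw [e]
      have hax : ‖a2 * x‖ ≤ ‖x‖ := by
        calc ‖a2 * x‖ ≤ ‖a2‖ * ‖x‖ := norm_mul_le _ _
          _ ≤ 1 * ‖x‖ := by gcongr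
          _ = ‖x‖ := one_mul _
      calc _ ≤ ‖star (x - a2 * x) * y1 * x‖ + ‖star (a2 * x) * y1 * (x - a2 * x)‖ :=
            norm_add_le _ _
        _ ≤ ‖x - a2 * x‖ * κ * ‖x‖ + ‖a2 * x‖ * κ * ‖x - a2 * x‖ := by
            gcongr
            · calc _ ≤ ‖star (x - a2 * x) * y1‖ * ‖x‖ := norm_mul_le _ _
                _ ≤ ‖star (x - a2 * x)‖ * ‖y1‖ * ‖x‖ := by gcongr; exact norm_mul_le _ _
                _ = _ := by rw [norm_star]
            · calc _ ≤ ‖star (a2 * x) * y1‖ * ‖x - a2 * x‖ := norm_mul_le _ _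
                _ ≤ ‖star (a2 * x)‖ * ‖y1‖ * ‖x - a2 * x‖ := by gcongr; exact norm_mul_le _ _
                _ = _ := by rw [norm_star]
        _ ≤ ρ * ‖x‖ * κ * ‖x‖ + ‖x‖ * κ * (ρ * ‖x‖) := by gcongr
        _ = 2 * (ρ * κ) * ‖x‖ ^ 2 := by ring
        _ ≤ ε / 2 * ‖x‖ ^ 2 := by
            gcongr
            have : ρ * (κ + 1) = ε / 4 := by rw [hρ]; field_simp
            nlinarith
    have h14 : ‖S • (star x * x) - star x * b * x‖ ≤ ε / 2 * ‖x‖ ^ 2 := by
      have h15 : 0 ≤ S • (star x * x) - star x * b * x := sub_nonneg.2 (h2.trans h3)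
      have h16 : S • (star x * x) - star x * b * x ≤ d • (star x * x) := by
        have e : d • (star x * x) = S • (star x * x) - θ • (star x * x) := by
          rw [hθ, sub_smul]; abel
        rw [e]
        exact sub_le_sub_left h1 _
      have h17 := CStarAlgebra.norm_le_norm_of_nonneg_of_le h15 h16
      rw [norm_smul, CStarRing.norm_star_mul_self, Real.norm_of_nonneg hd0.le] at h17
      calc _ ≤ _ := h17
        _ ≤ ε / 2 * (‖x‖ * ‖x‖) := by gcongr
        _ = _ := by ring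
    have e : star x * y * x - ((S - c : ℝ) : ℂ) • (star x * x) =
        (star x * y1 * x - star x * b * x) - (S • (star x * x) - star x * b * x) := by
      rw [Complex.coe_smul, hy1, sub_smul, mul_add, add_mul, Algebra.algebraMap_eq_smul_one,
        mul_smul_comm, smul_mul_assoc, mul_one]
      abel
    rw [e]
    calc _ ≤ _ := norm_sub_le _ _
      _ ≤ ε / 2 * ‖x‖ ^ 2 + ε / 2 * ‖x‖ ^ 2 := add_le_add h13 h14
      _ = ε * ‖x‖ ^ 2 := by ring
  · intro x hx
    have h := hle x hx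
    rw [hy1, mul_add, add_mul, Algebra.algebraMap_eq_smul_one,
        mul_smul_comm, smul_mul_assoc, mul_one] at h
    rw [sub_smul]
    exact le_sub_iff_add_le.2 h

end Pool.Agent.H327R4.SI
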