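import Pool.Agent.H327R4.SI.Stubs

set_option autoImplicit false

namespace Pool.Agent.H327R4.SI

open Filter Topology Pool.Agent.H327R4.Pure
open scoped ComplexStarModule

universe u

theorem x2_mono {B : Type u} [CStarAlgebra B] {a b y : B} {ε : ℝ} {l : ℂ}
    (h : Ex ε a y l) (hb : RI b ⊆ RI a) : Ex ε b y l := fun x hx => h x (hb hx)

theorem x2_cplx {B : Type u} [CStarAlgebra B] {a z : B} {ε : ℝ} {l₁ l₂ : ℝ}
    (h1 : Ex (ε / 2) a (ℜ z : B) l₁) (h2 : Ex (ε / 2) a (ℑ z : B) l₂) :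
    Ex ε a z ((l₁ : ℂ) + Complex.I * l₂) := by
  intro x hx
  have e : star x * z * x - ((l₁ : ℂ) + Complex.I * l₂) • (star x * x) =
      (star x * (ℜ z : B) * x - (l₁ : ℂ) • (star x * x)) +
      Complex.I • (star x * (ℑ z : B) * x - (l₂ : ℂ) • (star x * x)) := by
    conv_lhs => rw [← realPart_add_I_smul_imaginaryPart z]
    rw [mul_add, add_mul, mul_smul_comm, smul_mul_assoc, add_smul, smul_sub, smul_smul]
    abel
  rw [e]
  refine (norm_add_le _ _).trans ?_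
  rw [norm_smul, Complex.norm_I, one_mul]
  have a1 := h1 x hx
  have a2 := h2 x hx
  linarith

/-- X2 -/
theorem t_X2 (hRIB : StRIB.{u}) (hX1 : StX1.{u}) : StX2.{u} := by
  intro B _ _ _ a y k z ε ha ha0 hy hε
  obtain ⟨r1, -, -, -, r5, -⟩ := hRIB B
  obtain ⟨a0, l, p1, p2, p3, p4, p5⟩ := hX1 B a y ε ha ha0 hy hε
  have key : ∀ (k : ℕ) (z : Fin k → B) (b : B), 0 ≤ b → b ≠ 0 →
      ∃ (a' : B) (μ : Fin k → ℂ), 0 ≤ a' ∧ a' ≠ 0 ∧ a' ∈ RI b ∧ ∀ i, Ex ε a' (z i) (μ i) := by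
    intro k
    induction k with
    | zero =>
      intro z b hb hb0
      exact ⟨b, fun _ => 0, hb, hb0, r1 b, fun i => i.elim0⟩
    | succ k ih =>
      intro z b hb hb0
      obtain ⟨a1, μ, q1, q2, q3, q4⟩ := ih (fun i => z i.castSucc) b hb hb0
      obtain ⟨a2, l1, s1, s2, s3, s4, -⟩ := hX1 B a1 (ℜ (z (Fin.last k)) : B) (ε / 2) q1 q2
        (ℜ (z (Fin.last k))).2 (by positivity)
      obtain ⟨a3, l2, t1, t2, t3, t4, -⟩ := hX1 B a2 (ℑ (z (Fin.last k)) : B) (ε / 2) s1 s2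
        (ℑ (z (Fin.last k))).2 (by positivity)
      have m32 : RI a3 ⊆ RI a2 := r5 a2 a3 t3
      have m21 : RI a2 ⊆ RI a1 := r5 a1 a2 s3
      have m1b : RI a1 ⊆ RI b := r5 b a1 q3
      refine ⟨a3, Fin.snoc μ ((l1 : ℂ) + Complex.I * l2), t1, t2, m1b (m21 t3), fun i => ?_⟩
      refine Fin.lastCases ?_ (fun j => ?_) i
      · rw [Fin.snoc_last]
        exact x2_cplx (x2_mono s4 m32) t4
      · rw [Fin.snoc_castSucc]
        exact x2_mono (q4 j) (m32.trans m21)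
  obtain ⟨a', μ, q1, q2, q3, q4⟩ := key k z a0 p1 p2
  have m0 : RI a0 ⊆ RI a := r5 a a0 p3
  exact ⟨a', l, μ, q1, q2, m0 q3, x2_mono p4 (r5 a0 a' q3), q4, p5⟩

end Pool.Agent.H327R4.SI
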