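import Pool.Agent.H327R4.SI.Stubs

/-!
# X3: every state is approximated by convex combinations of excised values
-/

set_option autoImplicit false

namespace Pool.Agent.H327R4.SI.X3aux

open Filter Topology Pool.Agent.H327R4.Pure ComplexConjugate Pool.Agent.H327R4.SI

universe u

section exc

variable {B : Type u} [CStarAlgebra B]

lemma Ex_mono {ε ε' : ℝ} {a y : B} {l : ℂ} (h : Ex ε a y l) (hε : ε ≤ ε') : Ex ε' a y l := by
  intro x hx
  exact (h x hx).trans (mul_le_mul_of_nonneg_right hε (sq_nonneg _))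

lemma Ex_near {ε δ : ℝ} {a y : B} {l l' : ℂ} (h : Ex ε a y l) (hl : ‖l - l'‖ ≤ δ) :
    Ex (ε + δ) a y l' := by
  intro x hx
  have h1 := h x hx
  have h2 : star x * y * x - l' • (star x * x)
      = (star x * y * x - l • (star x * x)) + (l - l') • (star x * x) := by
    rw [sub_smul]; abel
  rw [h2]
  refine (norm_add_le _ _).trans ?_
  have h3 : ‖(l - l') • (star x * x)‖ ≤ δ * ‖x‖ ^ 2 := by
    rw [norm_smul, CStarRing.norm_star_mul_self, ← sq]
    exact mul_le_mul_of_nonneg_right hl (sq_nonneg _)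
  nlinarith

lemma Ex_sum {k : ℕ} {ε : ℝ} {a : B} {y : Fin k → B} {μ : Fin k → ℂ} (γ : Fin k → ℂ)
    (h : ∀ i, Ex ε a (y i) (μ i)) :
    Ex ((∑ i, ‖γ i‖) * ε) a (∑ i, γ i • y i) (∑ i, γ i * μ i) := by
  intro x hx
  have h1 : star x * (∑ i, γ i • y i) * x - (∑ i, γ i * μ i) • (star x * x)
      = ∑ i, γ i • (star x * y i * x - μ i • (star x * x)) := by
    rw [Finset.mul_sum, Finset.sum_mul, Finset.sum_smul, ← Finset.sum_sub_distrib]
    refine Finset.sum_congr rfl fun i _ => ?_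
    rw [smul_sub, mul_smul_comm, smul_mul_assoc, smul_smul]
  rw [h1]
  refine (norm_sum_le _ _).trans ?_
  rw [Finset.sum_mul, Finset.sum_mul]
  refine Finset.sum_le_sum fun i _ => ?_
  rw [norm_smul]
  have h2 := mul_le_mul_of_nonneg_left (h i x hx) (norm_nonneg (γ i))
  linarith

lemma Ex_star {ε : ℝ} {a y : B} {l : ℂ} (h : Ex ε a y l) : Ex ε a (star y) (conj l) := by
  intro x hx
  have h1 := h x hx
  have h2 : star x * star y * x - (conj l) • (star x * x)
      = star (star x * y * x - l • (star x * x)) := by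
    simp [star_sub, star_mul, star_smul, mul_assoc]
  rw [h2, norm_star]
  exact h1

lemma Ex_re {ε : ℝ} {a y : B} {l : ℂ} (h : Ex ε a y l) :
    Ex ε a ((1 / 2 : ℂ) • (y + star y)) ((l.re : ℝ) : ℂ) := by
  intro x hx
  have h1 := h x hx
  have h2 := Ex_star h x hx
  have h4 : ((l.re : ℝ) : ℂ) = (1 / 2 : ℂ) * (l + conj l) := by
    rw [Complex.add_conj]; push_cast; ring
  have h3 : star x * ((1 / 2 : ℂ) • (y + star y)) * x - ((l.re : ℝ) : ℂ) • (star x * x)
      = (1 / 2 : ℂ) • ((star x * y * x - l • (star x * x)) +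
        (star x * star y * x - (conj l) • (star x * x))) := by
    rw [h4, mul_smul, add_smul, mul_smul_comm, smul_mul_assoc, mul_add, add_mul, ← smul_sub]
    congr 1
    abel
  rw [h3, norm_smul]
  have h5 : ‖(1 / 2 : ℂ)‖ = 1 / 2 := by norm_num
  rw [h5]
  have h6 := norm_add_le (star x * y * x - l • (star x * x))
    (star x * star y * x - (conj l) • (star x * x))
  linarith

lemma Ex_uniq [PartialOrder B] [StarOrderedRing B] (hRIB : StRIB.{u}) {ε ε' : ℝ} {a y : B}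
    {l l' : ℂ} (ha : a ≠ 0) (h : Ex ε a y l) (h' : Ex ε' a y l') : ‖l - l'‖ ≤ ε + ε' := by
  have haR : a ∈ RI a := (hRIB B).1 a
  have h1 := h a haR
  have h2 := h' a haR
  have h3 : (l - l') • (star a * a)
      = (star a * y * a - l' • (star a * a)) - (star a * y * a - l • (star a * a)) := by
    rw [sub_smul]; abel
  have h4 : ‖(l - l') • (star a * a)‖ ≤ (ε + ε') * ‖a‖ ^ 2 := by
    rw [h3]
    refine (norm_sub_le _ _).trans ?_
    linarith
  rw [norm_smul, CStarRing.norm_star_mul_self, ← sq] at h4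
  have h5 : 0 < ‖a‖ ^ 2 := by positivity
  exact le_of_mul_le_mul_right h4 h5

lemma Ex_bound [PartialOrder B] [StarOrderedRing B] (hRIB : StRIB.{u}) {ε : ℝ} {a y : B}
    {l : ℂ} (ha : a ≠ 0) (h : Ex ε a y l) : ‖l‖ ≤ ‖y‖ + ε := by
  have haR : a ∈ RI a := (hRIB B).1 a
  have h1 := h a haR
  have h3 : l • (star a * a)
      = (star a * y * a) - (star a * y * a - l • (star a * a)) := by abel
  have h4 : ‖l • (star a * a)‖ ≤ (‖y‖ + ε) * ‖a‖ ^ 2 := by
    rw [h3]
    refine (norm_sub_le _ _).trans ?_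
    have h6 : ‖star a * y * a‖ ≤ ‖y‖ * ‖a‖ ^ 2 := by
      calc ‖star a * y * a‖ ≤ ‖star a * y‖ * ‖a‖ := norm_mul_le _ _
        _ ≤ (‖star a‖ * ‖y‖) * ‖a‖ := by gcongr; exact norm_mul_le _ _
        _ = ‖y‖ * ‖a‖ ^ 2 := by rw [norm_star]; ring
    linarith
  rw [norm_smul, CStarRing.norm_star_mul_self, ← sq] at h4
  have h5 : 0 < ‖a‖ ^ 2 := by positivity
  exact le_of_mul_le_mul_right h4 h5

lemma st_star {Ψ : B →ₗ[ℂ] ℂ} (hΨ : IsSt Ψ) (y : B) : Ψ (star y) = conj (Ψ y) := by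
  have key : ∀ z : B, (Ψ z + Ψ (star z)).im = 0 := by
    intro z
    have h1 : star (1 + z) * (1 + z) = 1 + star z * z + (z + star z) := by
      rw [star_add, star_one]; noncomm_ring
    have h2 := (hΨ.2 (1 + z)).2
    rw [h1, map_add, map_add, hΨ.1, map_add] at h2
    have h3 := (hΨ.2 z).2
    simp only [Complex.add_im, Complex.one_im] at h2 ⊢
    linarith
  have h1 := key y
  have h2 := key (Complex.I • y)
  rw [star_smul, map_smul, map_smul] at h2
  apply Complex.ext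
  · simp at h2 ⊢
    linarith
  · simp at h1 ⊢
    linarith

lemma st_nonneg [PartialOrder B] [StarOrderedRing B] {Ψ : B →ₗ[ℂ] ℂ} (hΨ : IsSt Ψ) {x : B}
    (hx : 0 ≤ x) : 0 ≤ (Ψ x).re := by
  obtain ⟨b, hb⟩ := CStarAlgebra.nonneg_iff_eq_star_mul_self.mp hx
  rw [hb]
  exact (hΨ.2 b).1

end exc

/-- real functionals on `Fin k → ℂ` -/
lemma functional {k : ℕ} (f : StrongDual ℝ (Fin k → ℂ)) :
    ∃ γ : Fin k → ℂ, ∀ v : Fin k → ℂ, f v = (∑ i, γ i * v i).re := by
  refine ⟨fun i => ((f (Pi.single i 1) : ℝ) : ℂ) - (f (Pi.single i Complex.I) : ℝ) * Complex.I,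
    fun v => ?_⟩
  have h1 : v = ∑ i, ((v i).re • (Pi.single i (1 : ℂ) : Fin k → ℂ) +
      (v i).im • (Pi.single i Complex.I : Fin k → ℂ)) := by
    conv_lhs => rw [← Finset.univ_sum_single v]
    refine Finset.sum_congr rfl fun i _ => ?_
    rw [← Pi.single_smul, ← Pi.single_smul, ← Pi.single_add]
    congr 1
    apply Complex.ext <;> simp
  conv_lhs => rw [h1]
  rw [map_sum, Complex.re_sum]
  refine Finset.sum_congr rfl fun i _ => ?_
  rw [map_add, map_smul, map_smul]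
  simp
  ring

/-- the set of jointly excised values -/
def V {B : Type u} [CStarAlgebra B] [PartialOrder B] {k : ℕ} (y : Fin k → B) :
    Set (Fin k → ℂ) :=
  {v | ∀ ε' : ℝ, 0 < ε' → ∃ a : B, 0 ≤ a ∧ a ≠ 0 ∧ ∀ i, Ex ε' a (y i) (v i)}

theorem mem_closure_hull (hRIB : StRIB.{u}) (hX2 : StX2.{u}) (B : Type u) [CStarAlgebra B]
    [PartialOrder B] [StarOrderedRing B] [Nontrivial B] (Ψ : B →ₗ[ℂ] ℂ) (k : ℕ) (y : Fin k → B)
    (hΨ : IsSt Ψ) : (fun i => Ψ (y i)) ∈ closure (convexHull ℝ (V y)) := by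
  by_contra hcon
  obtain ⟨f, u, hfu, huf⟩ := geometric_hahn_banach_closed_point
    ((convex_convexHull ℝ (V y)).closure) isClosed_closure hcon
  obtain ⟨γ, hγ⟩ := functional f
  set Y : B := ∑ i, γ i • y i with hY
  set yc : B := (1 / 2 : ℂ) • (Y + star Y) with hyc
  have hsa : IsSelfAdjoint yc := by
    rw [IsSelfAdjoint, hyc, star_smul, star_add, star_star, add_comm]
    congr 1
    simp
  have hΨyc : (Ψ yc).re = f (fun i => Ψ (y i)) := by
    rw [hγ, hyc, map_smul, map_add, st_star hΨ, Complex.add_conj, hY, map_sum]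
    simp
  have hone : (0 : B) ≤ 1 := zero_le_one
  have hx2 : ∀ n : ℕ, ∃ (a : B) (l : ℝ) (μ : Fin k → ℂ), 0 ≤ a ∧ a ≠ 0 ∧
      Ex (1 / ((n : ℝ) + 1)) a yc l ∧ (∀ i, Ex (1 / ((n : ℝ) + 1)) a (y i) (μ i)) ∧
      (Ψ yc).re ≤ l := by
    intro n
    obtain ⟨a, l, μ, h0, h1, -, h3, h4, h5⟩ := hX2 B 1 yc k y (1 / ((n : ℝ) + 1)) hone
      one_ne_zero hsa (by positivity)
    refine ⟨a, l, μ, h0, h1, h3, h4, ?_⟩
    have h6 := h5 1 ((hRIB B).1 1)
    rw [star_one, one_mul, mul_one, mul_one] at h6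
    have h7 : 0 ≤ l • (1 : B) - yc := sub_nonneg.mpr h6
    have h8 := st_nonneg hΨ h7
    have h9 : (Ψ (l • (1 : B) - yc)).re = l - (Ψ yc).re := by
      have : l • (1 : B) = (l : ℂ) • (1 : B) := by
        rw [Complex.coe_smul]
      rw [this, map_sub, map_smul, hΨ.1]
      simp
    rw [h9] at h8
    linarith
  choose a l μ ha0 ha1 hExc hEx hl using hx2
  -- |l n - f (μ n)| ≤ (1 + C) / (n+1)
  set C : ℝ := ∑ i, ‖γ i‖ with hC
  have hCnn : 0 ≤ C := Finset.sum_nonneg fun i _ => norm_nonneg _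
  have hlf : ∀ n, |l n - f (μ n)| ≤ (1 + C) * (1 / ((n : ℝ) + 1)) := by
    intro n
    have h1 := Ex_re (Ex_sum γ (hEx n))
    have h2 := Ex_uniq hRIB (ha1 n) (hExc n) h1
    rw [← Complex.ofReal_sub, Complex.norm_real, Real.norm_eq_abs, ← hγ] at h2
    refine h2.trans (le_of_eq ?_)
    ring
  -- boundedness
  have hbd : ∀ n i, ‖μ n i‖ ≤ ‖y i‖ + 1 := by
    intro n i
    refine (Ex_bound hRIB (ha1 n) (hEx n i)).trans ?_
    have : 1 / ((n : ℝ) + 1) ≤ 1 := by
      rw [div_le_one (by positivity)]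
      have : (0 : ℝ) ≤ n := Nat.cast_nonneg n
      linarith
    linarith
  set R : ℝ := ∑ i, (‖y i‖ + 1) with hR
  have hRnn : 0 ≤ R := Finset.sum_nonneg fun i _ => by positivity
  have hball : ∀ n, μ n ∈ Metric.closedBall (0 : Fin k → ℂ) R := by
    intro n
    rw [mem_closedBall_zero_iff, pi_norm_le_iff_of_nonneg hRnn]
    intro i
    refine (hbd n i).trans ?_
    exact Finset.single_le_sum (f := fun i => ‖y i‖ + 1) (fun i _ => by positivity)
      (Finset.mem_univ i)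
  obtain ⟨v, -, φ, hφ, hlim⟩ := (isCompact_closedBall (0 : Fin k → ℂ) R).tendsto_subseq hball
  have hvV : v ∈ V y := by
    intro ε' hε'
    have h1 : ∀ᶠ n in atTop, ‖μ (φ n) - v‖ < ε' / 2 := by
      have := (Metric.tendsto_nhds.mp hlim) (ε' / 2) (by positivity)
      simpa [dist_eq_norm] using this
    have h2 : ∀ᶠ n in atTop, 1 / ((φ n : ℝ) + 1) < ε' / 2 := by
      have h3 : Tendsto (fun n : ℕ => 1 / ((n : ℝ) + 1)) atTop (𝓝 0) :=
        tendsto_one_div_add_atTop_nhds_zero_nat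
      exact (h3.comp hφ.tendsto_atTop).eventually_lt_const (by positivity)
    obtain ⟨n, hn1, hn2⟩ := (h1.and h2).exists
    refine ⟨a (φ n), ha0 _, ha1 _, fun i => ?_⟩
    have h4 : ‖μ (φ n) i - v i‖ ≤ ε' / 2 :=
      (norm_le_pi_norm (μ (φ n) - v) i).trans hn1.le
    exact Ex_mono (Ex_near (hEx (φ n) i) h4) (by linarith)
  have hfv : (Ψ yc).re ≤ f v := by
    have h1 : Tendsto (fun n => f (μ (φ n)) + (1 + C) * (1 / ((φ n : ℝ) + 1))) atTop
        (𝓝 (f v + (1 + C) * 0)) := by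
      refine Tendsto.add ((f.continuous.tendsto v).comp hlim) (Tendsto.const_mul _ ?_)
      exact tendsto_one_div_add_atTop_nhds_zero_nat.comp hφ.tendsto_atTop
    have h2 : (Ψ yc).re ≤ f v + (1 + C) * 0 := by
      refine ge_of_tendsto h1 (Eventually.of_forall fun n => ?_)
      have h3 := abs_le.mp (hlf (φ n))
      have h4 := hl (φ n)
      linarith [h3.2]
    simpa using h2
  have h1 := hfu v (subset_closure (subset_convexHull ℝ _ hvV))
  rw [hΨyc] at hfv
  linarith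

end Pool.Agent.H327R4.SI.X3aux

namespace Pool.Agent.H327R4.SI

open Filter Topology Pool.Agent.H327R4.Pure

universe u

set_option linter.unusedVariables false in
theorem t_X3 (hRIB : StRIB.{u}) (hX1 : StX1.{u}) (hX2 : StX2.{u}) : StX3.{u} := by
  intro B _ _ _ _ Ψ k y ε hΨ hε
  have hmem := X3aux.mem_closure_hull hRIB hX2 B Ψ k y hΨ
  obtain ⟨p, hp, hdist⟩ := Metric.mem_closure_iff.mp hmem ε hε
  rw [mem_convexHull_iff_exists_fintype] at hp
  obtain ⟨ι, hι, w, z, hw0, hw1, hz, hsum⟩ := hp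
  let e := Fintype.equivFin ι
  refine ⟨Fintype.card ι, fun m => w (e.symm m), fun m => z (e.symm m), fun m => hw0 _, ?_,
    fun m ε' hε' => hz (e.symm m) ε' hε', fun i => ?_⟩
  · rw [Equiv.sum_comp e.symm w]
    exact hw1
  · have h1 : ∑ m, (((w (e.symm m) : ℝ)) : ℂ) * z (e.symm m) i = p i := by
      rw [Equiv.sum_comp e.symm (fun j => ((w j : ℝ) : ℂ) * z j i), ← hsum, Finset.sum_apply]
      refine Finset.sum_congr rfl fun j _ => ?_
      simp
    rw [h1]
    have h2 : ‖(fun i => Ψ (y i)) - p‖ < ε := by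
      rw [← dist_eq_norm]; exact hdist
    have h3 := norm_le_pi_norm ((fun i => Ψ (y i)) - p) i
    rw [Pi.sub_apply, norm_sub_rev] at h3
    linarith

end Pool.Agent.H327R4.SI
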