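import Pool.Agent.H327R4.SI.Stubs

/-!
# SI project, task FIN: the conclusion
-/

set_option autoImplicit false

namespace Pool.Agent.H327R4.SI

open Filter Topology Pool.Agent.H327R4.Pure

universe u

namespace FINx

variable {A : Type u} [CStarAlgebra A]

/-- commutator of a product -/
theorem com_mul {x y a : A} {α β γ δ : ℝ} (hx : ‖x‖ ≤ α) (hy : ‖y‖ ≤ β)
    (hxa : ‖x * a - a * x‖ ≤ γ) (hya : ‖y * a - a * y‖ ≤ δ) :
    ‖x * y * a - a * (x * y)‖ ≤ α * δ + γ * β := by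
  have e : x * y * a - a * (x * y) = x * (y * a - a * y) + (x * a - a * x) * y := by
    noncomm_ring
  rw [e]
  exact (norm_add_le _ _).trans (add_le_add (norm_mul_le_of_le hx hya) (norm_mul_le_of_le hxa hy))

theorem norm_le_two [Nontrivial A] (s : A) (ε' : ℝ) (h1 : ε' ≤ 1)
    (h : ‖star s * s - 1‖ ≤ ε') : ‖s‖ ≤ 2 := by
  have h2 : ‖star s * s‖ ≤ 1 + ε' := by
    have e : star s * s = 1 + (star s * s - 1) := by abel
    rw [e]
    refine (norm_add_le _ _).trans (add_le_add ?_ h)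
    rw [CStarRing.norm_one]
  rw [CStarRing.norm_star_mul_self] at h2
  nlinarith [norm_nonneg s]

/-- the properly infinite case -/
theorem inf [Nontrivial A] [PartialOrder A] [StarOrderedRing A] {m : ℕ} (a : Fin m → A)
    (s1 s2 : A) (ε' : ℝ) (h0 : 0 ≤ ε') (h1 : ε' ≤ 1)
    (h11 : ‖star s1 * s1 - 1‖ ≤ ε') (h22 : ‖star s2 * s2 - 1‖ ≤ ε')
    (h12 : ‖star s1 * s2‖ ≤ ε') (h21 : ‖star s2 * s1‖ ≤ ε')
    (ha1 : ∀ j, ‖s1 * a j - a j * s1‖ ≤ ε') (ha2 : ∀ j, ‖s2 * a j - a j * s2‖ ≤ ε')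
    (hb1 : ∀ j, ‖star s1 * a j - a j * star s1‖ ≤ ε')
    (hb2 : ∀ j, ‖star s2 * a j - a j * star s2‖ ≤ ε') :
    ∃ c₁ c₂ s : A, 0 ≤ c₁ ∧ ‖c₁ * star c₂‖ ≤ 500 * ε' ∧
      ‖c₂ * star c₂ - c₁ * c₁‖ ≤ 500 * ε' ∧
      ‖c₁ * c₁ + star c₂ * c₂ + star s * s - 1‖ ≤ 500 * ε' ∧ ‖c₁ * s - s‖ ≤ 500 * ε' ∧
      ∀ j, ‖c₁ * a j - a j * c₁‖ ≤ 500 * ε' ∧ ‖c₂ * a j - a j * c₂‖ ≤ 500 * ε' ∧
        ‖s * a j - a j * s‖ ≤ 500 * ε' := by
  have n1 : ‖s1‖ ≤ 2 := norm_le_two s1 ε' h1 h11
  have n2 : ‖s2‖ ≤ 2 := norm_le_two s2 ε' h1 h22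
  have n1' : ‖star s1‖ ≤ 2 := by rwa [norm_star]
  have n2' : ‖star s2‖ ≤ 2 := by rwa [norm_star]
  set D : A := 1 - s1 * star s1 - s2 * star s2 with hD
  have nD : ‖D‖ ≤ 9 := by
    rw [hD]
    refine (norm_sub_le _ _).trans ?_
    have a1 : ‖(1 : A) - s1 * star s1‖ ≤ 1 + 2 * 2 := by
      refine (norm_sub_le _ _).trans (add_le_add ?_ (norm_mul_le_of_le n1 n1'))
      rw [CStarRing.norm_one]
    have a2 := norm_mul_le_of_le n2 n2'
    linarith
  have sD : star D = D := by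
    rw [hD]
    simp only [star_sub, star_one, star_mul, star_star]
  refine ⟨s1 * star s1, s1 * star s2, s1 * s1 * D, mul_star_self_nonneg s1, ?_, ?_, ?_, ?_, ?_⟩
  · have e : s1 * star s1 * star (s1 * star s2) = s1 * (star s1 * s2) * star s1 := by
      rw [star_mul, star_star]
      noncomm_ring
    rw [e]
    have := norm_mul_le_of_le (norm_mul_le_of_le n1 h12) n1'
    linarith
  · have e : s1 * star s2 * star (s1 * star s2) - s1 * star s1 * (s1 * star s1) =
        s1 * ((star s2 * s2 - 1) - (star s1 * s1 - 1)) * star s1 := by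
      rw [star_mul, star_star]
      noncomm_ring
    rw [e]
    have a1 : ‖(star s2 * s2 - 1) - (star s1 * s1 - 1)‖ ≤ ε' + ε' :=
      (norm_sub_le _ _).trans (add_le_add h22 h11)
    have := norm_mul_le_of_le (norm_mul_le_of_le n1 a1) n1'
    linarith
  · have e : s1 * star s1 * (s1 * star s1) + star (s1 * star s2) * (s1 * star s2) +
        star (s1 * s1 * D) * (s1 * s1 * D) - 1 =
        s1 * (star s1 * s1 - 1) * star s1 + s2 * (star s1 * s1 - 1) * star s2 +
        D * (star s1 * (star s1 * s1 - 1) * s1 + (star s1 * s1 - 1)) * D +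
        (s1 * (star s1 * s1 - 1) + s2 * (star s2 * s1)) * star s1 +
        (s1 * (star s1 * s2) + s2 * (star s2 * s2 - 1)) * star s2 := by
      rw [star_mul (s1 * s1), sD, star_mul s1, star_mul s1, star_star]
      have e1 : D * D = D + (s1 * (star s1 * s1 - 1) + s2 * (star s2 * s1)) * star s1 +
          (s1 * (star s1 * s2) + s2 * (star s2 * s2 - 1)) * star s2 := by
        rw [hD]
        noncomm_ring
      have e2 : D * (star s1 * star s1) * (s1 * s1 * D) =
          D * (star s1 * (star s1 * s1 - 1) * s1 + (star s1 * s1 - 1)) * D + D * D := by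
        noncomm_ring
      rw [e2, e1]
      have e3 : D = 1 - s1 * star s1 - s2 * star s2 := hD
      nth_rewrite 3 [e3]
      noncomm_ring
    rw [e]
    have b1 := norm_mul_le_of_le (norm_mul_le_of_le n1 h11) n1'
    have b2 := norm_mul_le_of_le (norm_mul_le_of_le n2 h11) n2'
    have b3 : ‖star s1 * (star s1 * s1 - 1) * s1 + (star s1 * s1 - 1)‖ ≤ 2 * ε' * 2 + ε' :=
      (norm_add_le _ _).trans (add_le_add (norm_mul_le_of_le (norm_mul_le_of_le n1' h11) n1) h11)
    have b4 := norm_mul_le_of_le (norm_mul_le_of_le nD b3) nD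
    have b5 : ‖s1 * (star s1 * s1 - 1) + s2 * (star s2 * s1)‖ ≤ 2 * ε' + 2 * ε' :=
      (norm_add_le _ _).trans (add_le_add (norm_mul_le_of_le n1 h11) (norm_mul_le_of_le n2 h21))
    have b6 := norm_mul_le_of_le b5 n1'
    have b7 : ‖s1 * (star s1 * s2) + s2 * (star s2 * s2 - 1)‖ ≤ 2 * ε' + 2 * ε' :=
      (norm_add_le _ _).trans (add_le_add (norm_mul_le_of_le n1 h12) (norm_mul_le_of_le n2 h22))
    have b8 := norm_mul_le_of_le b7 n2'
    refine (norm_add_le_of_le (norm_add_le_of_le (norm_add_le_of_le (norm_add_le_of_le b1 b2) b4)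
      b6) b8).trans ?_
    linarith
  · have e : s1 * star s1 * (s1 * s1 * D) - s1 * s1 * D =
        s1 * (star s1 * s1 - 1) * s1 * D := by
      noncomm_ring
    rw [e]
    have := norm_mul_le_of_le (norm_mul_le_of_le (norm_mul_le_of_le n1 h11) n1) nD
    linarith
  · intro j
    have c1 := com_mul n1 n1' (ha1 j) (hb1 j)
    have c2 := com_mul n1 n2' (ha1 j) (hb2 j)
    have c3 := com_mul n2 n2' (ha2 j) (hb2 j)
    have c4 := com_mul n1 n1 (ha1 j) (ha1 j)
    have c5 : ‖D * a j - a j * D‖ ≤ (2 * ε' + ε' * 2) + (2 * ε' + ε' * 2) := by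
      have e : D * a j - a j * D = -(s1 * star s1 * a j - a j * (s1 * star s1)) -
          (s2 * star s2 * a j - a j * (s2 * star s2)) := by
        rw [hD]
        noncomm_ring
      rw [e]
      refine (norm_sub_le _ _).trans (add_le_add ?_ c3)
      rw [norm_neg]
      exact c1
    have c6 := com_mul (norm_mul_le_of_le n1 n1) nD c4 c5
    refine ⟨by linarith, by linarith, by linarith⟩

theorem state_le [PartialOrder A] [StarOrderedRing A] (T : TS A) (x : A)
    (hx : IsSelfAdjoint x) : (T.1.f x).re ≤ ‖x‖ := by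
  have h1 : 0 ≤ algebraMap ℝ A ‖x‖ - x := sub_nonneg.2 hx.le_algebraMap_norm_self
  obtain ⟨d, hd⟩ := CStarAlgebra.nonneg_iff_eq_star_mul_self.1 h1
  have h2 := (T.1.pos d).1
  rw [← hd, map_sub, Complex.sub_re] at h2
  have h3 : T.1.f (algebraMap ℝ A ‖x‖) = (‖x‖ : ℂ) := by
    have e : algebraMap ℝ A ‖x‖ = (‖x‖ : ℂ) • (1 : A) := by
      rw [Algebra.algebraMap_eq_smul_one, Complex.coe_smul]
    rw [e, map_smul, T.2, smul_eq_mul, mul_one]
  rw [h3, Complex.ofReal_re] at h2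
  linarith

end FINx

open FINx in
theorem t_FIN : StFIN.{u} := by
  intro A _ _ _ hSI hMC m a ε hε
  rcases subsingleton_or_nontrivial A with hA | hA
  · have h0 : ∀ x : A, ‖x‖ ≤ ε := fun x => by
      rw [Subsingleton.elim x 0, norm_zero]
      exact hε.le
    exact ⟨0, 0, 0, le_rfl, h0 _, h0 _, h0 _, h0 _, fun j => ⟨h0 _, h0 _, h0 _⟩⟩
  by_cases hT : Nonempty (TS A)
  · obtain ⟨k, y, K, δ, hδ, hS⟩ := hSI m a 1 (ε / 4) (by positivity)
    obtain ⟨c₁, c₂, e, hc0, hc1, hc2, he0, he1, h1, h2, h3, h4, h5⟩ :=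
      hMC hT (m + k) (Fin.append a y) K (min δ (ε / 4)) (lt_min hδ (by positivity))
    have hm1 : min δ (ε / 4) ≤ δ := min_le_left _ _
    have hm2 : min δ (ε / 4) ≤ ε / 4 := min_le_right _ _
    have hm3 : ε / 4 ≤ ε := by linarith
    obtain ⟨s, hs1, hs2, hs3⟩ := hS e c₁ he0 he1 hc0 hc1 (fun j => by
        have h6 := h4 (Fin.natAdd m j)
        rw [Fin.append_right] at h6
        exact ⟨h6.2.2.trans hm1, h6.1.trans hm1⟩) (by
        obtain ⟨T⟩ := hT
        refine (h5 T).2.trans (state_le T _ ?_)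
        exact (IsSelfAdjoint.of_nonneg hc0).pow K) (fun T => by
        refine ⟨?_, (h5 T).2⟩
        rw [Nat.cast_one, one_mul]
        exact (h5 T).1.trans hm1)
    have g1 := hs1 0 0
    rw [if_pos rfl] at g1
    refine ⟨c₁, c₂, s 0, hc0, (h1.trans hm2).trans hm3, (h2.trans hm2).trans hm3, ?_,
      (hs2 0).trans hm3, ?_⟩
    · have e1 : c₁ * c₁ + star c₂ * c₂ + star (s 0) * s 0 - 1 =
          (c₁ * c₁ + star c₂ * c₂ + e - 1) + (star (s 0) * s 0 - e) := by abel
      rw [e1]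
      refine (norm_add_le _ _).trans ?_
      have := h3.trans hm2
      linarith
    · intro j
      have h6 := h4 (Fin.castAdd k j)
      rw [Fin.append_left] at h6
      exact ⟨(h6.1.trans hm2).trans hm3, (h6.2.1.trans hm2).trans hm3, (hs3 0 j).trans hm3⟩
  · -- no traces
    set ε' : ℝ := min 1 (ε / 500) with hε'
    have hp : 0 < ε' := lt_min one_pos (by positivity)
    have hp1 : ε' ≤ 1 := min_le_left _ _
    have hp2 : 500 * ε' ≤ ε := by
      have : ε' ≤ ε / 500 := min_le_right _ _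
      linarith
    obtain ⟨k, y, K, δ, hδ, hS⟩ := hSI (m + m) (Fin.append a (fun j => star (a j))) 2 ε' hp
    obtain ⟨s, hs1, hs2, hs3⟩ := hS 1 1 zero_le_one le_rfl zero_le_one le_rfl (fun j => by
        rw [one_mul, mul_one, sub_self, norm_zero]
        exact ⟨hδ.le, hδ.le⟩) (by
        rw [one_pow, CStarRing.norm_one]
        norm_num) (fun T => absurd ⟨T⟩ hT)
    have g : ∀ i j, ‖s i * a j - a j * s i‖ ≤ ε' := by
      intro i j
      have h6 := hs3 i (Fin.castAdd m j)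
      rwa [Fin.append_left] at h6
    have g' : ∀ i j, ‖star (s i) * a j - a j * star (s i)‖ ≤ ε' := by
      intro i j
      have h6 := hs3 i (Fin.natAdd m j)
      rw [Fin.append_right, ← norm_star, star_sub, star_mul, star_mul, star_star,
        ← norm_neg, neg_sub] at h6
      exact h6
    have k00 := hs1 0 0
    have k11 := hs1 1 1
    have k01 := hs1 0 1
    have k10 := hs1 1 0
    rw [if_pos rfl] at k00 k11
    rw [if_neg (by decide), sub_zero] at k01 k10
    obtain ⟨c₁, c₂, t, r0, r1, r2, r3, r4, r5⟩ := inf a (s 0) (s 1) ε' hp.le hp1 k00 k11 k01 k10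
      (g 0) (g 1) (g' 0) (g' 1)
    exact ⟨c₁, c₂, t, r0, r1.trans hp2, r2.trans hp2, r3.trans hp2, r4.trans hp2,
      fun j => ⟨(r5 j).1.trans hp2, (r5 j).2.1.trans hp2, (r5 j).2.2.trans hp2⟩⟩

end Pool.Agent.H327R4.SI
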