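import Pool.Agent.H327R4.SI.Stubs
import Pool.Agent.H327R4.Pure.TNIL
import Pool.Agent.H327R4.Pure.TFULL

set_option autoImplicit false

namespace Pool.Agent.H327R4.SI

open Filter Topology Pool.Agent.H327R4.Pure

universe u

theorem ORT_zero {B : Type u} [CStarAlgebra B] (a b z : B) (h : a * b = 0) (hz : z ∈ RI b) :
    a * z = 0 := by
  have hc : IsClosed {w : B | a * w = 0} :=
    isClosed_eq (continuous_const.mul continuous_id) continuous_const
  have hs : (Set.range fun t : B => b * t) ⊆ {w : B | a * w = 0} := by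
    rintro _ ⟨t, rfl⟩
    show a * (b * t) = 0
    rw [← mul_assoc, h, zero_mul]
  exact (closure_minimal hs hc) hz

theorem ORT_step (hRIB : StRIB.{u}) (B : Type u) [CStarAlgebra B] [PartialOrder B]
    [StarOrderedRing B] (hs : SimpleC B) (hf : ¬ FiniteDimensional ℂ B) (b : B) (hb : 0 ≤ b)
    (hb0 : b ≠ 0) : ∃ b1 b2 : B, 0 ≤ b1 ∧ b1 ≠ 0 ∧ b1 ∈ RI b ∧ 0 ≤ b2 ∧ b2 ≠ 0 ∧ b2 ∈ RI b ∧
      b1 * b2 = 0 := by
  obtain ⟨x, M, hM, hx0, hxx, h1, h2⟩ := nil_holds full_holds B hs hf b hb hb0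
  obtain ⟨_, r2, _, _, _, _, _, r8, _⟩ := hRIB B
  refine ⟨star x * x, x * star x, star_mul_self_nonneg x, ?_, ?_, mul_star_self_nonneg x, ?_, ?_,
    ?_⟩
  · exact CStarRing.star_mul_self_ne_zero_iff x |>.2 hx0
  · refine r2 b (star x) x (r8 b (star x) M hb ?_)
    rw [star_star]
    exact h1
  · exact CStarRing.mul_star_self_ne_zero_iff x |>.2 hx0
  · exact r2 b x (star x) (r8 b x M hb h2)
  · calc star x * x * (x * star x) = star x * (x * x) * star x := by noncomm_ring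
      _ = 0 := by rw [hxx]; simp

theorem ORT_many (hRIB : StRIB.{u}) (B : Type u) [CStarAlgebra B] [PartialOrder B]
    [StarOrderedRing B] (hs : SimpleC B) (hf : ¬ FiniteDimensional ℂ B) (R : ℕ) :
    ∀ b : B, 0 ≤ b → b ≠ 0 → ∃ c : Fin R → B, (∀ i, 0 ≤ c i ∧ c i ≠ 0 ∧ c i ∈ RI b) ∧
      ∀ i j, i ≠ j → c i * c j = 0 := by
  induction R with
  | zero => exact fun b _ _ => ⟨fun _ => 0, fun i => i.elim0, fun i => i.elim0⟩
  | succ R ih =>
    intro b hb hb0
    obtain ⟨b1, b2, p1, n1, m1, p2, n2, m2, hz⟩ := ORT_step hRIB B hs hf b hb hb0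
    obtain ⟨c, hc, ho⟩ := ih b2 p2 n2
    obtain ⟨_, _, _, _, r5, _, _, _, _⟩ := hRIB B
    have hl : ∀ j, b1 * c j = 0 := fun j => ORT_zero b1 b2 (c j) hz (hc j).2.2
    have hr : ∀ j, c j * b1 = 0 := by
      intro j
      have h1 : star (b1 * c j) = 0 := by rw [hl j, star_zero]
      rwa [star_mul, (IsSelfAdjoint.of_nonneg p1).star_eq,
        (IsSelfAdjoint.of_nonneg (hc j).1).star_eq] at h1
    refine ⟨Fin.cons b1 c, ?_, ?_⟩
    · intro i
      refine Fin.cases ?_ (fun j => ?_) i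
      · simp only [Fin.cons_zero]
        exact ⟨p1, n1, m1⟩
      · simp only [Fin.cons_succ]
        exact ⟨(hc j).1, (hc j).2.1, r5 b b2 m2 (hc j).2.2⟩
    · intro i j
      refine Fin.cases ?_ (fun i' => ?_) i
      · refine Fin.cases ?_ (fun j' => ?_) j
        · intro h
          exact absurd rfl h
        · intro _
          simp only [Fin.cons_zero, Fin.cons_succ]
          exact hl j'
      · refine Fin.cases ?_ (fun j' => ?_) j
        · intro _
          simp only [Fin.cons_zero, Fin.cons_succ]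
          exact hr i'
        · intro h
          simp only [Fin.cons_succ]
          exact ho i' j' (fun h' => h (by rw [h']))

theorem t_ORT (hRIB : StRIB.{u}) : StORT.{u} := by
  intro B _ _ _ hs hf b R hb hb0
  obtain ⟨c, hc, ho⟩ := ORT_many hRIB B hs hf R b hb hb0
  obtain ⟨_, _, _, r4, _, _, _, _, _⟩ := hRIB B
  refine ⟨fun i => (‖c i‖⁻¹ : ℝ) • c i, fun i => ⟨?_, ?_, ?_⟩, fun i j hij => ?_⟩
  · exact smul_nonneg (inv_nonneg.2 (norm_nonneg _)) (hc i).1
  · show ‖(‖c i‖⁻¹ : ℝ) • c i‖ = 1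
    rw [norm_smul, norm_inv, norm_norm]
    exact inv_mul_cancel₀ (norm_ne_zero_iff.2 (hc i).2.1)
  · have h := r4 b (c i) ((‖c i‖⁻¹ : ℝ) : ℂ) (hc i).2.2
    have he : (((‖c i‖⁻¹ : ℝ) : ℂ)) • c i = (‖c i‖⁻¹ : ℝ) • c i := by
      rw [Complex.coe_smul]
    rw [he] at h
    exact h
  · show (‖c i‖⁻¹ : ℝ) • c i * ((‖c j‖⁻¹ : ℝ) • c j) = 0
    rw [smul_mul_smul_comm, ho i j hij, smul_zero]

end Pool.Agent.H327R4.SI
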