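import Pool.Agent.H327R4.SI.Stubs
import Pool.Agent.H703R4.QC.QCU
import Pool.Agent.H735TW.TTB

/-!
# Explicit quasicentral elements
-/

set_option autoImplicit false

namespace Pool.Agent.H327R4.SI

open Pool.Agent.H327R4.Pure

universe u

theorem t_QC : StQC.{u} := by
  intro r p ε hε
  obtain ⟨ε0, hε0, h⟩ := Pool.Agent.H703R4.QC.qcu Pool.Agent.H735TW.t_TB.{u} r p 1 ε hε
  refine ⟨ε0 ^ 2, by positivity, ?_⟩
  intro A _ _ _ x z hx hz hT
  obtain ⟨e, he0, he1, heT, hej, hex⟩ := h A x z hx (by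
    intro T hST j
    have h1 := hT ⟨T, hST⟩ j
    have h2 : (T.f (star (z j) * z j)).re = (T.f (z j * star (z j))).re := by
      rw [T.tr]
    unfold Pool.Agent.H735TW.n2
    rw [h2]
    calc Real.sqrt ((T.f (z j * star (z j))).re) ≤ Real.sqrt (ε0 ^ 2) := Real.sqrt_le_sqrt h1
      _ = ε0 := Real.sqrt_sq hε0.le)
  refine ⟨e, he0, he1, hex, ?_, ?_⟩
  · intro j
    refine ⟨?_, ?_⟩
    · have := (hej j).1
      rwa [sub_mul, one_mul] at this
    · have := (hej j).2
      rwa [mul_sub, mul_one] at this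
  · intro T
    exact heT T.1 T.2

end Pool.Agent.H327R4.SI
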