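import Pool.Agent.H327R4.SI.Stubs

/-! From the completely positive approximation property to Kraus form. -/

set_option autoImplicit false
set_option linter.unusedSectionVars false

namespace Pool.Agent.H327R4.SI

open Filter Topology Pool.Agent.H327R4.Pure

universe u

namespace NFaux

theorem gen2 {B : Type u} [NonUnitalCStarAlgebra B] [PartialOrder B] [StarOrderedRing B] (P : B)
    (h : 0 ≤ P) : ∃ C : B, P = star C * C := (CStarAlgebra.nonneg_iff_eq_star_mul_self).1 h

theorem gen {B : Type u} [NonUnitalCStarAlgebra B] [PartialOrder B] [StarOrderedRing B] (P : B)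
    (hsa : IsSelfAdjoint P) : ∃ Q R : B, star Q = Q ∧ P * Q = - (Q * Q) ∧ Q = star R * R ∧
      (Q = 0 → 0 ≤ P) := by
  have hneg : 0 ≤ P⁻ := CFC.negPart_nonneg P
  have hnsa : star P⁻ = P⁻ := (IsSelfAdjoint.of_nonneg hneg)
  have h0 : P⁺ - P⁻ = P := CFC.posPart_sub_negPart P hsa
  have h1 : P⁺ * P⁻ = 0 := CFC.posPart_mul_negPart P
  obtain ⟨R, hR⟩ := (CStarAlgebra.nonneg_iff_eq_star_mul_self).1 hneg
  refine ⟨P⁻, R, hnsa, ?_, hR, fun h5 => ?_⟩
  · calc P * P⁻ = (P⁺ - P⁻) * P⁻ := by rw [h0]
      _ = - (P⁻ * P⁻) := by rw [sub_mul, h1, zero_sub]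
  · rw [← h0, h5, sub_zero]
    exact CFC.posPart_nonneg P

variable {A : Type u} [CStarAlgebra A] [PartialOrder A] [StarOrderedRing A] {N : ℕ}

/-- the sesquilinear form of a matrix -/
noncomputable def B (P : CStarMatrix (Fin N) (Fin N) A) (x y : Fin N → A) : A :=
  ∑ i, ∑ j, star (x i) * P i j * y j

theorem B_add_left (P : CStarMatrix (Fin N) (Fin N) A) (x x' y : Fin N → A) :
    B P (x + x') y = B P x y + B P x' y := by
  simp only [B, Pi.add_apply, star_add, add_mul, Finset.sum_add_distrib]

theorem B_add_right (P : CStarMatrix (Fin N) (Fin N) A) (x y y' : Fin N → A) :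
    B P x (y + y') = B P x y + B P x y' := by
  simp only [B, Pi.add_apply, mul_add, Finset.sum_add_distrib]

theorem B_single (P : CStarMatrix (Fin N) (Fin N) A) (p q : Fin N) (a b : A) :
    B P (Pi.single p a) (Pi.single q b) = star a * P p q * b := by
  unfold B
  rw [Finset.sum_eq_single p, Finset.sum_eq_single q]
  · simp
  · intro j _ hj; simp [Pi.single_eq_of_ne hj]
  · simp
  · intro i _ hi; simp [Pi.single_eq_of_ne hi]
  · simp

theorem nf_sa (P : CStarMatrix (Fin N) (Fin N) A) (h : ∀ b : Fin N → A, 0 ≤ B P b b) :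
    IsSelfAdjoint P := by
  have hs : ∀ b : Fin N → A, star (B P b b) = B P b b := fun b => (IsSelfAdjoint.of_nonneg (h b))
  have key : ∀ (p q : Fin N) (c : ℂ),
      star (c • P p q + (starRingEnd ℂ c) • P q p) = c • P p q + (starRingEnd ℂ c) • P q p := by
    intro p q c
    have h1 := hs (Pi.single p 1 + Pi.single q (c • 1))
    rw [B_add_left, B_add_right, B_add_right] at h1
    rw [star_add, star_add, star_add, hs, hs] at h1
    have h2 : star (B P (Pi.single p 1) (Pi.single q (c • 1))) +
        star (B P (Pi.single q (c • 1)) (Pi.single p 1)) =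
        B P (Pi.single p 1) (Pi.single q (c • 1)) + B P (Pi.single q (c • 1)) (Pi.single p 1) := by
      have h3 : ∀ (x y z z' w w' : A), x + z + (z' + y) = x + w + (w' + y) →
          z + z' = w + w' := by
        intro x y z z' w w' hh
        have := congrArg (fun t => t - x - y) hh
        calc z + z' = x + z + (z' + y) - x - y := by abel
          _ = x + w + (w' + y) - x - y := by rw [hh]
          _ = w + w' := by abel
      exact h3 _ _ _ _ _ _ h1
    rw [B_single, B_single] at h2
    have e1 : star (1 : A) * P p q * (c • 1) = c • P p q := by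
      rw [star_one, one_mul, mul_smul_comm, mul_one]
    have e2 : star (c • (1 : A)) * P q p * 1 = (starRingEnd ℂ c) • P q p := by
      rw [star_smul, star_one, smul_mul_assoc, one_mul, mul_one]; rfl
    rw [e1, e2] at h2
    rw [star_add]; exact h2
  apply CStarMatrix.ext
  intro p q
  rw [CStarMatrix.star_apply]
  have k1 := key p q 1
  have k2 := key p q Complex.I
  rw [star_add, star_smul, star_smul] at k1 k2
  have e3 : star (1 : ℂ) = 1 := star_one ℂ
  have e4 : star Complex.I = -Complex.I := Complex.conj_I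
  simp only [map_one, star_one, one_smul] at k1
  have e5 : (starRingEnd ℂ) Complex.I = -Complex.I := Complex.conj_I
  rw [e5, e4, star_neg, e4, neg_neg] at k2
  have k3 : (-Complex.I) • (-Complex.I • star (P p q) + Complex.I • star (P q p)) =
      (-Complex.I) • (Complex.I • P p q + -Complex.I • P q p) := by rw [k2]
  rw [smul_add, smul_add, smul_smul, smul_smul, smul_smul, smul_smul] at k3
  have e6 : -Complex.I * -Complex.I = -1 := by rw [neg_mul_neg, Complex.I_mul_I]
  have e7 : -Complex.I * Complex.I = 1 := by rw [neg_mul, Complex.I_mul_I, neg_neg]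
  rw [e6, e7, one_smul, one_smul, neg_smul, one_smul, neg_smul, one_smul] at k3
  -- k1 : star P p q + star P q p = P p q + P q p ; k3 : - star P p q + star P q p = P p q - P q p
  have k4 : (2 : ℂ) • star (P q p) = (2 : ℂ) • P p q := by
    rw [two_smul, two_smul]
    calc star (P q p) + star (P q p) = (star (P p q) + star (P q p)) + (- star (P p q) + star (P q p)) := by abel
      _ = (P p q + P q p) + (P p q + - P q p) := by rw [k1, k3]
      _ = P p q + P p q := by abel
  have : (2⁻¹ : ℂ) • (2 : ℂ) • star (P q p) = (2⁻¹ : ℂ) • (2 : ℂ) • P p q := by rw [k4]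
  rwa [smul_smul, smul_smul, inv_mul_cancel₀ two_ne_zero, one_smul, one_smul] at this

/-- diagonal entries of `star X * P * X` -/
theorem nf_entry (P X : CStarMatrix (Fin N) (Fin N) A) (i : Fin N) :
    (star X * P * X) i i = B P (fun p => X p i) (fun p => X p i) := by
  rw [CStarMatrix.mul_apply]
  unfold B
  rw [Finset.sum_comm]
  refine Finset.sum_congr rfl fun q _ => ?_
  rw [CStarMatrix.mul_apply, Finset.sum_mul]
  refine Finset.sum_congr rfl fun p _ => ?_
  rw [CStarMatrix.star_apply]

theorem nf_star_mul (X : CStarMatrix (Fin N) (Fin N) A) (i : Fin N) :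
    (star X * X) i i = ∑ p, star (X p i) * X p i := by
  rw [CStarMatrix.mul_apply]
  refine Finset.sum_congr rfl fun p _ => ?_
  rw [CStarMatrix.star_apply]

theorem nf_zero_of_diag (X : CStarMatrix (Fin N) (Fin N) A) (h : ∀ i, (star X * X) i i ≤ 0) :
    X = 0 := by
  apply CStarMatrix.ext
  intro p i
  have h1 := h i
  rw [nf_star_mul] at h1
  have h2 : star (X p i) * X p i ≤ ∑ p, star (X p i) * X p i :=
    Finset.single_le_sum (fun q _ => star_mul_self_nonneg (X q i)) (Finset.mem_univ p)
  have h3 : star (X p i) * X p i = 0 := le_antisymm (h2.trans h1) (star_mul_self_nonneg _)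
  exact CStarRing.star_mul_self_eq_zero_iff _ |>.1 h3

theorem nf_nonneg (P : CStarMatrix (Fin N) (Fin N) A) (h : ∀ b : Fin N → A, 0 ≤ B P b b) :
    0 ≤ P := by
  obtain ⟨Q, R, hnsa, hPQ, hR, hfin⟩ := gen P (nf_sa P h)
  apply hfin
  have h2 : star Q * P * Q = - (star (R * Q) * (R * Q)) := by
    have e1 : star (R * Q) * (R * Q) = Q * Q * Q := by
      rw [star_mul, hnsa]
      calc Q * star R * (R * Q) = Q * (star R * R) * Q := by noncomm_ring
        _ = Q * Q * Q := by rw [← hR]
    rw [e1, hnsa, mul_assoc, hPQ, mul_neg, mul_assoc]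
  have h3 : R * Q = 0 := by
    apply nf_zero_of_diag
    intro i
    have e1 := nf_entry P Q i
    rw [h2] at e1
    have e2 := h (fun p => Q p i)
    rw [← e1, CStarMatrix.neg_apply] at e2
    exact neg_nonneg.1 e2
  have h4 : Q * Q = 0 := by
    calc Q * Q = (star R * R) * Q := by rw [← hR]
      _ = star R * (R * Q) := by rw [mul_assoc]
      _ = 0 := by rw [h3, mul_zero]
  have : star Q * Q = 0 := by rw [hnsa, h4]
  exact CStarRing.star_mul_self_eq_zero_iff _ |>.1 this

/-- factorization -/
theorem nf_fac (P : CStarMatrix (Fin N) (Fin N) A) (h : ∀ b : Fin N → A, 0 ≤ B P b b) :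
    ∃ C : CStarMatrix (Fin N) (Fin N) A, ∀ p q, P p q = ∑ l, star (C l p) * C l q := by
  obtain ⟨C, hC⟩ := gen2 P (nf_nonneg P h)
  refine ⟨C, fun p q => ?_⟩
  conv_lhs => rw [hC]
  rw [CStarMatrix.mul_apply]
  refine Finset.sum_congr rfl fun l _ => ?_
  rw [CStarMatrix.star_apply]

theorem nf_sigma {N : ℕ} (σ : Matrix (Fin N) (Fin N) ℂ →ₗ[ℂ] A) (M : Matrix (Fin N) (Fin N) ℂ) :
    σ M = ∑ p, ∑ q, M p q • σ (Matrix.single p q 1) := by
  conv_lhs => rw [Matrix.matrix_eq_sum_single M]
  rw [map_sum]
  refine Finset.sum_congr rfl fun p _ => ?_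
  rw [map_sum]
  refine Finset.sum_congr rfl fun q _ => ?_
  rw [← map_smul, Matrix.smul_single, smul_eq_mul, mul_one]

end NFaux

open NFaux in
theorem t_NF : StNF.{u} := by
  intro A _ _ _ h m a ε hε
  obtain ⟨N, ρ, σ, hρ, hσ, hj⟩ := h m a ε hε
  have hpos : ∀ b : Fin N → A, 0 ≤ B (CStarMatrix.ofMatrix fun p q => σ (Matrix.single p q 1)) b b := by
    intro b
    rcases Nat.eq_zero_or_pos N with rfl | hN
    · simp [B]
    · have h1 := hσ N (fun i => Matrix.single ⟨0, hN⟩ i 1) b
      have h2 : ∀ i j : Fin N, star (Matrix.single (⟨0, hN⟩ : Fin N) i (1 : ℂ)) *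
          Matrix.single (⟨0, hN⟩ : Fin N) j (1 : ℂ) = Matrix.single i j 1 := by
        intro i j
        rw [Matrix.star_eq_conjTranspose, Matrix.conjTranspose_single, star_one,
          Matrix.single_mul_single_same, mul_one]
      simp only [h2] at h1
      exact h1
  obtain ⟨C, hC⟩ := nf_fac _ hpos
  refine ⟨N, N, ρ, fun l p => C l p, hρ, fun j => ?_⟩
  have : ∑ l, ∑ p, ∑ q, ρ (a j) p q • (star (C l p) * C l q) = σ (ρ (a j)) := by
    rw [nf_sigma σ (ρ (a j)), Finset.sum_comm]
    refine Finset.sum_congr rfl fun p _ => ?_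
    rw [Finset.sum_comm]
    refine Finset.sum_congr rfl fun q _ => ?_
    rw [← Finset.smul_sum, ← hC]
    rfl
  rw [this]
  exact hj j

end Pool.Agent.H327R4.SI
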